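import Pool.Agent.Helper94.ETC.DN.Sect
import Pool.Graph.R_pool_sql_team_seeded_5cf16337.K3h25.ET2.Code
import Pool.Graph.R_pool_sql_team_seeded_5cf16337.K3h25.ET2.Fano

set_option autoImplicit false

/-! # Counting the vectors with many functionals -/

namespace Pool.Agent.Helper94.DN

open Module Submodule Pool.Agent.Helper94.I2
open Pool.Agent.K3h25.ET2 (par par_mem exists_par tv dot dot_add dot_smul tv_basis tv_line tv_two
  Line StmFano)

variable {V : Type} [AddCommGroup V] [Module (ZMod 2) V]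
variable {A : V → Submodule (ZMod 2) (Dual (ZMod 2) V)}

/-- orthogonality is symmetric -/
def Os (A : V → Submodule (ZMod 2) (Dual (ZMod 2) V)) : Prop :=
  ∀ v w : V, (∀ f ∈ A v, f w = 0) → ∀ f ∈ A w, f v = 0

/-! ### the lines of the Fano plane -/

def pl : Fin 7 → Fin 3 → ZMod 2 :=
  ![![0, 1, 0], ![1, 0, 0], ![1, 1, 0], ![1, 0, 0], ![1, 0, 1], ![1, 0, 0], ![1, 1, 0]]

def ql : Fin 7 → Fin 3 → ZMod 2 :=
  ![![0, 0, 1], ![0, 0, 1], ![0, 0, 1], ![0, 1, 0], ![0, 1, 0], ![0, 1, 1], ![0, 1, 1]]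

theorem pq_ne : ∀ i, pl i ≠ 0 ∧ ql i ≠ 0 ∧ pl i + ql i ≠ 0 := by
  decide +kernel

/-- `c` is one of `a`, `b`, `a + b` -/
def Mt (c a b : Fin 3 → ZMod 2) : Prop := c = a ∨ c = b ∨ c = a + b

instance (c a b : Fin 3 → ZMod 2) : Decidable (Mt c a b) := by unfold Mt; infer_instance

theorem pq_cover : ∀ a b : Fin 3 → ZMod 2, a ≠ 0 → b ≠ 0 → a ≠ b → ∃ i,
    Mt (pl i) a b ∧ Mt (ql i) a b := by
  decide +kernel

theorem pq_meet : ∀ i, ∀ a b : Fin 3 → ZMod 2, a ≠ 0 → b ≠ 0 → a ≠ b →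
    Mt (pl i) a b ∨ Mt (ql i) a b ∨ Mt (pl i + ql i) a b := by
  decide +kernel

/-! ### sizes -/

theorem card_mul [Finite V] {W : Submodule (ZMod 2) V} {n : ℕ}
    (h : finrank (ZMod 2) W + n ≤ finrank (ZMod 2) V) : 2 ^ n * Nat.card W ≤ Nat.card V := by
  rw [Module.natCard_eq_pow_finrank (K := ZMod 2) (V := W),
    Module.natCard_eq_pow_finrank (K := ZMod 2) (V := V), Nat.card_zmod, ← pow_add]
  exact Nat.pow_le_pow_right (by norm_num) (by omega)

theorem card_mul' [Finite V] {W : Submodule (ZMod 2) V} {n : ℕ}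
    (h : finrank (ZMod 2) V ≤ finrank (ZMod 2) W + n) : Nat.card V ≤ 2 ^ n * Nat.card W := by
  rw [Module.natCard_eq_pow_finrank (K := ZMod 2) (V := W),
    Module.natCard_eq_pow_finrank (K := ZMod 2) (V := V), Nat.card_zmod, ← pow_add]
  exact Nat.pow_le_pow_right (by norm_num) (by omega)

/-- the vectors orthogonal to `a` -/
abbrev Z (A : V → Submodule (ZMod 2) (Dual (ZMod 2) V)) (a : V) : Submodule (ZMod 2) V :=
  (A a).dualCoannihilator

theorem mem_Z {a v : V} : v ∈ Z A a ↔ ∀ f ∈ A a, f v = 0 := by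
  rw [Submodule.mem_dualCoannihilator]

theorem Z_comm (hO : Os A) {a v : V} : v ∈ Z A a ↔ a ∈ Z A v := by
  rw [mem_Z, mem_Z]
  exact ⟨hO a v, hO v a⟩

theorem four_Z [Finite V] {a : V} (ha : a ∉ Ix A) : 4 * Nat.card (Z A a) ≤ Nat.card V := by
  have h1 : 2 ≤ finrank (ZMod 2) (A a) := by
    by_contra hlt
    apply ha
    have h2 : finrank (ZMod 2) (A a) ≤ 1 := by omega
    rw [finrank_le_one_iff] at h2
    obtain ⟨l, hl⟩ := h2
    refine ⟨l, l.2, fun f hf => ?_⟩
    obtain ⟨c, hc⟩ := hl ⟨f, hf⟩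
    have h3 : f = c • (l : Dual (ZMod 2) V) := by
      have := congrArg Subtype.val hc
      exact this.symm
    rcases z01 c with rfl | rfl
    · left; rw [h3, zero_smul]
    · right; rw [h3, one_smul]
  have h2 := Subspace.finrank_add_finrank_dualCoannihilator_eq (A a)
  have h3 : finrank (ZMod 2) (Z A a) = finrank (ZMod 2) (A a).dualCoannihilator := rfl
  exact card_mul (n := 2) (by omega)

/-- three subspaces of index at least four, whose pairwise intersections are a subspace of index at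
most eight -/
theorem three_union [Finite V] {X Y T I : Submodule (ZMod 2) V} (hIX : I ≤ X)
    (hIY : I ≤ Y) (hIT : I ≤ T) (h1 : 4 * Nat.card X ≤ Nat.card V)
    (h2 : 4 * Nat.card Y ≤ Nat.card V) (h3 : 4 * Nat.card T ≤ Nat.card V)
    (hI : Nat.card V ≤ 8 * Nat.card I) : 2 * ((X : Set V) ∪ Y ∪ T).ncard ≤ Nat.card V := by
  have e : (X : Set V) ∪ Y ∪ T ⊆ (I : Set V) ∪ ((X : Set V) \ I) ∪ ((Y : Set V) \ I) ∪
      ((T : Set V) \ I) := by
    intro v hv
    by_cases hI : v ∈ (I : Set V)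
    · exact Or.inl (Or.inl (Or.inl hI))
    · rcases hv with (hv | hv) | hv
      · exact Or.inl (Or.inl (Or.inr ⟨hv, hI⟩))
      · exact Or.inl (Or.inr ⟨hv, hI⟩)
      · exact Or.inr ⟨hv, hI⟩
  have k0 := Set.ncard_le_ncard e (Set.toFinite _)
  have k1 := Set.ncard_union_le ((I : Set V) ∪ ((X : Set V) \ I) ∪ ((Y : Set V) \ I))
    ((T : Set V) \ I)
  have k2 := Set.ncard_union_le ((I : Set V) ∪ ((X : Set V) \ I)) ((Y : Set V) \ I)
  have k3 := Set.ncard_union_le (I : Set V) ((X : Set V) \ I)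
  have c1 := Set.ncard_sdiff_add_ncard_of_subset (s := (I : Set V)) (t := (X : Set V)) hIX
    (Set.toFinite _)
  have c2 := Set.ncard_sdiff_add_ncard_of_subset (s := (I : Set V)) (t := (Y : Set V)) hIY
    (Set.toFinite _)
  have c3 := Set.ncard_sdiff_add_ncard_of_subset (s := (I : Set V)) (t := (T : Set V)) hIT
    (Set.toFinite _)
  have d0 : (I : Set V).ncard = Nat.card I := rfl
  have d1 : (X : Set V).ncard = Nat.card X := rfl
  have d2 : (Y : Set V).ncard = Nat.card Y := rfl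
  have d3 : (T : Set V).ncard = Nat.card T := rfl
  omega

/-- two independent members of a subspace of dimension at least two -/
theorem exists_two [Finite V] {x y z : V} {K : Submodule (ZMod 2) V}
    (hK : K ≤ span (ZMod 2) {x, y, z}) (h2 : 2 ≤ finrank (ZMod 2) K) :
    ∃ a b, a ≠ 0 ∧ b ≠ 0 ∧ a ≠ b ∧ par x y z a ∈ K ∧ par x y z b ∈ K := by
  have h0 : K ≠ ⊥ := by
    rintro rfl
    rw [finrank_bot] at h2
    omega
  obtain ⟨u, huK, hu⟩ := Submodule.exists_mem_ne_zero_of_ne_bot h0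
  have h1 : span (ZMod 2) {u} ≤ K := span_le_of_mem huK
  have h3 : span (ZMod 2) {u} ≠ K := by
    intro h
    rw [← h, finrank_span_singleton hu] at h2
    omega
  obtain ⟨v, hvK, hv⟩ := SetLike.exists_of_lt (lt_of_le_of_ne h1 h3)
  obtain ⟨a, rfl⟩ := exists_par (hK huK)
  obtain ⟨b, rfl⟩ := exists_par (hK hvK)
  refine ⟨a, b, ?_, ?_, ?_, huK, hvK⟩
  · rintro rfl
    exact hu (map_zero _)
  · rintro rfl
    exact hv (by rw [map_zero]; exact zero_mem _)
  · rintro rfl
    exact hv (mem_span_singleton_self _)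

/-- the number of vectors orthogonal to a plane of `P` if all nonzero elements of `P` have index at
least four -/
theorem half [Finite V] (hO : Os A) {x y z : V}
    (hP : ∀ a : Fin 3 → ZMod 2, a ≠ 0 → par x y z a ∉ Ix A) :
    2 * {v : V | 2 ≤ finrank (ZMod 2)
      (span (ZMod 2) {x, y, z} ⊓ Z A v : Submodule (ZMod 2) V)}.ncard ≤ Nat.card V := by
  set R := {v : V | 2 ≤ finrank (ZMod 2)
      (span (ZMod 2) {x, y, z} ⊓ Z A v : Submodule (ZMod 2) V)} with hR
  have hRm : ∀ v ∈ R, ∃ a b, a ≠ 0 ∧ b ≠ 0 ∧ a ≠ b ∧ par x y z a ∈ Z A v ∧ par x y z b ∈ Z A v := by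
    intro v hv
    obtain ⟨a, b, h1, h2, h3, h4, h5⟩ := exists_two (inf_le_left) hv
    exact ⟨a, b, h1, h2, h3, h4.2, h5.2⟩
  have inK : ∀ v a b c, par x y z a ∈ Z A v → par x y z b ∈ Z A v → Mt c a b →
      v ∈ Z A (par x y z c) := by
    rintro v a b c h1 h2 (rfl | rfl | rfl)
    · exact (Z_comm hO).2 h1
    · exact (Z_comm hO).2 h2
    · rw [map_add]
      exact (Z_comm hO).2 (add_mem h1 h2)
  by_cases hcase : ∃ i : Fin 7, finrank (ZMod 2) V ≤
      finrank (ZMod 2) (Z A (par x y z (pl i)) ⊓ Z A (par x y z (ql i)) : Submodule (ZMod 2) V) + 3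
  · obtain ⟨i, hi⟩ := hcase
    obtain ⟨n1, n2, n3⟩ := pq_ne i
    set I := (Z A (par x y z (pl i)) ⊓ Z A (par x y z (ql i)) : Submodule (ZMod 2) V) with hI
    have hIT : I ≤ Z A (par x y z (pl i + ql i)) := by
      intro v hv
      rw [map_add]
      exact (Z_comm hO).2 (add_mem ((Z_comm hO).1 hv.1) ((Z_comm hO).1 hv.2))
    have h1 := three_union (X := Z A (par x y z (pl i))) (Y := Z A (par x y z (ql i)))
      (T := Z A (par x y z (pl i + ql i))) (I := I) inf_le_left inf_le_right hIT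
      (four_Z (hP _ n1)) (four_Z (hP _ n2)) (four_Z (hP _ n3)) (card_mul' (n := 3) hi)
    have h2 : R ⊆ (Z A (par x y z (pl i)) : Set V) ∪ (Z A (par x y z (ql i)) : Set V) ∪
        (Z A (par x y z (pl i + ql i)) : Set V) := by
      intro v hv
      obtain ⟨a, b, m1, m2, m3, m4, m5⟩ := hRm v hv
      rcases pq_meet i a b m1 m2 m3 with h | h | h
      · exact Or.inl (Or.inl (inK v a b _ m4 m5 h))
      · exact Or.inl (Or.inr (inK v a b _ m4 m5 h))
      · exact Or.inr (inK v a b _ m4 m5 h)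
    have h3 := Set.ncard_le_ncard h2 (Set.toFinite _)
    omega
  · push Not at hcase
    have h1 : R ⊆ ⋃ i : Fin 7, ((Z A (par x y z (pl i)) ⊓ Z A (par x y z (ql i)) :
        Submodule (ZMod 2) V) : Set V) := by
      intro v hv
      obtain ⟨a, b, m1, m2, m3, m4, m5⟩ := hRm v hv
      obtain ⟨i, h1, h2⟩ := pq_cover a b m1 m2 m3
      exact Set.mem_iUnion.2 ⟨i, inK v a b _ m4 m5 h1, inK v a b _ m4 m5 h2⟩
    have h2 := Set.ncard_le_ncard h1 (Set.toFinite _)
    have h3 := Set.ncard_iUnion_le_of_fintype (fun i : Fin 7 =>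
      ((Z A (par x y z (pl i)) ⊓ Z A (par x y z (ql i)) : Submodule (ZMod 2) V) : Set V))
    have h4 : ∀ i : Fin 7, 16 * ((Z A (par x y z (pl i)) ⊓ Z A (par x y z (ql i)) :
        Submodule (ZMod 2) V) : Set V).ncard ≤ Nat.card V := fun i =>
      card_mul (n := 4) (by have := hcase i; omega)
    have h5 : 16 * ∑ i : Fin 7, ((Z A (par x y z (pl i)) ⊓ Z A (par x y z (ql i)) :
        Submodule (ZMod 2) V) : Set V).ncard ≤ 7 * Nat.card V := by
      rw [Finset.mul_sum]
      calc _ ≤ ∑ i : Fin 7, Nat.card V := Finset.sum_le_sum fun i _ => h4 i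
        _ = 7 * Nat.card V := by simp
    omega

/-! ### planes whose symbols extend -/

/-- a symbol on `P` is, modulo symbols which extend, an elementary tensor with each functional -/
theorem exists_tensor {x y u z : V} {F : V →ₗ[ZMod 2] Dual (ZMod 2) V}
    (hF : F ∈ Sy A (span (ZMod 2) {x, y, u}))
    (hE : ∀ p ∈ span (ZMod 2) {x, y, u}, ∀ q ∈ span (ZMod 2) {x, y, u},
      ∀ F ∈ Sy A (span (ZMod 2) {p, q}),
        ∃ k ∈ Sy A (span (ZMod 2) {x, y, u} ⊔ span (ZMod 2) {z}),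
          ∀ w ∈ span (ZMod 2) {p, q}, k w = F w) (i : Fin 7) :
    ∃ f : Dual (ZMod 2) V, ∃ b ∈ Sy A (span (ZMod 2) {x, y, u} ⊔ span (ZMod 2) {z}),
      ∀ a, F (par x y u a) + b (par x y u a) = dot (tv i) a • f := by
  obtain ⟨r, hr, p, hp, q, hq, h⟩ := tv_basis i
  have hle : span (ZMod 2) {par x y u p, par x y u q} ≤ span (ZMod 2) {x, y, u} := by
    rw [span_le]
    rintro w (rfl | hw)
    · exact par_mem x y u p
    · rw [Set.mem_singleton_iff.1 hw]; exact par_mem x y u q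
  obtain ⟨b, hb, hb'⟩ := hE _ (par_mem x y u p) _ (par_mem x y u q) F (Sy_anti hle hF)
  have h1 := hb' (par x y u p) (subset_span (by simp))
  have h2 := hb' (par x y u q) (subset_span (by simp))
  refine ⟨F (par x y u r) + b (par x y u r), b, hb, fun a => ?_⟩
  obtain ⟨α, β, γ, rfl⟩ := h a
  rw [dot_add, dot_add, dot_smul, dot_smul, dot_smul, hr, hp, hq, mul_zero, mul_zero, mul_one,
    zero_add, zero_add]
  simp only [map_add, map_smul, h1, h2]
  have : α • F (par x y u p) + β • F (par x y u q) + γ • F (par x y u r) +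
      (α • F (par x y u p) + β • F (par x y u q) + γ • b (par x y u r)) =
      (α • F (par x y u p) + α • F (par x y u p)) + (β • F (par x y u q) + β • F (par x y u q)) +
        (γ • F (par x y u r) + γ • b (par x y u r)) := by abel
  rw [this, vadd, vadd, zero_add, zero_add, smul_add]

theorem count_one [Finite V] (hFano : StmFano) (hL : Lk A) (hV : Vq A) (hC : Cd A) (hO : Os A)
    {x y u z : V} {F₀ : V →ₗ[ZMod 2] Dual (ZMod 2) V}
    (hF₀ : F₀ ∈ Sy A (span (ZMod 2) {x, y, u})) (hP3 : 3 ≤ finrank (ZMod 2) (span (ZMod 2) {x, y, u}))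
    (hn : ¬ ∃ k ∈ Sy A (span (ZMod 2) {x, y, u} ⊔ span (ZMod 2) {z}),
      ∀ p ∈ span (ZMod 2) {x, y, u}, k p = F₀ p)
    (hE : ∀ p ∈ span (ZMod 2) {x, y, u}, ∀ q ∈ span (ZMod 2) {x, y, u},
      ∀ F ∈ Sy A (span (ZMod 2) {p, q}),
        ∃ k ∈ Sy A (span (ZMod 2) {x, y, u} ⊔ span (ZMod 2) {z}),
          ∀ w ∈ span (ZMod 2) {p, q}, k w = F w) :
    5 * Nat.card V ≤ 8 * {v : V | 3 ≤ finrank (ZMod 2) (A v)}.ncard := by
  classical
  set P := span (ZMod 2) {x, y, u} with hP
  choose f b hb hfb using exists_tensor hF₀ hE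
  obtain ⟨W, F, hPW, hFP, hM⟩ := exists_max hF₀ hn
  have hn' : ∀ k ∈ Sy A (P ⊔ span (ZMod 2) {z}), ∃ p ∈ P, k p ≠ F₀ p := by
    intro k hk
    by_contra hcon
    push Not at hcon
    exact hn ⟨k, hk, hcon⟩
  have h1 : ∀ i, f i ≠ 0 := by
    intro i hi
    obtain ⟨p, hp, h⟩ := hn' (b i) (hb i)
    obtain ⟨a, rfl⟩ := exists_par hp
    have := hfb i a
    rw [hi, smul_zero] at this
    exact h (aez.1 this).symm
  have h2 : ∀ i j l : Fin 7, Line i j l → ¬ (f i = f j ∧ f j = f l) := by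
    rintro i j l hijl ⟨e1, e2⟩
    obtain ⟨p, hp, h⟩ := hn' (b i + b j + b l) (add_mem (add_mem (hb i) (hb j)) (hb l))
    obtain ⟨a, rfl⟩ := exists_par hp
    apply h
    have k1 := hfb i a
    have k2 := hfb j a
    have k3 := hfb l a
    rw [e1, e2] at k1
    rw [e2] at k2
    have k4 : (F₀ (par x y u a) + b i (par x y u a)) + (F₀ (par x y u a) + b j (par x y u a)) +
        (F₀ (par x y u a) + b l (par x y u a)) = 0 := by
      rw [k1, k2, k3, ← add_smul, ← add_smul, tv_line i j l hijl a, zero_smul]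
    have k5 : (F₀ (par x y u a) + b i (par x y u a)) + (F₀ (par x y u a) + b j (par x y u a)) +
        (F₀ (par x y u a) + b l (par x y u a)) =
        ((b i + b j + b l) (par x y u a) + F₀ (par x y u a)) +
          (F₀ (par x y u a) + F₀ (par x y u a)) := by
      rw [LinearMap.add_apply, LinearMap.add_apply]
      abel
    rw [k5, vadd, add_zero] at k4
    exact aez.1 k4
  obtain ⟨-, c2⟩ := hFano V f h1 h2
  have hWc : 8 * Nat.card W ≤ Nat.card V := card_mul (n := 3) (hM.codim hC)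
  have od : ∀ (i : Fin 7) (v : V), f i v ≠ 0 → ∀ a, par x y u a ∈ Z A v → dot (tv i) a = 0 := by
    intro i v hv a ha
    have hva : v ∈ Z A (par x y u a) := (Z_comm hO).1 ha
    have k2 : F₀ (par x y u a) v = 0 := mem_Z.1 hva _ (hF₀ _ (par_mem x y u a))
    have k3 : b i (par x y u a) v = 0 :=
      mem_Z.1 hva _ (hb i _ (mem_sup_left (par_mem x y u a)))
    have k4 := LinearMap.congr_fun (hfb i a) v
    rw [LinearMap.add_apply, k2, k3, add_zero, LinearMap.smul_apply, smul_eq_mul, zne hv,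
      mul_one] at k4
    exact k4.symm
  have h3 : (Set.univ : Set V) ⊆ (W : Set V) ∪ {v | ∃ i : Fin 7, ∀ k, f k v ≠ 0 → k = i} ∪
      {v : V | 3 ≤ finrank (ZMod 2) (A v)} := by
    intro v _
    by_cases hv : v ∈ W
    · exact Or.inl (Or.inl hv)
    by_cases hv' : v ∈ {v | ∃ i : Fin 7, ∀ k, f k v ≠ 0 → k = i}
    · exact Or.inl (Or.inr hv')
    right
    have h4 := hM.finrank_le hL hV hPW hv
    have h5 : finrank (ZMod 2) (P ⊓ Z A v : Submodule (ZMod 2) V) ≤ 1 := by
      obtain ⟨k, k', hkk', hk, hk'⟩ : ∃ k k', k ≠ k' ∧ f k v ≠ 0 ∧ f k' v ≠ 0 := by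
        by_contra hcon
        push Not at hcon
        apply hv'
        by_cases h6 : ∃ k, f k v ≠ 0
        · obtain ⟨k, hk⟩ := h6
          refine ⟨k, fun k' hk' => ?_⟩
          by_contra hne
          exact hk' (hcon k k' (fun h => hne h.symm) hk)
        · push Not at h6
          exact ⟨0, fun k hk => absurd (h6 k) hk⟩
      obtain ⟨a₀, h6⟩ := tv_two k k' hkk'
      have h7 : (P ⊓ Z A v : Submodule (ZMod 2) V) ≤ span (ZMod 2) {par x y u a₀} := by
        rintro w ⟨hw1, hw2⟩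
        obtain ⟨a, rfl⟩ := exists_par hw1
        rcases h6 a (od k v hk a hw2) (od k' v hk' a hw2) with rfl | rfl
        · rw [map_zero]; exact zero_mem _
        · exact mem_span_singleton_self _
      exact (Submodule.finrank_mono h7).trans ((finrank_span_le_card _).trans (by simp))
    have h6 : finrank (ZMod 2) (P ⊓ (A v).dualCoannihilator : Submodule (ZMod 2) V) ≤ 1 := h5
    show 3 ≤ finrank (ZMod 2) (A v)
    omega
  have h4 := Set.ncard_le_ncard h3 (Set.toFinite _)
  rw [Set.ncard_univ] at h4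
  have h5 := Set.ncard_union_le ((W : Set V) ∪ {v | ∃ i : Fin 7, ∀ k, f k v ≠ 0 → k = i})
    {v : V | 3 ≤ finrank (ZMod 2) (A v)}
  have h6 := Set.ncard_union_le (W : Set V) {v | ∃ i : Fin 7, ∀ k, f k v ≠ 0 → k = i}
  have h7 : (W : Set V).ncard = Nat.card W := rfl
  have h8 : {v | ∃ i : Fin 7, ∀ k, f k v ≠ 0 → k = i}.ncard =
      Nat.card {v : V // ∃ i : Fin 7, ∀ k, f k v ≠ 0 → k = i} := rfl
  omega

/-- **counting** -/
theorem count [Finite V] (hFano : StmFano) (hL : Lk A) (hV : Vq A) (hC : Cd A) (hO : Os A)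
    {x y u z : V} (hn : ¬ Ex A (span (ZMod 2) {x, y, u}) z) :
    3 * Nat.card V ≤ 8 * {v : V | 3 ≤ finrank (ZMod 2) (A v)}.ncard := by
  classical
  set P := span (ZMod 2) {x, y, u} with hP
  have hP3 : 3 ≤ finrank (ZMod 2) P := by
    by_contra hlt
    exact hn (ex_small hL (by omega) z)
  have hP3' : finrank (ZMod 2) P ≤ 3 := by
    refine (finrank_span_le_card _).trans ?_
    calc (({x, y, u} : Set V)).toFinset.card ≤ ({x, y, u} : Finset V).card := by
          apply Finset.card_le_card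
          intro w hw
          simpa using hw
      _ ≤ 3 := Finset.card_le_three
  have hinj : ∀ a, a ≠ 0 → par x y u a ≠ 0 := by
    intro a ha h0
    have hr : LinearMap.range (par x y u) = P := by
      ext w
      constructor
      · rintro ⟨a, rfl⟩
        exact par_mem x y u a
      · intro hw
        exact exists_par hw
    have h1 := LinearMap.finrank_range_add_finrank_ker (par x y u)
    rw [hr, Module.finrank_fin_fun] at h1
    have h2 : LinearMap.ker (par x y u) = ⊥ := by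
      rw [← Submodule.finrank_eq_zero (R := ZMod 2)]
      omega
    exact ha ((LinearMap.ker_eq_bot'.1 h2) a h0)
  have hP4 : finrank (ZMod 2) (P ⊔ span (ZMod 2) {z} : Submodule (ZMod 2) V) ≤ 4 := by
    have h1 := Submodule.finrank_add_le_finrank_add_finrank P (span (ZMod 2) {z})
    have h2 : finrank (ZMod 2) (span (ZMod 2) {z}) ≤ 1 := (finrank_span_le_card _).trans (by simp)
    omega
  unfold Ex at hn
  push Not at hn
  obtain ⟨F₀, hF₀, hn⟩ := hn
  by_cases hE : ∀ p ∈ P, ∀ q ∈ P, ∀ F ∈ Sy A (span (ZMod 2) {p, q}),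
        ∃ k ∈ Sy A (P ⊔ span (ZMod 2) {z}), ∀ w ∈ span (ZMod 2) {p, q}, k w = F w
  · have := count_one hFano hL hV hC hO hF₀ hP3 (z := z) (by
      rintro ⟨k, hk, h⟩
      obtain ⟨w, hw, h'⟩ := hn k hk
      exact h' (h w hw)) hE
    omega
  · push Not at hE
    obtain ⟨p, hp, q, hq, F, hF, hnF⟩ := hE
    have hle : span (ZMod 2) {p, q} ≤ P := by
      rw [span_le]
      rintro w (rfl | hw)
      · exact hp
      · rw [Set.mem_singleton_iff.1 hw]; exact hq
    have h2 : finrank (ZMod 2) (span (ZMod 2) {p, q}) ≤ 2 := by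
      refine (finrank_span_le_card _).trans ?_
      calc (({p, q} : Set V)).toFinset.card ≤ ({p, q} : Finset V).card := by
            apply Finset.card_le_card
            intro w hw
            simpa using hw
        _ ≤ 2 := Finset.card_le_two
    -- no element of index at most two
    have hix : ∀ a : Fin 3 → ZMod 2, a ≠ 0 → par x y u a ∉ Ix A := by
      intro a ha hIx
      obtain ⟨k, hk, h⟩ := ext_four hL hP4 (hle.trans le_sup_left) h2
        (mem_sup_left (par_mem x y u a)) (hinj a ha) hIx hF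
      obtain ⟨w, hw, h'⟩ := hnF k hk
      exact h' (h w hw)
    obtain ⟨F', hF', e'⟩ := ext_three hL (P := P) hP3' 3 (span (ZMod 2) {p, q}) hle
      (by omega) F hF
    obtain ⟨W, h, hPW, hhP, hM⟩ := exists_max hF' (z := z) (by
      rintro ⟨k, hk, hk'⟩
      obtain ⟨w, hw, h'⟩ := hnF k hk
      exact h' (by rw [hk' w (hle hw), e' w hw]))
    have hWc : 8 * Nat.card W ≤ Nat.card V := card_mul (n := 3) (hM.codim hC)
    have hR := half hO hix
    set R := {v : V | 2 ≤ finrank (ZMod 2)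
      (span (ZMod 2) {x, y, u} ⊓ Z A v : Submodule (ZMod 2) V)} with hRdef
    have h3 : (Set.univ : Set V) ⊆ (W : Set V) ∪ R ∪ {v : V | 3 ≤ finrank (ZMod 2) (A v)} := by
      intro v _
      by_cases hv : v ∈ W
      · exact Or.inl (Or.inl hv)
      by_cases hv' : v ∈ R
      · exact Or.inl (Or.inr hv')
      right
      have h4 := hM.finrank_le hL hV hPW hv
      have h5 : ¬ 2 ≤ finrank (ZMod 2) (P ⊓ (A v).dualCoannihilator : Submodule (ZMod 2) V) := hv'
      show 3 ≤ finrank (ZMod 2) (A v)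
      omega
    have h4 := Set.ncard_le_ncard h3 (Set.toFinite _)
    rw [Set.ncard_univ] at h4
    have h5 := Set.ncard_union_le ((W : Set V) ∪ R) {v : V | 3 ≤ finrank (ZMod 2) (A v)}
    have h6 := Set.ncard_union_le (W : Set V) R
    have h7 : (W : Set V).ncard = Nat.card W := rfl
    omega

end Pool.Agent.Helper94.DN
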