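import Pool.Agent.Helper94.ETC.DN.Geo

set_option autoImplicit false

/-! # Counting again, for planes which contain an element of index at least eight -/

namespace Pool.Agent.Helper94.DN

open Module Submodule Pool.Agent.Helper94.I2
open Pool.Agent.K3h25.ET2 (par par_mem exists_par StmFano)

variable {V : Type} [AddCommGroup V] [Module (ZMod 2) V]
variable {A : V → Submodule (ZMod 2) (Dual (ZMod 2) V)}

/-- the number of vectors orthogonal to a line of `P` if all nonzero elements of `P` have index at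
least four and one has index at least eight -/
theorem half2 [Finite V] (hO : Os A) {x y z : V}
    (hP : ∀ a : Fin 3 → ZMod 2, a ≠ 0 → par x y z a ∉ Ix A)
    (hx : finrank (ZMod 2) (Z A x) + 3 ≤ finrank (ZMod 2) V) :
    16 * {v : V | 2 ≤ finrank (ZMod 2)
      (span (ZMod 2) {x, y, z} ⊓ Z A v : Submodule (ZMod 2) V)}.ncard ≤ 5 * Nat.card V := by
  classical
  set R := {v : V | 2 ≤ finrank (ZMod 2)
      (span (ZMod 2) {x, y, z} ⊓ Z A v : Submodule (ZMod 2) V)} with hR
  set n := finrank (ZMod 2) V with hn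
  set m := finrank (ZMod 2) (V0 A x y z) with hm
  have hP' : ∀ a : Fin 3 → ZMod 2, a ≠ 0 → finrank (ZMod 2) (Z A (par x y z a)) + 2 ≤ n :=
    fun a ha => finrank_Z (hP a ha)
  have ex : par x y z ![1, 0, 0] = x := by simp [par]
  have hmi : ∀ i, m ≤ finrank (ZMod 2) (Vl A x y z i) := fun i => Submodule.finrank_mono (V0_le hO i)
  choose s hs using fun i => Nat.exists_eq_add_of_le (hmi i)
  -- the dimensions
  have hle : ∀ i, finrank (ZMod 2) (Vl A x y z i) + 2 ≤ n := by
    intro i
    have h1 : Vl A x y z i ≤ Z A (par x y z (pl i)) := inf_le_left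
    have h2 := Submodule.finrank_mono h1
    have h3 := hP' (pl i) (pq_ne i).1
    omega
  have hmn : m ≤ n := (hmi 0).trans (by have := hle 0; omega)
  obtain ⟨D, hD⟩ := Nat.exists_eq_add_of_le hmn
  have hpair : ∀ i j, i ≠ j → s i + s j + 2 ≤ D := by
    intro i j hij
    obtain ⟨a, ha0, hai, haj⟩ := pq_common i j
    have h1 := two_lines hO (x := x) (y := y) (z := z) hij hai haj
    have h2 := hP' a ha0
    have h3 := hs i
    have h4 := hs j
    omega
  have hpair' : ∀ i j, i ≠ j → On ![1, 0, 0] i → On ![1, 0, 0] j → s i + s j + 3 ≤ D := by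
    intro i j hij hai haj
    have h1 := two_lines hO (x := x) (y := y) (z := z) hij hai haj
    rw [ex] at h1
    have h3 := hs i
    have h4 := hs j
    omega
  have hnum := num s D (fun i => by have := hle i; have := hs i; omega) hpair
    ⟨hpair' 1 3 (by decide) (by decide) (by decide), hpair' 1 5 (by decide) (by decide) (by decide),
      hpair' 3 5 (by decide) (by decide) (by decide)⟩ (by
      intro hD4 c0 c2 c4 c6
      have k0 := hs 0
      have k1 := hs 1
      have k2 := hs 2
      have k3 := hs 3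
      have k4 := hs 4
      have k5 := hs 5
      have k6 := hs 6
      obtain ⟨d1, d2⟩ := same hO (x := x) (y := y) (z := z) hn hP' (by omega) (by omega) (by omega)
        (by omega) (by omega)
      omega)
  -- the sizes
  have cV : Nat.card V = 2 ^ m * 2 ^ D := by
    rw [Module.natCard_eq_pow_finrank (K := ZMod 2) (V := V), Nat.card_zmod, ← hn, hD, pow_add]
  have c0 : Nat.card (V0 A x y z) = 2 ^ m := by
    rw [Module.natCard_eq_pow_finrank (K := ZMod 2) (V := V0 A x y z), Nat.card_zmod]
  have ci : ∀ i, Nat.card (Vl A x y z i) = 2 ^ m * 2 ^ s i := by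
    intro i
    rw [Module.natCard_eq_pow_finrank (K := ZMod 2) (V := Vl A x y z i), Nat.card_zmod, hs i,
      pow_add]
  -- the covering
  have hcov : R ⊆ (V0 A x y z : Set V) ∪ ⋃ i : Fin 7, ((Vl A x y z i : Set V) \ V0 A x y z) := by
    intro v hv
    by_cases hv0 : v ∈ (V0 A x y z : Set V)
    · exact Or.inl hv0
    · right
      obtain ⟨a, b, m1, m2, m3, m4, m5⟩ := exists_two (inf_le_left) hv
      obtain ⟨i, h1, h2⟩ := pq_cover a b m1 m2 m3
      have inK : ∀ c, Mt c a b → v ∈ Z A (par x y z c) := by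
        rintro c (rfl | rfl | rfl)
        · exact (Z_comm hO).2 m4.2
        · exact (Z_comm hO).2 m5.2
        · rw [map_add]
          exact (Z_comm hO).2 (add_mem m4.2 m5.2)
      exact Set.mem_iUnion.2 ⟨i, ⟨inK _ h1, inK _ h2⟩, hv0⟩
  have h1 := Set.ncard_le_ncard hcov (Set.toFinite _)
  have h2 := Set.ncard_union_le (V0 A x y z : Set V)
    (⋃ i : Fin 7, ((Vl A x y z i : Set V) \ V0 A x y z))
  have h3 := Set.ncard_iUnion_le_of_fintype
    (fun i : Fin 7 => ((Vl A x y z i : Set V) \ V0 A x y z))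
  have h4 : ∀ i : Fin 7, ((Vl A x y z i : Set V) \ V0 A x y z).ncard + 2 ^ m = 2 ^ m * 2 ^ s i := by
    intro i
    have h5 := Set.ncard_sdiff_add_ncard_of_subset (s := (V0 A x y z : Set V))
      (t := (Vl A x y z i : Set V)) (V0_le hO i) (Set.toFinite _)
    have d0 : (V0 A x y z : Set V).ncard = Nat.card (V0 A x y z) := rfl
    have d1 : (Vl A x y z i : Set V).ncard = Nat.card (Vl A x y z i) := rfl
    rw [d0, d1, c0, ci i] at h5
    exact h5
  have h5 : ∑ i : Fin 7, ((Vl A x y z i : Set V) \ V0 A x y z).ncard + 7 * 2 ^ m =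
      2 ^ m * ∑ i : Fin 7, 2 ^ s i := by
    rw [Finset.mul_sum, ← Finset.sum_congr rfl (fun i _ => h4 i), Finset.sum_add_distrib]
    simp
  have d0 : (V0 A x y z : Set V).ncard = 2 ^ m := c0
  have h6 : R.ncard + 6 * 2 ^ m ≤ 2 ^ m * ∑ i : Fin 7, 2 ^ s i := by omega
  have h7 : 2 ^ m * (16 * ∑ i : Fin 7, 2 ^ s i) ≤ 2 ^ m * (5 * 2 ^ D + 96) :=
    Nat.mul_le_mul_left _ hnum
  rw [cV]
  have h8 : 2 ^ m * (16 * ∑ i : Fin 7, 2 ^ s i) = 16 * (2 ^ m * ∑ i : Fin 7, 2 ^ s i) := by ring
  have h9 : 2 ^ m * (5 * 2 ^ D + 96) = 5 * (2 ^ m * 2 ^ D) + 96 * 2 ^ m := by ring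
  rw [h8, h9] at h7
  omega

/-- **counting** -/
theorem count2 [Finite V] (hFano : StmFano) (hL : Lk A) (hV : Vq A) (hC : Cd A) (hO : Os A)
    {x y u z : V} (hx : 3 ≤ finrank (ZMod 2) (A x)) (hn : ¬ Ex A (span (ZMod 2) {x, y, u}) z) :
    9 * Nat.card V ≤ 16 * {v : V | 3 ≤ finrank (ZMod 2) (A v)}.ncard := by
  classical
  set P := span (ZMod 2) {x, y, u} with hP
  have hP3 : 3 ≤ finrank (ZMod 2) P := by
    by_contra hlt
    exact hn (ex_small hL (by omega) z)
  have hP3' : finrank (ZMod 2) P ≤ 3 := by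
    refine (finrank_span_le_card _).trans ?_
    calc (({x, y, u} : Set V)).toFinset.card ≤ ({x, y, u} : Finset V).card := by
          apply Finset.card_le_card
          intro w hw
          simpa using hw
      _ ≤ 3 := Finset.card_le_three
  have hinj : ∀ a, a ≠ 0 → par x y u a ≠ 0 := by
    intro a ha h0
    have hr : LinearMap.range (par x y u) = P := by
      ext w
      constructor
      · rintro ⟨a, rfl⟩
        exact par_mem x y u a
      · intro hw
        exact exists_par hw
    have h1 := LinearMap.finrank_range_add_finrank_ker (par x y u)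
    rw [hr, Module.finrank_fin_fun] at h1
    have h2 : LinearMap.ker (par x y u) = ⊥ := by
      rw [← Submodule.finrank_eq_zero (R := ZMod 2)]
      omega
    exact ha ((LinearMap.ker_eq_bot'.1 h2) a h0)
  have hP4 : finrank (ZMod 2) (P ⊔ span (ZMod 2) {z} : Submodule (ZMod 2) V) ≤ 4 := by
    have h1 := Submodule.finrank_add_le_finrank_add_finrank P (span (ZMod 2) {z})
    have h2 : finrank (ZMod 2) (span (ZMod 2) {z}) ≤ 1 := (finrank_span_le_card _).trans (by simp)
    omega
  unfold Ex at hn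
  push Not at hn
  obtain ⟨F₀, hF₀, hn⟩ := hn
  by_cases hE : ∀ p ∈ P, ∀ q ∈ P, ∀ F ∈ Sy A (span (ZMod 2) {p, q}),
        ∃ k ∈ Sy A (P ⊔ span (ZMod 2) {z}), ∀ w ∈ span (ZMod 2) {p, q}, k w = F w
  · have := count_one hFano hL hV hC hO hF₀ hP3 (z := z) (by
      rintro ⟨k, hk, h⟩
      obtain ⟨w, hw, h'⟩ := hn k hk
      exact h' (h w hw)) hE
    omega
  · push Not at hE
    obtain ⟨p, hp, q, hq, F, hF, hnF⟩ := hE
    have hle : span (ZMod 2) {p, q} ≤ P := by
      rw [span_le]
      rintro w (rfl | hw)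
      · exact hp
      · rw [Set.mem_singleton_iff.1 hw]; exact hq
    have h2 : finrank (ZMod 2) (span (ZMod 2) {p, q}) ≤ 2 := by
      refine (finrank_span_le_card _).trans ?_
      calc (({p, q} : Set V)).toFinset.card ≤ ({p, q} : Finset V).card := by
            apply Finset.card_le_card
            intro w hw
            simpa using hw
        _ ≤ 2 := Finset.card_le_two
    -- no element of index at most two
    have hix : ∀ a : Fin 3 → ZMod 2, a ≠ 0 → par x y u a ∉ Ix A := by
      intro a ha hIx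
      obtain ⟨k, hk, h⟩ := ext_four hL hP4 (hle.trans le_sup_left) h2
        (mem_sup_left (par_mem x y u a)) (hinj a ha) hIx hF
      obtain ⟨w, hw, h'⟩ := hnF k hk
      exact h' (h w hw)
    obtain ⟨W, h, hPW, hhP, hM⟩ := exists_max hF₀ (z := z) (by
      rintro ⟨k, hk, hk'⟩
      obtain ⟨w, hw, h'⟩ := hn k hk
      exact h' (hk' w hw))
    have hWc : 8 * Nat.card W ≤ Nat.card V := card_mul (n := 3) (hM.codim hC)
    have hxZ : finrank (ZMod 2) (Z A x) + 3 ≤ finrank (ZMod 2) V := by
      have h2 := Subspace.finrank_add_finrank_dualCoannihilator_eq (A x)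
      have h3 : finrank (ZMod 2) (Z A x) = finrank (ZMod 2) (A x).dualCoannihilator := rfl
      omega
    have hR := half2 hO hix hxZ
    set R := {v : V | 2 ≤ finrank (ZMod 2)
      (span (ZMod 2) {x, y, u} ⊓ Z A v : Submodule (ZMod 2) V)} with hRdef
    have h3 : (Set.univ : Set V) ⊆ (W : Set V) ∪ R ∪ {v : V | 3 ≤ finrank (ZMod 2) (A v)} := by
      intro v _
      by_cases hv : v ∈ W
      · exact Or.inl (Or.inl hv)
      by_cases hv' : v ∈ R
      · exact Or.inl (Or.inr hv')
      right
      have h4 := hM.finrank_le hL hV hPW hv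
      have h5 : ¬ 2 ≤ finrank (ZMod 2) (P ⊓ (A v).dualCoannihilator : Submodule (ZMod 2) V) := hv'
      show 3 ≤ finrank (ZMod 2) (A v)
      omega
    have h4 := Set.ncard_le_ncard h3 (Set.toFinite _)
    rw [Set.ncard_univ] at h4
    have h5 := Set.ncard_union_le ((W : Set V) ∪ R) {v : V | 3 ≤ finrank (ZMod 2) (A v)}
    have h6 := Set.ncard_union_le (W : Set V) R
    have h7 : (W : Set V).ncard = Nat.card W := rfl
    omega

end Pool.Agent.Helper94.DN
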