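import Pool.Agent.Helper94.ETC.DN.Geo

set_option autoImplicit false

/-! # Failing symbols on subspaces of dimension two: extension by a vector with a unique value -/

namespace Pool.Agent.Helper94.DN

open Module Submodule Pool.Agent.Helper94.I2

variable {V : Type} [AddCommGroup V] [Module (ZMod 2) V]
variable {A : V → Submodule (ZMod 2) (Dual (ZMod 2) V)}

theorem ex_of_val2 {W : Submodule (ZMod 2) V} {z : V} (hz : z ∉ W)
    {h : V →ₗ[ZMod 2] Dual (ZMod 2) V} (hh : h ∈ Sy A W) (g : Dual (ZMod 2) V)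
    (hg : ∀ w ∈ W, g + h w ∈ A (z + w)) :
    ∃ h' ∈ Sy A (W ⊔ span (ZMod 2) {z}), (∀ w ∈ W, h' w = h w) ∧ h' z = g := by
  obtain ⟨l, hl1, hl2⟩ := Submodule.exists_le_ker_of_notMem hz
  have l1 : l z = 1 := zne hl1
  have l0 : ∀ w ∈ W, l w = 0 := fun w hw => hl2 hw
  refine ⟨h + l.smulRight (g + h z), ?_, fun w hw => ?_, ?_⟩
  · intro x hx
    obtain ⟨w, hw, y, hy, rfl⟩ := mem_sup.1 hx
    obtain ⟨c, rfl⟩ := mem_span_singleton.1 hy
    rcases z01 c with rfl | rfl
    · simp only [zero_smul, add_zero, LinearMap.add_apply, LinearMap.smulRight_apply, l0 w hw]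
      exact hh w hw
    · simp only [one_smul, LinearMap.add_apply, LinearMap.smulRight_apply, map_add, l0 w hw, l1,
        zero_smul, add_zero]
      have e : h w + (h z + (g + h z)) = g + h w := by
        have : h w + (h z + (g + h z)) = (g + h w) + (h z + h z) := by abel
        rw [this, vadd, add_zero]
      rw [e, add_comm w z]
      exact hg w hw
  · simp only [LinearMap.add_apply, LinearMap.smulRight_apply, l0 w hw, zero_smul, add_zero]
  · simp only [LinearMap.add_apply, LinearMap.smulRight_apply, l1, one_smul]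
    have : h z + (g + h z) = g + (h z + h z) := by abel
    rw [this, vadd, add_zero]

/-- two elements with disjoint functionals, not both in `L₀`: symbols on `L₀` extend -/
theorem ext_disj [Finite V] (hL : Lk A) {P L₀ U : Submodule (ZMod 2) V}
    (hP : finrank (ZMod 2) P ≤ 4) (hLP : L₀ ≤ P) (hL2 : finrank (ZMod 2) L₀ ≤ 2)
    {a w : V} (haP : a ∈ P) (hwP : w ∈ P) (hU : U ≤ L₀) (haU : a ∉ U ⊔ span (ZMod 2) {w})
    (hsplit : ∀ x ∈ L₀, x ∈ U ∨ (a ∈ L₀ ∧ x + a ∈ U))
    (h0 : ∀ f ∈ A a, f ∈ A (a + w) → f = 0)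
    {F : V →ₗ[ZMod 2] Dual (ZMod 2) V} (hF : F ∈ Sy A L₀) :
    ∃ k ∈ Sy A P, ∀ x ∈ L₀, k x = F x := by
  obtain ⟨l, hl1, hl2⟩ := Submodule.exists_le_ker_of_notMem haU
  have l1 : l a = 1 := zne hl1
  set H := P ⊓ LinearMap.ker l with hH
  have haH : a ∉ H := fun h => hl1 h.2
  have hHP : H < P := by
    refine lt_of_le_of_ne inf_le_left fun h => haH ?_
    rw [h]; exact haP
  have h1 := Submodule.finrank_lt_finrank_of_lt hHP
  have hUw : U ⊔ span (ZMod 2) {w} ≤ H :=
    le_inf (sup_le (hU.trans hLP) (span_le_of_mem hwP)) hl2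
  have hwm : w ∈ U ⊔ span (ZMod 2) {w} := mem_sup_right (mem_span_singleton_self w)
  obtain ⟨F1, hF1, e1⟩ := ex_small hL hL2 w F hF
  have hle : U ⊔ span (ZMod 2) {w} ≤ L₀ ⊔ span (ZMod 2) {w} := sup_le_sup_right hU _
  obtain ⟨κ, hκ, eκ⟩ := ext_three hL (P := H) (by omega) 3 (U ⊔ span (ZMod 2) {w}) hUw (by omega)
    F1 (Sy_anti hle hF1)
  -- the value at `a`
  obtain ⟨τ, t0, t1, -, -⟩ := hL w 0 a (κ w) (hκ w (hUw hwm)) 0 (zero_mem _) (by
    rw [add_zero, add_zero]; exact hκ w (hUw hwm))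
  have huniq : ∀ τ' ∈ A a, τ' + κ w ∈ A (a + w) → τ' = τ := by
    intro τ' h2 h3
    have h4 := h0 (τ' + τ) (add_mem h2 t0) (by
      have h5 := add_mem h3 t1
      have e : τ' + κ w + (τ + κ w) = τ' + τ + (κ w + κ w) := by abel
      rwa [e, vadd, add_zero] at h5)
    exact aez.1 h4
  obtain ⟨k, hk, ek, eka⟩ := ex_of_val2 haH hκ τ fun w' hw' => by
    obtain ⟨τ', s0, s1, s2, -⟩ := hL w w' a (κ w) (hκ w (hUw hwm)) (κ w') (hκ w' hw') (by
      rw [← map_add]; exact hκ _ (add_mem (hUw hwm) hw'))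
    rw [← huniq τ' s0 s1]
    exact s2
  have hPle : P ≤ H ⊔ span (ZMod 2) {a} := by
    intro x hx
    rcases z01 (l x) with h | h
    · exact mem_sup_left ⟨hx, h⟩
    · have h3 : x + a ∈ H := ⟨add_mem hx haP, by show l (x + a) = 0; rw [map_add, h, l1, vadd]⟩
      have h4 : x = x + a + a := by rw [add_assoc, vadd, add_zero]
      rw [h4]
      exact add_mem (mem_sup_left h3) (mem_sup_right (mem_span_singleton_self a))
  have kU : ∀ x ∈ U, k x = F x := by
    intro x hx
    rw [ek x (hUw (mem_sup_left hx)), eκ x (mem_sup_left hx), e1 x (hU hx)]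
  refine ⟨k, Sy_anti hPle hk, fun x hx => ?_⟩
  rcases hsplit x hx with h2 | ⟨haL, h2⟩
  · exact kU x h2
  · have h3 := kU _ h2
    rw [map_add, map_add] at h3
    have h4 : F a = τ := by
      refine huniq _ (hF a haL) ?_
      have h5 := hF1 _ (add_mem (mem_sup_left haL) (hle hwm))
      rw [map_add, e1 a haL, ← eκ w hwm] at h5
      exact h5
    rw [eka, h4] at h3
    exact add_right_cancel h3

/-- the elements orthogonal to two elements with a common functional -/
theorem sup_ne_top {b x : V} (h : ¬ ∀ f ∈ A b, f ∈ A x → f = 0) : Z A b ⊔ Z A x ≠ ⊤ := by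
  push Not at h
  obtain ⟨f, hf1, hf2, hf0⟩ := h
  intro hT
  apply hf0
  refine LinearMap.ext fun v => ?_
  have hle : Z A b ⊔ Z A x ≤ LinearMap.ker f :=
    sup_le (fun v hv => mem_Z.1 hv f hf1) (fun v hv => mem_Z.1 hv f hf2)
  exact hle (hT ▸ mem_top)

/-- sizes -/
theorem card_sup [Finite V] (X Y : Submodule (ZMod 2) V) :
    Nat.card X * Nat.card Y ≤ Nat.card V * Nat.card (X ⊓ Y : Submodule (ZMod 2) V) := by
  have h1 := Submodule.finrank_sup_add_finrank_inf_eq X Y
  have h2 := Submodule.finrank_le (X ⊔ Y)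
  rw [Module.natCard_eq_pow_finrank (K := ZMod 2) (V := X),
    Module.natCard_eq_pow_finrank (K := ZMod 2) (V := Y),
    Module.natCard_eq_pow_finrank (K := ZMod 2) (V := V),
    Module.natCard_eq_pow_finrank (K := ZMod 2) (V := (X ⊓ Y : Submodule (ZMod 2) V)),
    Nat.card_zmod, ← pow_add, ← pow_add]
  exact Nat.pow_le_pow_right (by norm_num) (by omega)

theorem card_sup' [Finite V] {X Y : Submodule (ZMod 2) V} (h : X ⊔ Y ≠ ⊤) :
    2 * (Nat.card X * Nat.card Y) ≤ Nat.card V * Nat.card (X ⊓ Y : Submodule (ZMod 2) V) := by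
  have h1 := Submodule.finrank_sup_add_finrank_inf_eq X Y
  have h2 := Submodule.finrank_lt h
  rw [Module.natCard_eq_pow_finrank (K := ZMod 2) (V := X),
    Module.natCard_eq_pow_finrank (K := ZMod 2) (V := Y),
    Module.natCard_eq_pow_finrank (K := ZMod 2) (V := V),
    Module.natCard_eq_pow_finrank (K := ZMod 2) (V := (X ⊓ Y : Submodule (ZMod 2) V)),
    Nat.card_zmod, ← pow_add, ← pow_add, ← pow_succ']
  exact Nat.pow_le_pow_right (by norm_num) (by omega)

/-- a proper subspace -/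
theorem card_lt' [Finite V] {X Y : Submodule (ZMod 2) V} (h : X ≤ Y) (hne : X ≠ Y) :
    2 * Nat.card X ≤ Nat.card Y := by
  have h2 := Submodule.finrank_lt_finrank_of_lt (lt_of_le_of_ne h hne)
  rw [Module.natCard_eq_pow_finrank (K := ZMod 2) (V := X),
    Module.natCard_eq_pow_finrank (K := ZMod 2) (V := Y), Nat.card_zmod, ← pow_succ']
  exact Nat.pow_le_pow_right (by norm_num) (by omega)

theorem eq_of_card_le [Finite V] {X Y : Submodule (ZMod 2) V} (h : X ≤ Y)
    (hc : Nat.card Y ≤ Nat.card X) : X = Y := by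
  by_contra hne
  have h1 := card_lt' h hne
  have h2 : 0 < Nat.card X := Nat.card_pos
  omega

end Pool.Agent.Helper94.DN
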