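import Pool.Agent.Helper94.ETC.DN.E9

set_option autoImplicit false

/-! # Value groups of large index in a subgroup of index four -/

namespace Pool.Agent.Helper94.DN

open Module Submodule Pool.Agent.H315R3.ETC Pool.Agent.Helper94.ETC
open Pool.Agent.Helper94.I2 (Sy Sy_anti Lk Ex Ix VS Aq mem_VS mem_Aq lk cod_two)
open Pool.Agent.K3h25.ET2 (par par_mem exists_par StmFano)

section
variable {V : Type} [AddCommGroup V] [Module (ZMod 2) V]
variable {A : V → Submodule (ZMod 2) (Dual (ZMod 2) V)}

/-- **counting** -/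
theorem count4 [Finite V] (hFano : StmFano) (hL : Lk A) (hV : Vq A) (hC : Cd A) (hO : Os A)
    {x y u z : V} (hx : 4 ≤ finrank (ZMod 2) (A x)) (hn : ¬ Ex A (span (ZMod 2) {x, y, u}) z)
    (H : Submodule (ZMod 2) V) (hH : 4 * Nat.card H ≤ Nat.card V) :
    ∃ v, 4 ≤ finrank (ZMod 2) (A v) ∧ v ∉ H := by
  classical
  by_contra hcon
  push Not at hcon
  set P := span (ZMod 2) {x, y, u} with hP
  have hP3 : 3 ≤ finrank (ZMod 2) P := by
    by_contra hlt
    exact hn (ex_small hL (by omega) z)
  have hP3' : finrank (ZMod 2) P ≤ 3 := by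
    refine (finrank_span_le_card _).trans ?_
    calc (({x, y, u} : Set V)).toFinset.card ≤ ({x, y, u} : Finset V).card := by
          apply Finset.card_le_card
          intro w hw
          simpa using hw
      _ ≤ 3 := Finset.card_le_three
  have hP4 : finrank (ZMod 2) (P ⊔ span (ZMod 2) {z} : Submodule (ZMod 2) V) ≤ 4 := by
    have h1 := Submodule.finrank_add_le_finrank_add_finrank P (span (ZMod 2) {z})
    have h2 : finrank (ZMod 2) (span (ZMod 2) {z}) ≤ 1 := (finrank_span_le_card _).trans (by simp)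
    omega
  have hcardV : 0 < Nat.card V := Nat.card_pos
  unfold Ex at hn
  push Not at hn
  obtain ⟨F₀, hF₀, hn⟩ := hn
  have hn₀ : ¬ ∃ k ∈ Sy A (P ⊔ span (ZMod 2) {z}), ∀ p ∈ P, k p = F₀ p := by
    rintro ⟨k, hk, h⟩
    obtain ⟨w, hw, h'⟩ := hn k hk
    exact h' (h w hw)
  by_cases hE : ∀ p ∈ P, ∀ q ∈ P, ∀ F ∈ Sy A (span (ZMod 2) {p, q}),
        ∃ k ∈ Sy A (P ⊔ span (ZMod 2) {z}), ∀ w ∈ span (ZMod 2) {p, q}, k w = F w
  · have h2 := count_four hFano hL hV hC hO hF₀ hP3 hn₀ hE
    have h3 : {v : V | 4 ≤ finrank (ZMod 2) (A v)}.ncard ≤ Nat.card H :=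
      Set.ncard_le_ncard (s := {v : V | 4 ≤ finrank (ZMod 2) (A v)}) (t := (H : Set V))
        (fun v hv => hcon v hv) (Set.toFinite _)
    omega
  · push Not at hE
    obtain ⟨p, hp, q, hq, F, hF, hnF⟩ := hE
    have hle : span (ZMod 2) {p, q} ≤ P := by
      rw [span_le]
      rintro w (rfl | hw)
      · exact hp
      · rw [Set.mem_singleton_iff.1 hw]; exact hq
    have h2 : finrank (ZMod 2) (span (ZMod 2) {p, q}) ≤ 2 := by
      refine (finrank_span_le_card _).trans ?_
      calc (({p, q} : Set V)).toFinset.card ≤ ({p, q} : Finset V).card := by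
            apply Finset.card_le_card
            intro w hw
            simpa using hw
        _ ≤ 2 := Finset.card_le_two
    have hnF' : ¬ ∃ k ∈ Sy A (P ⊔ span (ZMod 2) {z}), ∀ w ∈ span (ZMod 2) {p, q}, k w = F w := by
      rintro ⟨k, hk, h⟩
      obtain ⟨w, hw, h'⟩ := hnF k hk
      exact h' (h w hw)
    -- no element of index at most two
    have hI : ∀ a ∈ P, a ≠ 0 → a ∉ Ix A := fun a ha ha0 hIx =>
      hnF' (ext_four hL hP4 (hle.trans le_sup_left) h2 (mem_sup_left ha) ha0 hIx hF)
    have hT : ∀ a ∈ P, a ≠ 0 → ∀ b ∈ P, b ≠ 0 → b ≠ a → Z A a ⊔ Z A b ≠ ⊤ :=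
      fun a ha ha0 b hb hb0 hab => sup_all hL hP4 (hle.trans le_sup_left) h2 hF hnF'
        (mem_sup_left ha) ha0 (mem_sup_left hb) hb0 hab
    obtain ⟨W, h, hPW, hhP, hM⟩ := exists_max hF₀ (z := z) hn₀
    have hWc : 8 * Nat.card W ≤ Nat.card V := card_mul (n := 3) (hM.codim hC)
    have hxZ : finrank (ZMod 2) (Z A x) + 4 ≤ finrank (ZMod 2) V := by
      have h2 := Subspace.finrank_add_finrank_dualCoannihilator_eq (A x)
      have h3 : finrank (ZMod 2) (Z A x) = finrank (ZMod 2) (A x).dualCoannihilator := rfl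
      omega
    have hxm : x ∈ P := in1
    have hx0 : x ≠ 0 := by
      rintro rfl
      have h3 : span (ZMod 2) {(0 : V), y, u} = span (ZMod 2) {y, u} := by
        rw [span_insert_zero]
      have h4 : finrank (ZMod 2) (span (ZMod 2) {y, u}) ≤ 2 := by
        refine (finrank_span_le_card _).trans ?_
        calc (({y, u} : Set V)).toFinset.card ≤ ({y, u} : Finset V).card := by
              apply Finset.card_le_card
              intro w hw
              simpa using hw
          _ ≤ 2 := Finset.card_le_two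
      rw [hP, h3] at hP3
      omega
    obtain ⟨c1, c2⟩ := cov_u hO (P := P) (by omega) hI hT hxm hx0 (card_mul (n := 4) hxZ)
    have h3 : (Set.univ : Set V) ⊆ ((W : Set V) ∪ Cov A P) ∪ ((H : Set V) \ Cov A P) := by
      intro v _
      by_cases hv : v ∈ W
      · exact Or.inl (Or.inl hv)
      by_cases hv' : v ∈ Cov A P
      · exact Or.inl (Or.inr hv')
      right
      have h4 := hM.finrank_le hL hV hPW hv
      have h5 : P ⊓ (A v).dualCoannihilator = ⊥ := by
        rw [Submodule.eq_bot_iff]
        rintro w ⟨hw1, hw2⟩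
        by_contra hw0
        exact hv' ⟨w, hw1, hw0, (Z_comm hO).1 hw2⟩
      rw [h5, finrank_bot, zero_add] at h4
      exact ⟨hcon v (by omega), hv'⟩
    have h4 := Set.ncard_le_ncard h3 (Set.toFinite _)
    rw [Set.ncard_univ] at h4
    have h5 := Set.ncard_union_le ((W : Set V) ∪ Cov A P) ((H : Set V) \ Cov A P)
    have h6 := Set.ncard_union_add_ncard_inter (W : Set V) (Cov A P) (Set.toFinite _)
      (Set.toFinite _)
    have h7 : (W : Set V).ncard = Nat.card W := rfl
    have k1 := Set.ncard_inter_add_ncard_sdiff_eq_ncard (H : Set V) (Cov A P) (Set.toFinite _)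
    have k2 : (H : Set V).ncard = Nat.card H := rfl
    rcases c2 with ⟨a, ha, ha0, hl⟩ | c2
    · have key : ∀ W : Submodule (ZMod 2) V, Nat.card W ≤ 4 * ((W : Set V) ∩ Cov A P).ncard := by
        intro W
        have h8 : Nat.card (Z A a ⊓ W : Submodule (ZMod 2) V) ≤
            ((W : Set V) ∩ Cov A P).ncard :=
          Set.ncard_le_ncard (s := ((Z A a ⊓ W : Submodule (ZMod 2) V) : Set V))
            (t := (W : Set V) ∩ Cov A P) (fun v hv => ⟨hv.2, a, ha, ha0, hv.1⟩) (Set.toFinite _)
        have h9 : Nat.card W ≤ 4 * Nat.card (Z A a ⊓ W : Submodule (ZMod 2) V) := by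
          have key := card_sup (Z A a) W
          rw [← hl] at key
          have h0 : 0 < Nat.card (Z A a) := Nat.card_pos
          have h2 : Nat.card (Z A a) * (Nat.card W) ≤
              Nat.card (Z A a) * (4 * Nat.card (Z A a ⊓ W : Submodule (ZMod 2) V)) := by
            calc _ ≤ _ := key
              _ = _ := by ring
          exact Nat.le_of_mul_le_mul_left h2 h0
        omega
      have w1 := key W
      have w2 := key H
      omega
    · have h8 : 0 < ((W : Set V) ∩ Cov A P).ncard := by
        rw [Set.ncard_pos (Set.toFinite _)]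
        exact ⟨0, zero_mem _, x, hxm, hx0, zero_mem _⟩
      omega

end

/-- few value groups have index larger than four, or larger than eight, or the latter come from a
subgroup of index at least four -/
def Dn4 (S : QData) : Prop :=
  ∃ hS : IsQuat S, Finite S.G ∧ (8 * {a : S.G | 4 < (VG hS a).index}.ncard < 5 * Nat.card S.G ∨
    32 * {a : S.G | 8 < (VG hS a).index}.ncard < 7 * Nat.card S.G ∨
    ∃ H : Subgroup S.G, 4 ≤ H.index ∧ ∀ a : S.G, 8 < (VG hS a).index → a ∈ H)

theorem dn4_quo {S : QData} (h : Dn4 S) {u : S.G} (hQ : IsQuat (quo S u)) : Dn4 (quo S u) := by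
  obtain ⟨hS, hfin, hlt⟩ := h
  refine ⟨hQ, hfin, ?_⟩
  have h4 := ncard_quo hS hfin hQ 4
  have h8 := ncard_quo hS hfin hQ 8
  have hc : Nat.card (quo S u).G = Nat.card S.G := rfl
  rcases hlt with h | h | ⟨H, h, hH⟩
  · left; omega
  · right; left; omega
  · right; right
    refine ⟨H, h, fun (a : S.G) ha => hH a ?_⟩
    have hle : VG hS a ≤ @VG (quo S u) hQ a := fun x hx =>
      (quo_null hS).2 (nu_of_zero hS hx)
    have h1 := Subgroup.index_dvd_of_le hle
    have h0 : (VG hS a).index ≠ 0 := Subgroup.index_ne_zero_of_finite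
    have h2 := Nat.le_of_dvd (Nat.pos_of_ne_zero h0) h1
    exact lt_of_lt_of_le ha h2

theorem card_of_index {G : Type} [Group G] [Finite G] (H : Subgroup G) (h : 4 ≤ H.index) :
    4 * Nat.card H ≤ Nat.card G := by
  rw [← H.card_mul_index, mul_comm 4]
  exact Nat.mul_le_mul_left _ h

theorem elem_of_dn4 : ∀ (n : ℕ) (S : QData), Dn4 S →
    {a : S.G | ∃ y, S.q a y ≠ S.zero}.ncard ≤ n → Elem S := by
  intro n
  induction n using Nat.strong_induction_on with
  | _ n ih =>
    intro S hD hn
    obtain ⟨hS, hfin, hlt⟩ := id hD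
    by_cases hg : ∃ u : S.G, (∃ y, S.q u y ≠ S.zero) ∧ IsQuat (quo S u)
    · obtain ⟨u, hu, hQ⟩ := hg
      have hlt' : {a : (quo S u).G | ∃ y, (quo S u).q a y ≠ (quo S u).zero}.ncard <
          {a : S.G | ∃ y, S.q a y ≠ S.zero}.ncard := by
        refine Set.ncard_lt_ncard (t := {a : S.G | ∃ y, S.q a y ≠ S.zero})
          ⟨fun a ha => ?_, fun hle => ?_⟩ (Set.toFinite _)
        · obtain ⟨y, hy⟩ := ha
          exact ⟨y, fun h0 => hy ((quo_null hS).2 (nu_of_zero hS h0))⟩
        · obtain ⟨y, hy⟩ := hle hu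
          exact hy ((quo_null hS).2 ⟨y, rfl⟩)
      have hE := ih _ (lt_of_lt_of_le hlt' hn) (quo S u) (dn4_quo hD hQ) le_rfl
      obtain ⟨B, _, β, hB, hm, hq⟩ := add_of_quo hS u hQ hE
      refine Pool.Agent.Results.MP_d26ff6_al.LargeIndicesDense.result.{0, 0}.1 S hS hfin B β hB hm hq
        ?_
      have e : ∀ n, (Pool.Agent.Results.MP_d26ff6_al.LargeIndicesDense.E S hS n).ncard =
          {a : S.G | n < (VG hS a).index}.ncard := fun _ => rfl
      rw [e, e]
      rcases hlt with h | h | ⟨H, h, hH⟩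
      · left; exact h
      · right; omega
      · right
        have h1 := card_of_index H h
        have h2 : {a : S.G | 8 < (VG hS a).index}.ncard ≤ Nat.card H :=
          Set.ncard_le_ncard (s := {a : S.G | 8 < (VG hS a).index}) (t := (H : Set S.G))
            (fun a ha => hH a ha) (Set.toFinite _)
        have h3 : 0 < Nat.card S.G := Nat.card_pos
        omega
    · push Not at hg
      by_contra hne
      let _ : Module (ZMod 2) (Additive S.G) := AddCommGroup.zmodModule (n := 2) (by
        intro x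
        rw [two_smul]
        exact hS.exp2 x.toMul)
      have hfin' : Finite (Additive S.G) := hfin
      -- an element of index at least sixteen
      obtain ⟨v, hv⟩ : ∃ v : Additive S.G, 4 ≤ finrank (ZMod 2) (Aq hS v) := by
        by_contra hcon
        push Not at hcon
        apply hne
        refine elem_of_quo hS hfin fun u hu => absurd ?_ (hg u hu)
        exact quo_isQuat hS fun a e c =>
          no_fail Pool.Agent.K3h25.ET2.stmFano (lk hS) (vq hS)
            (fun W hne hW => cod_two hS hne hW) (os hS)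
            (fun v => by have := hcon v; omega) _ _ _ _
      -- its quotient gives a symbol which does not extend
      obtain ⟨a, e, c, hn'⟩ : ∃ a e c, ¬ Ex (Aq hS) (span (ZMod 2) {v, a, e}) c := by
        by_contra hcon
        push Not at hcon
        refine hg v.toMul ?_ (quo_isQuat hS hcon)
        by_contra hcon'
        push Not at hcon'
        have h0 : Aq hS v = ⊥ := by
          rw [eq_bot_iff]
          intro f hf
          rw [mem_bot]
          exact LinearMap.ext fun x => (mem_Aq hS).1 hf x (hcon' x.toMul)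
        rw [h0, finrank_bot] at hv
        omega
      rcases hlt with h | h | ⟨H, h, hH⟩
      · obtain ⟨h1, h2⟩ := count3 Pool.Agent.K3h25.ET2.stmFano (lk hS) (vq hS)
          (fun W hne hW => cod_two hS hne hW) (os hS) hv hn'
        have hsub : {v : Additive S.G | 3 ≤ finrank (ZMod 2) (Aq hS v)}.ncard ≤
            {a : S.G | 4 < (VG hS a).index}.ncard :=
          Set.ncard_le_ncard (s := {v : Additive S.G | 3 ≤ finrank (ZMod 2) (Aq hS v)})
            (t := {a : S.G | 4 < (VG hS a).index}) (fun v hv => index_gt hS hv) (Set.toFinite _)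
        have hcard : Nat.card (Additive S.G) = Nat.card S.G := rfl
        omega
      · obtain ⟨h1, h2⟩ := count3 Pool.Agent.K3h25.ET2.stmFano (lk hS) (vq hS)
          (fun W hne hW => cod_two hS hne hW) (os hS) hv hn'
        have hsub' : {v : Additive S.G | 4 ≤ finrank (ZMod 2) (Aq hS v)}.ncard ≤
            {a : S.G | 8 < (VG hS a).index}.ncard :=
          Set.ncard_le_ncard (s := {v : Additive S.G | 4 ≤ finrank (ZMod 2) (Aq hS v)})
            (t := {a : S.G | 8 < (VG hS a).index}) (fun v hv => index_gt' hS hv) (Set.toFinite _)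
        have hcard : Nat.card (Additive S.G) = Nat.card S.G := rfl
        omega
      · let K : Submodule (ZMod 2) (Additive S.G) :=
          AddSubgroup.toZModSubmodule 2 (Subgroup.toAddSubgroup H)
        have hK : ∀ a : Additive S.G, a ∈ K ↔ a.toMul ∈ H := fun a => Iff.rfl
        have hcK : Nat.card K = Nat.card H := rfl
        obtain ⟨w, h1, h2⟩ := count4 Pool.Agent.K3h25.ET2.stmFano (lk hS) (vq hS)
          (fun W hne hW => cod_two hS hne hW) (os hS) hv hn' K (by
            rw [hcK]; exact card_of_index H h)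
        exact h2 ((hK w).2 (hH _ (index_gt' hS h1)))

/-- **few value groups of large index** -/
theorem elem_of_dense4 (S : QData) (hS : IsQuat S) (hfin : Finite S.G)
    (h : 8 * {a : S.G | 4 < (VG hS a).index}.ncard < 5 * Nat.card S.G ∨
      32 * {a : S.G | 8 < (VG hS a).index}.ncard < 7 * Nat.card S.G ∨
      ∃ H : Subgroup S.G, 4 ≤ H.index ∧ ∀ a : S.G, 8 < (VG hS a).index → a ∈ H) : Elem S :=
  elem_of_dn4 _ S ⟨hS, hfin, h⟩ le_rfl

end Pool.Agent.Helper94.DN
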