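import Pool.Agent.Helper94.ETC.DN.E1

set_option autoImplicit false

/-! # The vectors orthogonal to some nonzero element of a plane -/

namespace Pool.Agent.Helper94.DN

open Module Submodule Pool.Agent.Helper94.I2
open Pool.Agent.K3h25.ET2 (par par_mem exists_par StmFano)

variable {V : Type} [AddCommGroup V] [Module (ZMod 2) V]
variable {A : V → Submodule (ZMod 2) (Dual (ZMod 2) V)}

/-- the vectors orthogonal to some nonzero element of `P` -/
def Cov (A : V → Submodule (ZMod 2) (Dual (ZMod 2) V)) (P : Submodule (ZMod 2) V) : Set V :=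
  {v | ∃ x ∈ P, x ≠ 0 ∧ v ∈ Z A x}

theorem Z_add (hO : Os A) {a b v : V} (h1 : v ∈ Z A a) (h2 : v ∈ Z A b) : v ∈ Z A (a + b) :=
  (Z_comm hO).2 (add_mem ((Z_comm hO).1 h1) ((Z_comm hO).1 h2))

theorem Z_inf_add (hO : Os A) (a b : V) : Z A a ⊓ Z A (a + b) = Z A a ⊓ Z A b := by
  ext v
  constructor
  · rintro ⟨h1, h2⟩
    refine ⟨h1, ?_⟩
    have h3 := Z_add hO h1 h2
    rwa [← add_assoc, vadd, zero_add] at h3
  · rintro ⟨h1, h2⟩
    exact ⟨h1, Z_add hO h1 h2⟩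

theorem enum {P : Submodule (ZMod 2) V} {b x y : V} (hP : P ≤ span (ZMod 2) {b, x, y}) {v : V}
    (hv : v ∈ P) : v = 0 ∨ v = b ∨ v = x ∨ v = b + x ∨ v = y ∨ v = b + y ∨ v = x + y ∨
      v = b + (x + y) := by
  obtain ⟨α, β, γ, rfl⟩ := mem_span_triple.1 (hP hv)
  rcases z01 α with rfl | rfl <;> rcases z01 β with rfl | rfl <;> rcases z01 γ with rfl | rfl <;>
    simp [add_assoc]

theorem sdiff_card [Finite V] (X Y : Submodule (ZMod 2) V) :
    ((X : Set V) \ (Y : Set V)).ncard + Nat.card (Y ⊓ X : Submodule (ZMod 2) V) = Nat.card X := by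
  have h1 := Set.ncard_sdiff_add_ncard_of_subset (s := ((Y ⊓ X : Submodule (ZMod 2) V) : Set V))
    (t := (X : Set V)) (fun v hv => hv.2) (Set.toFinite _)
  have h2 : ((X : Set V) \ ((Y ⊓ X : Submodule (ZMod 2) V) : Set V)) = (X : Set V) \ (Y : Set V) := by
    ext v
    constructor
    · rintro ⟨h1, h2⟩
      exact ⟨h1, fun h3 => h2 ⟨h3, h1⟩⟩
    · rintro ⟨h1, h2⟩
      exact ⟨h1, fun h3 => h2 h3.1⟩
  rw [h2] at h1
  exact h1

theorem union3 [Finite V] {K X Y T : Set V} (h1 : K ⊆ X) (h2 : K ⊆ Y) (h3 : K ⊆ T) :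
    (X ∪ Y ∪ T).ncard + 2 * K.ncard ≤ X.ncard + Y.ncard + T.ncard := by
  have e : X ∪ Y ∪ T ⊆ K ∪ (X \ K) ∪ (Y \ K) ∪ (T \ K) := by
    intro v hv
    by_cases hK : v ∈ K
    · exact Or.inl (Or.inl (Or.inl hK))
    · rcases hv with (hv | hv) | hv
      · exact Or.inl (Or.inl (Or.inr ⟨hv, hK⟩))
      · exact Or.inl (Or.inr ⟨hv, hK⟩)
      · exact Or.inr ⟨hv, hK⟩
  have k0 := Set.ncard_le_ncard e (Set.toFinite _)
  have k1 := Set.ncard_union_le (K ∪ (X \ K) ∪ (Y \ K)) (T \ K)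
  have k2 := Set.ncard_union_le (K ∪ (X \ K)) (Y \ K)
  have k3 := Set.ncard_union_le K (X \ K)
  have c1 := Set.ncard_sdiff_add_ncard_of_subset h1 (Set.toFinite _)
  have c2 := Set.ncard_sdiff_add_ncard_of_subset h2 (Set.toFinite _)
  have c3 := Set.ncard_sdiff_add_ncard_of_subset h3 (Set.toFinite _)
  omega

/-- **the size of the union** -/
theorem cov_le [Finite V] (hO : Os A) {P : Submodule (ZMod 2) V} (b x y : V)
    (hP : P ≤ span (ZMod 2) {b, x, y}) :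
    (Cov A P).ncard + 2 * (Nat.card (Z A b ⊓ Z A x : Submodule (ZMod 2) V) +
        Nat.card (Z A b ⊓ Z A y : Submodule (ZMod 2) V) +
        Nat.card (Z A b ⊓ Z A (x + y) : Submodule (ZMod 2) V)) +
      2 * (((Z A x ⊓ Z A y : Submodule (ZMod 2) V) : Set V) \ (Z A b : Set V)).ncard ≤
    Nat.card (Z A b) + Nat.card (Z A x) + Nat.card (Z A (b + x)) + Nat.card (Z A y) +
      Nat.card (Z A (b + y)) + Nat.card (Z A (x + y)) + Nat.card (Z A (b + (x + y))) := by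
  set B : Set V := (Z A b : Set V) with hB
  have hsub : Cov A P ⊆ B ∪ (((Z A x : Set V) \ B) ∪ ((Z A y : Set V) \ B) ∪
      ((Z A (x + y) : Set V) \ B)) ∪ ((Z A (b + x) : Set V) \ B) ∪ ((Z A (b + y) : Set V) \ B) ∪
      ((Z A (b + (x + y)) : Set V) \ B) := by
    rintro v ⟨t, ht, ht0, hv⟩
    by_cases hvB : v ∈ B
    · exact Or.inl (Or.inl (Or.inl (Or.inl hvB)))
    rcases enum hP ht with rfl | rfl | rfl | rfl | rfl | rfl | rfl | rfl
    · exact absurd rfl ht0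
    · exact absurd hv hvB
    · exact Or.inl (Or.inl (Or.inl (Or.inr (Or.inl (Or.inl ⟨hv, hvB⟩)))))
    · exact Or.inl (Or.inl (Or.inr ⟨hv, hvB⟩))
    · exact Or.inl (Or.inl (Or.inl (Or.inr (Or.inl (Or.inr ⟨hv, hvB⟩)))))
    · exact Or.inl (Or.inr ⟨hv, hvB⟩)
    · exact Or.inl (Or.inl (Or.inl (Or.inr (Or.inr ⟨hv, hvB⟩))))
    · exact Or.inr ⟨hv, hvB⟩
  have k0 := Set.ncard_le_ncard hsub (Set.toFinite _)
  have k1 := Set.ncard_union_le (B ∪ (((Z A x : Set V) \ B) ∪ ((Z A y : Set V) \ B) ∪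
      ((Z A (x + y) : Set V) \ B)) ∪ ((Z A (b + x) : Set V) \ B) ∪ ((Z A (b + y) : Set V) \ B))
      ((Z A (b + (x + y)) : Set V) \ B)
  have k2 := Set.ncard_union_le (B ∪ (((Z A x : Set V) \ B) ∪ ((Z A y : Set V) \ B) ∪
      ((Z A (x + y) : Set V) \ B)) ∪ ((Z A (b + x) : Set V) \ B)) ((Z A (b + y) : Set V) \ B)
  have k3 := Set.ncard_union_le (B ∪ (((Z A x : Set V) \ B) ∪ ((Z A y : Set V) \ B) ∪
      ((Z A (x + y) : Set V) \ B))) ((Z A (b + x) : Set V) \ B)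
  have k4 := Set.ncard_union_le B (((Z A x : Set V) \ B) ∪ ((Z A y : Set V) \ B) ∪
      ((Z A (x + y) : Set V) \ B))
  have k5 := union3 (K := ((Z A x ⊓ Z A y : Submodule (ZMod 2) V) : Set V) \ B)
    (X := (Z A x : Set V) \ B) (Y := (Z A y : Set V) \ B) (T := (Z A (x + y) : Set V) \ B)
    (fun v hv => ⟨hv.1.1, hv.2⟩) (fun v hv => ⟨hv.1.2, hv.2⟩)
    (fun v hv => ⟨Z_add hO hv.1.1 hv.1.2, hv.2⟩)
  have d0 : B.ncard = Nat.card (Z A b) := rfl
  have c1 := sdiff_card (Z A x) (Z A b)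
  have c2 := sdiff_card (Z A y) (Z A b)
  have c3 := sdiff_card (Z A (x + y)) (Z A b)
  have c4 := sdiff_card (Z A (b + x)) (Z A b)
  have c5 := sdiff_card (Z A (b + y)) (Z A b)
  have c6 := sdiff_card (Z A (b + (x + y))) (Z A b)
  rw [Z_inf_add hO] at c4 c5 c6
  rw [← hB] at c1 c2 c3 c4 c5 c6
  omega

end Pool.Agent.Helper94.DN
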