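import Pool.Agent.Helper94.ETC.DN.E2

set_option autoImplicit false

/-! # Symbols on lines which do not extend, if all indices are at most eight -/

namespace Pool.Agent.Helper94.DN

open Module Submodule Pool.Agent.Helper94.I2
open Pool.Agent.K3h25.ET2 (par par_mem exists_par StmFano)

variable {V : Type} [AddCommGroup V] [Module (ZMod 2) V]
variable {A : V → Submodule (ZMod 2) (Dual (ZMod 2) V)}

/-- a symbol on the line `L₀` which does not extend to `P` -/
structure Loc (A : V → Submodule (ZMod 2) (Dual (ZMod 2) V)) (P L₀ : Submodule (ZMod 2) V)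
    (F : V →ₗ[ZMod 2] Dual (ZMod 2) V) : Prop where
  hL : Lk A
  hV : Vq A
  hC : Cd A
  hO : Os A
  h3 : ∀ v, finrank (ZMod 2) (A v) ≤ 3
  hP : finrank (ZMod 2) P = 4
  hLP : L₀ ≤ P
  hL2 : finrank (ZMod 2) L₀ = 2
  hF : F ∈ Sy A L₀
  hn : ¬ ∃ k ∈ Sy A P, ∀ x ∈ L₀, k x = F x

theorem add_mem_of_notMem {U : Submodule (ZMod 2) V} {z x : V} (hx : x ∈ U ⊔ span (ZMod 2) {z})
    (hxU : x ∉ U) : x + z ∈ U := by
  obtain ⟨w, hw, y, hy, rfl⟩ := mem_sup.1 hx
  obtain ⟨c, rfl⟩ := mem_span_singleton.1 hy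
  rcases z01 c with rfl | rfl
  · rw [zero_smul, add_zero] at hxU
    exact absurd hw hxU
  · rw [one_smul, add_assoc, vadd, add_zero]
    exact hw

theorem finrank_sup_one [Finite V] {U : Submodule (ZMod 2) V} {z : V} (hz : z ∉ U) :
    finrank (ZMod 2) (U ⊔ span (ZMod 2) {z} : Submodule (ZMod 2) V) = finrank (ZMod 2) U + 1 := by
  have h1 := Submodule.finrank_add_le_finrank_add_finrank U (span (ZMod 2) {z})
  have h2 : finrank (ZMod 2) (span (ZMod 2) {z}) ≤ 1 := (finrank_span_le_card _).trans (by simp)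
  have h3 : U < U ⊔ span (ZMod 2) {z} := by
    refine lt_of_le_of_ne le_sup_left fun h => hz ?_
    rw [h]
    exact mem_sup_right (mem_span_singleton_self z)
  have h4 := Submodule.finrank_lt_finrank_of_lt h3
  omega

theorem exists_pair_ne [Finite V] {U : Submodule (ZMod 2) V} (hU : 2 ≤ finrank (ZMod 2) U) {p : V}
    (hp : p ≠ 0) : ∃ q ∈ U, q ≠ 0 ∧ q ≠ p := by
  by_contra hcon
  push Not at hcon
  have h1 : U ≤ span (ZMod 2) {p} := by
    intro x hx
    by_cases hx0 : x = 0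
    · rw [hx0]; exact zero_mem _
    · rw [hcon x hx hx0]; exact mem_span_singleton_self p
  have h2 := Submodule.finrank_mono h1
  have h3 : finrank (ZMod 2) (span (ZMod 2) {p}) = 1 := finrank_span_singleton hp
  omega

theorem le_span_pair [Finite V] {U : Submodule (ZMod 2) V} (hU : finrank (ZMod 2) U = 2) {p q : V}
    (hp : p ∈ U) (hq : q ∈ U) (hp0 : p ≠ 0) (hq0 : q ≠ 0) (hpq : q ≠ p) :
    U ≤ span (ZMod 2) {p, q} := by
  have hle : span (ZMod 2) {p, q} ≤ U := by
    rw [span_le]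
    rintro y (rfl | hy)
    · exact hp
    · rw [Set.mem_singleton_iff.1 hy]; exact hq
  refine (Submodule.eq_of_le_of_finrank_le hle ?_).ge
  have h3 : span (ZMod 2) {p} < span (ZMod 2) {p, q} := by
    refine lt_of_le_of_ne (span_mono (by simp)) fun h => ?_
    have h4 : q ∈ span (ZMod 2) {p} := by
      rw [h]
      exact subset_span (by simp)
    obtain ⟨c, hc⟩ := mem_span_singleton.1 h4
    rcases z01 c with rfl | rfl
    · exact hq0 (by rw [← hc, zero_smul])
    · exact hpq (by rw [← hc, one_smul])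
  have h4 := Submodule.finrank_lt_finrank_of_lt h3
  have h5 : finrank (ZMod 2) (span (ZMod 2) {p}) = 1 := finrank_span_singleton hp0
  omega

variable {P L₀ : Submodule (ZMod 2) V} {F : V →ₗ[ZMod 2] Dual (ZMod 2) V}

theorem Loc.ix [Finite V] (h : Loc A P L₀ F) {a : V} (ha : a ∈ P) (ha0 : a ≠ 0) : a ∉ Ix A :=
  fun hIx => h.hn (ext_four h.hL h.hP.le h.hLP h.hL2.le ha ha0 hIx h.hF)

theorem Loc.zz [Finite V] (h : Loc A P L₀ F) {a : V} (ha : a ∈ P) (ha0 : a ≠ 0) :
    4 * Nat.card (Z A a) = Nat.card V ∨ 8 * Nat.card (Z A a) = Nat.card V := by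
  have h1 := finrank_Z (h.ix ha ha0)
  have h2 := Subspace.finrank_add_finrank_dualCoannihilator_eq (A a)
  have h3 : finrank (ZMod 2) (Z A a) = finrank (ZMod 2) (A a).dualCoannihilator := rfl
  have h4 := h.h3 a
  rcases Nat.lt_or_ge (finrank (ZMod 2) (A a)) 3 with h5 | h5
  · left
    exact le_antisymm (card_mul (n := 2) (by omega)) (card_mul' (n := 2) (by omega))
  · right
    exact le_antisymm (card_mul (n := 3) (by omega)) (card_mul' (n := 3) (by omega))

theorem Loc.two_aux [Finite V] (h : Loc A P L₀ F) {a b : V} (ha : a ∈ P) (ha0 : a ≠ 0)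
    (hb : b ∈ P) (hb' : b ∉ L₀) :
    2 * (Nat.card (Z A a) * Nat.card (Z A b)) ≤
      Nat.card V * Nat.card (Z A a ⊓ Z A b : Submodule (ZMod 2) V) := by
  apply card_sup'
  apply sup_ne_top
  intro h0
  have e : a + (a + b) = b := by rw [← add_assoc, vadd, zero_add]
  apply h.hn
  by_cases haL : a ∈ L₀
  · obtain ⟨l, hl1, -⟩ := Submodule.exists_le_ker_of_notMem (p := (⊥ : Submodule (ZMod 2) V))
      (v := a) (by rw [mem_bot]; exact ha0)
    have l1 : l a = 1 := zne hl1
    refine ext_disj h.hL h.hP.le h.hLP h.hL2.le (a := a) (w := a + b) (U := L₀ ⊓ LinearMap.ker l) ha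
      (add_mem ha hb) inf_le_left ?_ (fun x hx => ?_) (by rw [e]; exact h0) h.hF
    · intro hm
      have h1 := add_mem_of_notMem hm (fun h2 => hl1 h2.2)
      rw [e] at h1
      exact hb' h1.1
    · rcases z01 (l x) with h2 | h2
      · exact Or.inl ⟨hx, h2⟩
      · exact Or.inr ⟨haL, add_mem hx haL, by show l (x + a) = 0; rw [map_add, h2, l1, vadd]⟩
  · refine ext_disj h.hL h.hP.le h.hLP h.hL2.le (a := a) (w := a + b) (U := L₀) ha (add_mem ha hb)
      le_rfl ?_ (fun x hx => Or.inl hx) (by rw [e]; exact h0) h.hF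
    intro hm
    have h1 := add_mem_of_notMem hm haL
    rw [e] at h1
    exact hb' h1

/-- two elements one of which is light -/
theorem Loc.half_le [Finite V] (h : Loc A P L₀ F) {a b : V} (ha : a ∈ P) (ha0 : a ≠ 0) (hb : b ∈ P)
    (hb0 : b ≠ 0) (hab : b ≠ a) (hL : ¬ (a ∈ L₀ ∧ b ∈ L₀))
    (hl : 4 * Nat.card (Z A a) = Nat.card V) :
    Nat.card (Z A b) ≤ 2 * Nat.card (Z A a ⊓ Z A b : Submodule (ZMod 2) V) := by
  have key : 2 * (Nat.card (Z A a) * Nat.card (Z A b)) ≤
      Nat.card V * Nat.card (Z A a ⊓ Z A b : Submodule (ZMod 2) V) := by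
    by_cases hbL : b ∈ L₀
    · have h1 := h.two_aux hb hb0 ha (fun h2 => hL ⟨h2, hbL⟩)
      rwa [mul_comm (Nat.card (Z A b)), inf_comm] at h1
    · exact h.two_aux ha ha0 hb hbL
  rw [← hl] at key
  have h0 : 0 < Nat.card (Z A a) := Nat.card_pos
  have h2 : Nat.card (Z A a) * (2 * Nat.card (Z A b)) ≤
      Nat.card (Z A a) * (4 * Nat.card (Z A a ⊓ Z A b : Submodule (ZMod 2) V)) := by
    calc _ = 2 * (Nat.card (Z A a) * Nat.card (Z A b)) := by ring
      _ ≤ _ := key
      _ = _ := by ring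
  have h3 := Nat.le_of_mul_le_mul_left h2 h0
  omega

theorem quarter_le [Finite V] {a b : V} (hl : 4 * Nat.card (Z A a) = Nat.card V) :
    Nat.card (Z A b) ≤ 4 * Nat.card (Z A a ⊓ Z A b : Submodule (ZMod 2) V) := by
  have key := card_sup (Z A a) (Z A b)
  rw [← hl] at key
  have h0 : 0 < Nat.card (Z A a) := Nat.card_pos
  have h2 : Nat.card (Z A a) * (Nat.card (Z A b)) ≤
      Nat.card (Z A a) * (4 * Nat.card (Z A a ⊓ Z A b : Submodule (ZMod 2) V)) := by
    calc _ ≤ _ := key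
      _ = _ := by ring
  exact Nat.le_of_mul_le_mul_left h2 h0

theorem Loc.plane [Finite V] (h : Loc A P L₀ F) {c : V} (hc : c ∈ P) (hcL : c ∉ L₀) :
    7 * Nat.card V < 8 * (Cov A (L₀ ⊔ span (ZMod 2) {c})).ncard := by
  set P' := L₀ ⊔ span (ZMod 2) {c} with hP'
  have hle : P' ≤ P := sup_le h.hLP (span_le_of_mem hc)
  have h3 : finrank (ZMod 2) P' = 3 := by rw [hP', finrank_sup_one hcL, h.hL2]
  obtain ⟨F', hF', e'⟩ := ext_three h.hL (P := P') h3.le 3 L₀ le_sup_left (by omega) F h.hF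
  have hlt : P' < P := lt_of_le_of_ne hle fun e => by
    have := h.hP
    rw [← e] at this
    omega
  obtain ⟨z, hz, hzP⟩ := SetLike.exists_of_lt hlt
  have hPz : P ≤ P' ⊔ span (ZMod 2) {z} := by
    refine (Submodule.eq_of_le_of_finrank_le (sup_le hle (span_le_of_mem hz)) ?_).ge
    rw [finrank_sup_one hzP, h3, h.hP]
  obtain ⟨W, G, hPW, hGP, hM⟩ := exists_max hF' (z := z) (by
    rintro ⟨k, hk, hk'⟩
    exact h.hn ⟨k, Sy_anti hPz hk, fun x hx => by rw [hk' x (mem_sup_left hx), e' x hx]⟩)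
  have hWc : 8 * Nat.card W ≤ Nat.card V := card_mul (n := 3) (hM.codim h.hC)
  have h4 : (Set.univ : Set V) ⊆ (W : Set V) ∪ Cov A P' := by
    intro v _
    by_cases hv : v ∈ W
    · exact Or.inl hv
    right
    have h5 := hM.finrank_le h.hL h.hV hPW hv
    have h6 := h.h3 v
    have h7 : P' ⊓ (A v).dualCoannihilator ≠ ⊥ := by
      intro h8
      rw [h8, finrank_bot] at h5
      omega
    obtain ⟨x, hx, hx0⟩ := Submodule.exists_mem_ne_zero_of_ne_bot h7
    exact ⟨x, hx.1, hx0, (Z_comm h.hO).1 hx.2⟩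
  have h5 := Set.ncard_le_ncard h4 (Set.toFinite _)
  rw [Set.ncard_univ] at h5
  have h6 := Set.ncard_union_add_ncard_inter (W : Set V) (Cov A P') (Set.toFinite _)
    (Set.toFinite _)
  have h7 : (W : Set V).ncard = Nat.card W := rfl
  have h8 : 0 < ((W : Set V) ∩ Cov A P').ncard := by
    rw [Set.ncard_pos (Set.toFinite _)]
    exact ⟨0, zero_mem _, c, mem_sup_right (mem_span_singleton_self c),
      fun h0 => hcL (by rw [h0]; exact zero_mem _), zero_mem _⟩
  omega

end Pool.Agent.Helper94.DN
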