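import Pool.Agent.Helper94.ETC.DN.E3

set_option autoImplicit false

/-! # The elements of a plane which contains the line -/

namespace Pool.Agent.Helper94.DN

open Module Submodule Pool.Agent.Helper94.I2
open Pool.Agent.K3h25.ET2 (par par_mem exists_par StmFano)

variable {V : Type} [AddCommGroup V] [Module (ZMod 2) V]
variable {A : V → Submodule (ZMod 2) (Dual (ZMod 2) V)}
variable {P L₀ : Submodule (ZMod 2) V} {F : V →ₗ[ZMod 2] Dual (ZMod 2) V}

theorem in1 {a b c : V} : a ∈ span (ZMod 2) {a, b, c} := subset_span (by simp)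
theorem in2 {a b c : V} : b ∈ span (ZMod 2) {a, b, c} := subset_span (by simp)
theorem in3 {a b c : V} : c ∈ span (ZMod 2) {a, b, c} := subset_span (by simp)

theorem le_span {p q c x y z : V} (hL : L₀ ≤ span (ZMod 2) {p, q})
    (h1 : p ∈ span (ZMod 2) {x, y, z}) (h2 : q ∈ span (ZMod 2) {x, y, z})
    (h3 : c ∈ span (ZMod 2) {x, y, z}) : L₀ ⊔ span (ZMod 2) {c} ≤ span (ZMod 2) {x, y, z} := by
  refine sup_le (hL.trans ?_) (span_le_of_mem h3)
  rw [span_le]
  rintro w (rfl | hw)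
  · exact h1
  · rw [Set.mem_singleton_iff.1 hw]; exact h2

/-- a basis of the line -/
structure Bas (L₀ : Submodule (ZMod 2) V) (p q : V) : Prop where
  hp : p ∈ L₀
  hq : q ∈ L₀
  hp0 : p ≠ 0
  hq0 : q ≠ 0
  ne : q ≠ p
  le : L₀ ≤ span (ZMod 2) {p, q}

theorem Loc.bas [Finite V] (h : Loc A P L₀ F) {p : V} (hp : p ∈ L₀) (hp0 : p ≠ 0) :
    ∃ q, Bas L₀ p q := by
  obtain ⟨q, hq, hq0, hpq⟩ := exists_pair_ne h.hL2.ge hp0
  exact ⟨q, hp, hq, hp0, hq0, hpq, le_span_pair h.hL2 hp hq hp0 hq0 hpq⟩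

theorem Loc.exists_bas [Finite V] (h : Loc A P L₀ F) : ∃ p q, Bas L₀ p q := by
  have h0 : L₀ ≠ ⊥ := by
    intro h0
    have := h.hL2
    rw [h0, finrank_bot] at this
    omega
  obtain ⟨p, hp, hp0⟩ := Submodule.exists_mem_ne_zero_of_ne_bot h0
  obtain ⟨q, hq⟩ := h.bas hp hp0
  exact ⟨p, q, hq⟩

theorem Bas.add0 {p q : V} (hb : Bas L₀ p q) : p + q ≠ 0 := fun h0 => hb.ne (aez.1 h0).symm

theorem Bas.add {p q : V} (hb : Bas L₀ p q) : p + q ∈ L₀ := add_mem hb.hp hb.hq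

theorem nadd {p c : V} (hp : p ∈ L₀) (hc : c ∉ L₀) : p + c ∉ L₀ := fun h1 => hc (by
  have h2 := add_mem hp h1
  rwa [← add_assoc, vadd, zero_add] at h2)

theorem ne0 {c : V} (hc : c ∉ L₀) : c ≠ 0 := fun h0 => hc (by rw [h0]; exact zero_mem _)

theorem add_ne {p c : V} (hp0 : p ≠ 0) : p + c ≠ c := by
  intro h0
  exact hp0 (by simpa using h0)

theorem add_ne' {p c : V} (hp0 : p ≠ 0) : c + p ≠ c := by
  intro h0
  exact hp0 (by simpa using h0)

/-- Step A -/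
theorem Loc.lightA [Finite V] (h : Loc A P L₀ F) {c : V} (hc : c ∈ P) (hcL : c ∉ L₀) :
    ∃ a ∈ L₀ ⊔ span (ZMod 2) {c}, a ∉ L₀ ∧ 4 * Nat.card (Z A a) = Nat.card V := by
  by_contra hcon
  push Not at hcon
  have hv : ∀ a ∈ L₀ ⊔ span (ZMod 2) {c}, a ∉ L₀ → 8 * Nat.card (Z A a) = Nat.card V := by
    intro a ha haL
    have haP : a ∈ P := sup_le h.hLP (span_le_of_mem hc) ha
    exact (h.zz haP (ne0 haL)).resolve_left (hcon a ha haL)
  have hcm : c ∈ L₀ ⊔ span (ZMod 2) {c} := mem_sup_right (mem_span_singleton_self c)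
  have hpl := h.plane hc hcL
  by_cases hlt : ∃ p ∈ L₀, p ≠ 0 ∧ 4 * Nat.card (Z A p) = Nat.card V
  · obtain ⟨p, hp, hp0, hpl'⟩ := hlt
    obtain ⟨q, hb⟩ := h.bas hp hp0
    have h1 := cov_le h.hO p q c (P := L₀ ⊔ span (ZMod 2) {c}) (le_span hb.le in1 in2 in3)
    have z1 := h.zz (h.hLP hb.hq) hb.hq0
    have z2 := h.zz (h.hLP hb.add) hb.add0
    have z3 := hv c hcm hcL
    have z4 := hv (p + c) (add_mem (mem_sup_left hp) hcm) (nadd hp hcL)
    have z5 := hv (q + c) (add_mem (mem_sup_left hb.hq) hcm) (nadd hb.hq hcL)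
    have z6 := hv (p + (q + c)) (add_mem (mem_sup_left hp) (add_mem (mem_sup_left hb.hq) hcm))
      (nadd hp (nadd hb.hq hcL))
    have i1 := quarter_le (A := A) (b := q) hpl'
    have i2 := quarter_le (A := A) (b := p + q) hpl'
    rw [Z_inf_add h.hO] at i2
    have i3 := h.half_le (h.hLP hp) hp0 hc (ne0 hcL) (fun e => hcL (e ▸ hp)) (fun h2 => hcL h2.2)
      hpl'
    have i4 := h.half_le (h.hLP hp) hp0 (add_mem (h.hLP hb.hq) hc) (ne0 (nadd hb.hq hcL))
      (fun e => nadd hb.hq hcL (e ▸ hp)) (fun h2 => nadd hb.hq hcL h2.2) hpl'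
    omega
  · push Not at hlt
    have hv' : ∀ a ∈ L₀, a ≠ 0 → 8 * Nat.card (Z A a) = Nat.card V := fun a ha ha0 =>
      (h.zz (h.hLP ha) ha0).resolve_left (hlt a ha ha0)
    obtain ⟨p, q, hb⟩ := h.exists_bas
    have h1 := cov_le h.hO p q c (P := L₀ ⊔ span (ZMod 2) {c}) (le_span hb.le in1 in2 in3)
    have z0 := hv' p hb.hp hb.hp0
    have z1 := hv' q hb.hq hb.hq0
    have z2 := hv' _ hb.add hb.add0
    have z3 := hv c hcm hcL
    have z4 := hv (p + c) (add_mem (mem_sup_left hb.hp) hcm) (nadd hb.hp hcL)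
    have z5 := hv (q + c) (add_mem (mem_sup_left hb.hq) hcm) (nadd hb.hq hcL)
    have z6 := hv (p + (q + c)) (add_mem (mem_sup_left hb.hp) (add_mem (mem_sup_left hb.hq) hcm))
      (nadd hb.hp (nadd hb.hq hcL))
    omega

theorem Loc.same_plane {c a : V} (ha : a ∈ L₀ ⊔ span (ZMod 2) {c}) (haL : a ∉ L₀) :
    L₀ ⊔ span (ZMod 2) {a} = L₀ ⊔ span (ZMod 2) {c} := by
  apply le_antisymm (sup_le le_sup_left (span_le_of_mem ha))
  refine sup_le le_sup_left (span_le_of_mem ?_)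
  have h1 := add_mem_of_notMem ha haL
  have h2 : c = (a + c) + a := by rw [add_comm a c, add_assoc, vadd, add_zero]
  rw [h2]
  exact add_mem (mem_sup_left h1) (mem_sup_right (mem_span_singleton_self a))

/-- Step B -/
theorem Loc.lightB [Finite V] (h : Loc A P L₀ F) {c : V} (hc : c ∈ P) (hcL : c ∉ L₀) :
    ∀ x ∈ L₀ ⊔ span (ZMod 2) {c}, x ≠ 0 → 4 * Nat.card (Z A x) = Nat.card V := by
  obtain ⟨a, ha, haL, hl⟩ := h.lightA hc hcL
  have haP : a ∈ P := sup_le h.hLP (span_le_of_mem hc) ha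
  rw [← Loc.same_plane ha haL]
  have hpl := h.plane haP haL
  obtain ⟨p, q, hb⟩ := h.exists_bas
  have hsp : L₀ ⊔ span (ZMod 2) {a} ≤ span (ZMod 2) {a, p, q} := le_span hb.le in2 in3 in1
  have h1 := cov_le h.hO a p q hsp
  have key : ∀ x ∈ L₀, x ≠ 0 → (4 * (Nat.card (Z A x) + Nat.card (Z A (a + x))) ≤
      Nat.card V + 8 * Nat.card (Z A a ⊓ Z A x : Submodule (ZMod 2) V)) ∧
      ((4 * Nat.card (Z A x) = Nat.card V ∧ 4 * Nat.card (Z A (a + x)) = Nat.card V) ∨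
        8 * (Nat.card (Z A x) + Nat.card (Z A (a + x))) ≤
      Nat.card V + 16 * Nat.card (Z A a ⊓ Z A x : Submodule (ZMod 2) V)) := by
    intro x hx hx0
    have e : a + x ∉ L₀ := by rw [add_comm]; exact nadd hx haL
    have i1 := h.half_le haP (ne0 haL) (h.hLP hx) hx0 (fun e => haL (e ▸ hx)) (fun h2 => haL h2.1) hl
    have i2 := h.half_le haP (ne0 haL) (add_mem haP (h.hLP hx)) (ne0 e) (add_ne' hx0)
      (fun h2 => haL h2.1) hl
    rw [Z_inf_add h.hO] at i2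
    have z1 := h.zz (h.hLP hx) hx0
    have z2 := h.zz (add_mem haP (h.hLP hx)) (ne0 e)
    clear h1 hpl
    omega
  obtain ⟨k1, k2⟩ := key p hb.hp hb.hp0
  obtain ⟨k3, k4⟩ := key q hb.hq hb.hq0
  obtain ⟨k5, k6⟩ := key _ hb.add hb.add0
  have l1 : 4 * Nat.card (Z A p) = Nat.card V ∧ 4 * Nat.card (Z A (a + p)) = Nat.card V := by
    rcases k2 with k | k
    · exact k
    · exfalso
      clear k4 k6
      omega
  have l2 : 4 * Nat.card (Z A q) = Nat.card V ∧ 4 * Nat.card (Z A (a + q)) = Nat.card V := by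
    rcases k4 with k | k
    · exact k
    · exfalso
      clear k2 k6
      omega
  have l3 : 4 * Nat.card (Z A (p + q)) = Nat.card V ∧
      4 * Nat.card (Z A (a + (p + q))) = Nat.card V := by
    rcases k6 with k | k
    · exact k
    · exfalso
      clear k2 k4
      omega
  intro x hx hx0
  rcases enum hsp hx with rfl | rfl | rfl | rfl | rfl | rfl | rfl | rfl
  · exact absurd rfl hx0
  · exact hl
  · exact l1.1
  · exact l1.2
  · exact l2.1
  · exact l2.2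
  · exact l3.1
  · exact l3.2

end Pool.Agent.Helper94.DN
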