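import Pool.Agent.Helper94.ETC.DN.E4

set_option autoImplicit false

/-! # The contradiction -/

namespace Pool.Agent.Helper94.DN

open Module Submodule Pool.Agent.Helper94.I2
open Pool.Agent.K3h25.ET2 (par par_mem exists_par StmFano)

variable {V : Type} [AddCommGroup V] [Module (ZMod 2) V]
variable {A : V → Submodule (ZMod 2) (Dual (ZMod 2) V)}
variable {P L₀ : Submodule (ZMod 2) V} {F : V →ₗ[ZMod 2] Dual (ZMod 2) V}

theorem Loc.exists_out [Finite V] (h : Loc A P L₀ F) : ∃ c ∈ P, c ∉ L₀ := by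
  have hlt : L₀ < P := lt_of_le_of_ne h.hLP fun e => by
    have h1 := h.hP
    have h2 := h.hL2
    rw [e] at h2
    omega
  obtain ⟨z, hz, hz'⟩ := SetLike.exists_of_lt hlt
  exact ⟨z, hz, hz'⟩

/-- all elements are light -/
theorem Loc.light [Finite V] (h : Loc A P L₀ F) {x : V} (hx : x ∈ P) (hx0 : x ≠ 0) :
    4 * Nat.card (Z A x) = Nat.card V := by
  by_cases hxL : x ∈ L₀
  · obtain ⟨c, hc, hcL⟩ := h.exists_out
    exact h.lightB hc hcL x (mem_sup_left hxL) hx0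
  · exact h.lightB hx hxL x (mem_sup_right (mem_span_singleton_self x)) hx0

theorem Loc.eighth [Finite V] (h : Loc A P L₀ F) {a b : V} (ha : a ∈ P) (ha0 : a ≠ 0) (hb : b ∈ P)
    (hb0 : b ≠ 0) (hab : b ≠ a) (hL : ¬ (a ∈ L₀ ∧ b ∈ L₀)) :
    Nat.card V ≤ 8 * Nat.card (Z A a ⊓ Z A b : Submodule (ZMod 2) V) := by
  have h1 := h.half_le ha ha0 hb hb0 hab hL (h.light ha ha0)
  have h2 := h.light hb hb0
  omega

/-- Step C -/
theorem Loc.stepC [Finite V] (h : Loc A P L₀ F) {a : V} (ha : a ∈ P) (haL : a ∉ L₀) {x : V}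
    (hx : x ∈ L₀ ⊔ span (ZMod 2) {a}) (hx0 : x ≠ 0) (hxa : x ≠ a) :
    4 * Nat.card (Z A a ⊓ Z A x : Submodule (ZMod 2) V) < Nat.card V := by
  have hpl := h.plane ha haL
  obtain ⟨p, q, hb⟩ := h.exists_bas
  have hsp : L₀ ⊔ span (ZMod 2) {a} ≤ span (ZMod 2) {a, p, q} := le_span hb.le in2 in3 in1
  have h1 := cov_le h.hO a p q hsp
  have ha0 := ne0 haL
  have na : ∀ y ∈ L₀, a + y ≠ 0 := fun y hy e => haL (by rw [aez.1 e]; exact hy)
  have i1 := h.eighth ha ha0 (h.hLP hb.hp) hb.hp0 (fun e => haL (e ▸ hb.hp)) (fun h2 => haL h2.1)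
  have i2 := h.eighth ha ha0 (h.hLP hb.hq) hb.hq0 (fun e => haL (e ▸ hb.hq)) (fun h2 => haL h2.1)
  have i3 := h.eighth ha ha0 (h.hLP hb.add) hb.add0 (fun e => haL (e ▸ hb.add)) (fun h2 => haL h2.1)
  have z0 := h.light ha ha0
  have z1 := h.light (h.hLP hb.hp) hb.hp0
  have z2 := h.light (h.hLP hb.hq) hb.hq0
  have z3 := h.light (h.hLP hb.add) hb.add0
  have z4 := h.light (add_mem ha (h.hLP hb.hp)) (na _ hb.hp)
  have z5 := h.light (add_mem ha (h.hLP hb.hq)) (na _ hb.hq)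
  have z6 := h.light (add_mem ha (h.hLP hb.add)) (na _ hb.add)
  rcases enum hsp hx with rfl | rfl | rfl | rfl | rfl | rfl | rfl | rfl
  · exact absurd rfl hx0
  · exact absurd rfl hxa
  · omega
  · rw [Z_inf_add h.hO]; omega
  · omega
  · rw [Z_inf_add h.hO]; omega
  · omega
  · rw [Z_inf_add h.hO]; omega

/-- Step D -/
theorem Loc.stepD [Finite V] (h : Loc A P L₀ F) {a : V} (ha : a ∈ P) (haL : a ∉ L₀) {p q : V}
    (hb : Bas L₀ p q) : Z A p ⊓ Z A (a + q) ≤ Z A a := by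
  by_contra hn
  have hpl := h.plane ha haL
  have ha0 := ne0 haL
  have e0 : a + (a + q) = q := by rw [← add_assoc, vadd, zero_add]
  have e1 : a + (p + (a + q)) = p + q := by
    have : a + (p + (a + q)) = p + q + (a + a) := by abel
    rw [this, vadd, add_zero]
  have hsp : L₀ ⊔ span (ZMod 2) {a} ≤ span (ZMod 2) {a, p, a + q} := by
    refine le_span hb.le in2 ?_ in1
    have h2 := add_mem (in1 (a := a) (b := p) (c := a + q)) (in3 (a := a) (b := p) (c := a + q))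
    rwa [e0] at h2
  have h1 := cov_le h.hO a p (a + q) hsp
  rw [e0, e1] at h1
  have na : ∀ y ∈ L₀, a + y ∉ L₀ := fun y hy => by rw [add_comm]; exact nadd hy haL
  have n1 := na _ hb.hp
  have n2 := na _ hb.hq
  have n3 : p + (a + q) ∉ L₀ := nadd hb.hp n2
  have e2 : p + (a + q) = a + (p + q) := by abel
  have i1 := h.eighth ha ha0 (h.hLP hb.hp) hb.hp0 (fun e => haL (e ▸ hb.hp)) (fun h2 => haL h2.1)
  have i2 := h.eighth ha ha0 (add_mem ha (h.hLP hb.hq)) (ne0 n2) (add_ne' hb.hq0)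
    (fun h2 => haL h2.1)
  have i3 := h.eighth ha ha0 (add_mem (h.hLP hb.hp) (add_mem ha (h.hLP hb.hq))) (ne0 n3)
    (by rw [e2]; exact add_ne' hb.add0) (fun h2 => haL h2.1)
  have i4 := h.eighth (h.hLP hb.hp) hb.hp0 (add_mem ha (h.hLP hb.hq)) (ne0 n2)
    (fun e => n2 (by rw [e]; exact hb.hp)) (fun h2 => n2 h2.2)
  have z0 := h.light ha ha0
  have z1 := h.light (h.hLP hb.hp) hb.hp0
  have z2 := h.light (h.hLP hb.hq) hb.hq0
  have z3 := h.light (h.hLP hb.add) hb.add0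
  have z4 := h.light (add_mem ha (h.hLP hb.hp)) (ne0 n1)
  have z5 := h.light (add_mem ha (h.hLP hb.hq)) (ne0 n2)
  have z6 := h.light (add_mem (h.hLP hb.hp) (add_mem ha (h.hLP hb.hq))) (ne0 n3)
  have j1 := sdiff_card (Z A p ⊓ Z A (a + q)) (Z A a)
  have j2 : 2 * Nat.card (Z A a ⊓ (Z A p ⊓ Z A (a + q)) : Submodule (ZMod 2) V) ≤
      Nat.card (Z A p ⊓ Z A (a + q) : Submodule (ZMod 2) V) :=
    card_lt' inf_le_right fun e => hn (by rw [← e]; exact inf_le_left)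
  omega

/-- Step E -/
theorem Loc.stepE [Finite V] (h : Loc A P L₀ F) {p q : V} (hb : Bas L₀ p q) :
    4 * Nat.card (Z A p ⊓ Z A q : Submodule (ZMod 2) V) < Nat.card V := by
  obtain ⟨c, hc, hcL⟩ := h.exists_out
  have hpl := h.plane hc hcL
  have h1 := cov_le h.hO p q c (P := L₀ ⊔ span (ZMod 2) {c}) (le_span hb.le in1 in2 in3)
  have n1 := nadd hb.hp hcL
  have n2 := nadd hb.hq hcL
  have n3 := nadd hb.hp n2
  have i1 := h.eighth (h.hLP hb.hp) hb.hp0 hc (ne0 hcL) (fun e => hcL (by rw [e]; exact hb.hp))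
    (fun h2 => hcL h2.2)
  have i2 := h.eighth (h.hLP hb.hp) hb.hp0 (add_mem (h.hLP hb.hq) hc) (ne0 n2)
    (fun e => n2 (by rw [e]; exact hb.hp)) (fun h2 => n2 h2.2)
  have z0 := h.light hc (ne0 hcL)
  have z1 := h.light (h.hLP hb.hp) hb.hp0
  have z2 := h.light (h.hLP hb.hq) hb.hq0
  have z3 := h.light (h.hLP hb.add) hb.add0
  have z4 := h.light (add_mem (h.hLP hb.hp) hc) (ne0 n1)
  have z5 := h.light (add_mem (h.hLP hb.hq) hc) (ne0 n2)
  have z6 := h.light (add_mem (h.hLP hb.hp) (add_mem (h.hLP hb.hq) hc)) (ne0 n3)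
  omega

/-- the common orthogonal space -/
theorem Loc.V0 [Finite V] (h : Loc A P L₀ F) {p q : V} (hb : Bas L₀ p q) :
    8 * Nat.card (Z A p ⊓ Z A q : Submodule (ZMod 2) V) = Nat.card V ∧
      ∀ x ∈ P, Z A p ⊓ Z A q ≤ Z A x := by
  have hE := h.stepE hb
  have z1 := h.light (h.hLP hb.hp) hb.hp0
  have up : 8 * Nat.card (Z A p ⊓ Z A q : Submodule (ZMod 2) V) ≤ Nat.card V := by
    have h1 : 2 * Nat.card (Z A p ⊓ Z A q : Submodule (ZMod 2) V) ≤ Nat.card (Z A p) :=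
      card_lt' inf_le_left fun e => by rw [e] at hE; omega
    omega
  have key : ∀ a ∈ P, a ∉ L₀ → Nat.card V ≤ 8 * Nat.card (Z A p ⊓ Z A q : Submodule (ZMod 2) V) ∧
      Z A p ⊓ Z A q ≤ Z A a := by
    intro a ha haL
    have hD := h.stepD ha haL hb
    have n2 : a + q ∉ L₀ := by rw [add_comm]; exact nadd hb.hq haL
    have i4 := h.eighth (h.hLP hb.hp) hb.hp0 (add_mem ha (h.hLP hb.hq)) (ne0 n2)
      (fun e => n2 (by rw [e]; exact hb.hp)) (fun h2 => n2 h2.2)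
    have hle : Z A p ⊓ Z A (a + q) ≤ Z A p ⊓ Z A q := by
      intro v hv
      refine ⟨hv.1, ?_⟩
      have h1 := Z_add h.hO (hD hv) hv.2
      rwa [← add_assoc, vadd, zero_add] at h1
    have he := eq_of_card_le hle (by omega)
    rw [← he]
    exact ⟨i4, hD⟩
  obtain ⟨c, hc, hcL⟩ := h.exists_out
  refine ⟨le_antisymm up (key c hc hcL).1, fun x hx => ?_⟩
  by_cases hxL : x ∈ L₀
  · have h1 := nadd hxL hcL
    have h2 := (key c hc hcL).2
    have h3 := (key _ (add_mem hx hc) h1).2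
    intro v hv
    have h4 := Z_add h.hO (h3 hv) (h2 hv)
    rwa [add_assoc, vadd, add_zero] at h4
  · exact (key x hx hxL).2

/-- the elements of the other planes -/
theorem Loc.exists_eq [Finite V] (h : Loc A P L₀ F) {c d : V} (hc : c ∈ P) (hcL : c ∉ L₀)
    (hd : d ∈ P) (hdL : d ∉ L₀) : ∃ x ∈ L₀ ⊔ span (ZMod 2) {d}, x ∉ L₀ ∧ Z A x = Z A c := by
  obtain ⟨p, q, hb⟩ := h.exists_bas
  obtain ⟨h8, hV0⟩ := h.V0 hb
  have hpl := h.plane hd hdL
  have z0 := h.light hc (ne0 hcL)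
  have hne : (((Z A c : Set V) \ ((Z A p ⊓ Z A q : Submodule (ZMod 2) V) : Set V)) ∩
      Cov A (L₀ ⊔ span (ZMod 2) {d})).Nonempty := by
    by_contra hcon
    rw [Set.not_nonempty_iff_eq_empty] at hcon
    have h1 := Set.ncard_union_add_ncard_inter
      ((Z A c : Set V) \ ((Z A p ⊓ Z A q : Submodule (ZMod 2) V) : Set V))
      (Cov A (L₀ ⊔ span (ZMod 2) {d})) (Set.toFinite _) (Set.toFinite _)
    rw [hcon, Set.ncard_empty] at h1
    have h2 := Set.ncard_le_ncard (Set.subset_univ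
      (((Z A c : Set V) \ ((Z A p ⊓ Z A q : Submodule (ZMod 2) V) : Set V)) ∪
      Cov A (L₀ ⊔ span (ZMod 2) {d}))) (Set.toFinite _)
    rw [Set.ncard_univ] at h2
    have h3 := sdiff_card (Z A c) (Z A p ⊓ Z A q)
    rw [inf_eq_left.2 (hV0 c hc)] at h3
    omega
  obtain ⟨v, ⟨hvc, hv0⟩, x, hx, hx0, hvx⟩ := hne
  have hxP : x ∈ P := sup_le h.hLP (span_le_of_mem hd) hx
  have z1 := h.light hxP hx0
  have h1 : 2 * Nat.card (Z A p ⊓ Z A q : Submodule (ZMod 2) V) ≤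
      Nat.card (Z A c ⊓ Z A x : Submodule (ZMod 2) V) :=
    card_lt' (le_inf (hV0 c hc) (hV0 x hxP)) fun e => hv0 (by rw [e]; exact ⟨hvc, hvx⟩)
  have h2 : Z A c ⊓ Z A x = Z A c := eq_of_card_le inf_le_left (by omega)
  have h3 : Z A c ⊓ Z A x = Z A x := eq_of_card_le inf_le_right (by omega)
  refine ⟨x, hx, fun hxL => ?_, by rw [← h3, h2]⟩
  have h4 := h.stepC hc hcL (x := x) (mem_sup_left hxL) hx0 (fun e => hcL (e ▸ hxL))
  rw [h2] at h4
  omega

theorem A_le_of_Z {a b : V} [Finite V] (h : Z A a ≤ Z A b) : A b ≤ A a := by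
  have h1 : (A a).dualCoannihilator.dualAnnihilator = A a :=
    Subspace.dualCoannihilator_dualAnnihilator_eq
  have h2 : (A b).dualCoannihilator.dualAnnihilator = A b :=
    Subspace.dualCoannihilator_dualAnnihilator_eq
  rw [← h1, ← h2]
  exact Submodule.dualAnnihilator_anti h

/-- **the contradiction** -/
theorem Loc.false [Finite V] (h : Loc A P L₀ F) : False := by
  obtain ⟨c1, hc1, hc1L⟩ := h.exists_out
  set P1 := L₀ ⊔ span (ZMod 2) {c1} with hP1
  have hle1 : P1 ≤ P := sup_le h.hLP (span_le_of_mem hc1)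
  have f1 : finrank (ZMod 2) P1 = 3 := by rw [hP1, finrank_sup_one hc1L, h.hL2]
  have hlt : P1 < P := lt_of_le_of_ne hle1 fun e => by
    have := h.hP
    rw [← e] at this
    omega
  obtain ⟨c2, hc2, hc2P⟩ := SetLike.exists_of_lt hlt
  have hc2L : c2 ∉ L₀ := fun hm => hc2P (mem_sup_left hm)
  set P2 := L₀ ⊔ span (ZMod 2) {c2} with hP2
  have hle2 : P2 ≤ P := sup_le h.hLP (span_le_of_mem hc2)
  have f2 : finrank (ZMod 2) P2 = 3 := by rw [hP2, finrank_sup_one hc2L, h.hL2]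
  have hPle : P ≤ P1 ⊔ span (ZMod 2) {c2} := by
    refine (Submodule.eq_of_le_of_finrank_le (sup_le hle1 (span_le_of_mem hc2)) ?_).ge
    rw [finrank_sup_one hc2P, f1, h.hP]
  obtain ⟨F1, hF1, e1⟩ := ext_three h.hL (P := P1) f1.le 3 L₀ le_sup_left (by omega) F h.hF
  obtain ⟨F2, hF2, e2⟩ := ext_three h.hL (P := P2) f2.le 3 L₀ le_sup_left (by omega) F h.hF
  obtain ⟨l, hl1, hl2⟩ := Submodule.exists_le_ker_of_notMem hc2P
  have l1 : l c2 = 1 := zne hl1
  have l0 : ∀ w ∈ P1, l w = 0 := fun w hw => hl2 hw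
  set κ : V →ₗ[ZMod 2] Dual (ZMod 2) V := F1 + l.smulRight (F2 c2 + F1 c2) with hκ
  have k1 : ∀ w ∈ P1, κ w = F1 w := by
    intro w hw
    simp only [hκ, LinearMap.add_apply, LinearMap.smulRight_apply, l0 w hw, zero_smul, add_zero]
  have k2 : κ c2 = F2 c2 := by
    simp only [hκ, LinearMap.add_apply, LinearMap.smulRight_apply, l1, one_smul]
    have : F1 c2 + (F2 c2 + F1 c2) = F2 c2 + (F1 c2 + F1 c2) := by abel
    rw [this, vadd, add_zero]
  have k3 : ∀ w ∈ P2, κ w = F2 w := by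
    intro w hw
    by_cases hwL : w ∈ L₀
    · rw [k1 w (mem_sup_left hwL), e1 w hwL, e2 w hwL]
    · have h1 := add_mem_of_notMem hw hwL
      have h2 : (w + c2) + c2 = w := by rw [add_assoc, vadd, add_zero]
      have h3 : κ ((w + c2) + c2) = F2 ((w + c2) + c2) := by
        rw [κ.map_add (w + c2) c2, F2.map_add (w + c2) c2, k2, k1 _ (mem_sup_left h1), e1 _ h1,
          e2 _ h1]
      rwa [h2] at h3
  refine h.hn ⟨κ, fun x hx => ?_, fun x hx => by rw [k1 x (mem_sup_left hx), e1 x hx]⟩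
  by_cases hx1 : x ∈ P1
  · rw [k1 x hx1]; exact hF1 x hx1
  by_cases hx2 : x ∈ P2
  · rw [k3 x hx2]; exact hF2 x hx2
  have hxL : x ∉ L₀ := fun hm => hx1 (mem_sup_left hm)
  obtain ⟨a, ha, haL, hZ⟩ := h.exists_eq hx hxL hc1 hc1L
  have h1 := add_mem_of_notMem (hPle hx) hx1
  have h2 : x + c2 ∉ L₀ := by
    intro hm
    apply hx2
    have h3 : x = (x + c2) + c2 := by rw [add_assoc, vadd, add_zero]
    rw [h3]
    exact add_mem (mem_sup_left hm) (mem_sup_right (mem_span_singleton_self c2))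
  have h3 := add_mem_of_notMem h1 h2
  have h4 := add_mem_of_notMem ha haL
  have h5 : a + x ∈ P2 := by
    have h6 := add_mem h3 h4
    have h7 : a + x = (x + c2 + c1 + (a + c1)) + c2 := by
      have : (x + c2 + c1 + (a + c1)) + c2 = a + x + (c1 + c1) + (c2 + c2) := by abel
      rw [this, vadd, vadd, add_zero, add_zero]
    rw [h7]
    exact add_mem (mem_sup_left h6) (mem_sup_right (mem_span_singleton_self c2))
  have h6 : x = a + (a + x) := by rw [← add_assoc, vadd, zero_add]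
  have h7 : κ x = F1 a + F2 (a + x) := by
    conv_lhs => rw [h6]
    rw [map_add, k1 a ha, k3 _ h5]
  rw [h7]
  refine add_mem ?_ ?_
  · exact A_le_of_Z hZ.ge (hF1 a ha)
  · refine A_le_of_Z ?_ (hF2 _ h5)
    intro v hv
    exact Z_add h.hO (by rw [hZ]; exact hv) hv

end Pool.Agent.Helper94.DN
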