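import Pool.Agent.Helper94.ETC.DN.Main
import Pool.Agent.Helper94.ETC.DN.Count2
import Pool.Graph.R_pool_sql_team_seeded_5cf16337.Results.MP_d26ff6_al.LargeIndicesDense

set_option autoImplicit false

/-! # Fewer than nine sixteenths of the value groups have index larger than four -/

namespace Pool.Agent.Helper94.DN

open Module Submodule Pool.Agent.H315R3.ETC Pool.Agent.Helper94.ETC
open Pool.Agent.Helper94.I2 (Sy Sy_anti Lk Ex VS Aq mem_VS mem_Aq lk cod_two)

/-- fewer than nine sixteenths of the value groups have index larger than four -/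
def Dn2 (S : QData) : Prop :=
  ∃ hS : IsQuat S, Finite S.G ∧ 16 * {a : S.G | 4 < (VG hS a).index}.ncard < 9 * Nat.card S.G

theorem dn2_quo {S : QData} (h : Dn2 S) {u : S.G} (hQ : IsQuat (quo S u)) : Dn2 (quo S u) := by
  obtain ⟨hS, hfin, hlt⟩ := h
  refine ⟨hQ, hfin, lt_of_le_of_lt (Nat.mul_le_mul_left 16 ?_) hlt⟩
  refine Set.ncard_le_ncard (α := S.G) (s := {a : (quo S u).G | 4 < (VG hQ a).index})
    (t := {a : S.G | 4 < (VG hS a).index}) (fun (a : S.G) ha => ?_) (Set.toFinite _)
  have hle : VG hS a ≤ @VG (quo S u) hQ a := fun x hx =>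
    (quo_null hS).2 (nu_of_zero hS hx)
  have h1 := Subgroup.index_dvd_of_le hle
  have h0 : (VG hS a).index ≠ 0 := Subgroup.index_ne_zero_of_finite
  have h2 := Nat.le_of_dvd (Nat.pos_of_ne_zero h0) h1
  exact lt_of_lt_of_le ha h2

theorem elem_of_dn2 : ∀ (n : ℕ) (S : QData), Dn2 S →
    {a : S.G | ∃ y, S.q a y ≠ S.zero}.ncard ≤ n → Elem S := by
  intro n
  induction n using Nat.strong_induction_on with
  | _ n ih =>
    intro S hD hn
    obtain ⟨hS, hfin, hlt⟩ := id hD
    by_cases hg : ∃ u : S.G, (∃ y, S.q u y ≠ S.zero) ∧ IsQuat (quo S u)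
    · obtain ⟨u, hu, hQ⟩ := hg
      have hlt' : {a : (quo S u).G | ∃ y, (quo S u).q a y ≠ (quo S u).zero}.ncard <
          {a : S.G | ∃ y, S.q a y ≠ S.zero}.ncard := by
        refine Set.ncard_lt_ncard (t := {a : S.G | ∃ y, S.q a y ≠ S.zero})
          ⟨fun a ha => ?_, fun hle => ?_⟩ (Set.toFinite _)
        · obtain ⟨y, hy⟩ := ha
          exact ⟨y, fun h0 => hy ((quo_null hS).2 (nu_of_zero hS h0))⟩
        · obtain ⟨y, hy⟩ := hle hu
          exact hy ((quo_null hS).2 ⟨y, rfl⟩)
      have hE := ih _ (lt_of_lt_of_le hlt' hn) (quo S u) (dn2_quo hD hQ) le_rfl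
      obtain ⟨B, _, β, hB, hm, hq⟩ := add_of_quo hS u hQ hE
      refine Pool.Agent.Results.MP_d26ff6_al.LargeIndicesDense.result.{0, 0}.1 S hS hfin B β hB hm hq
        (Or.inl ?_)
      have e : (Pool.Agent.Results.MP_d26ff6_al.LargeIndicesDense.E S hS 4).ncard =
          {a : S.G | 4 < (VG hS a).index}.ncard := rfl
      rw [e]
      omega
    · push Not at hg
      by_contra hne
      let _ : Module (ZMod 2) (Additive S.G) := AddCommGroup.zmodModule (n := 2) (by
        intro x
        rw [two_smul]
        exact hS.exp2 x.toMul)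
      have hfin' : Finite (Additive S.G) := hfin
      obtain ⟨u, hu⟩ : ∃ u : S.G, ∃ y, S.q u y ≠ S.zero := by
        by_contra hcon
        exact hne (elem_of_quo hS hfin fun u hu => absurd ⟨u, hu⟩ hcon)
      -- every quotient gives a symbol which does not extend
      have fail : ∀ u : S.G, (∃ y, S.q u y ≠ S.zero) →
          ∃ a e c, ¬ Ex (Aq hS) (span (ZMod 2) {Additive.ofMul u, a, e}) c := by
        intro u hu
        by_contra hcon
        push Not at hcon
        exact hg u hu (quo_isQuat hS hcon)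
      have hsub : {v : Additive S.G | 3 ≤ finrank (ZMod 2) (Aq hS v)}.ncard ≤
          {a : S.G | 4 < (VG hS a).index}.ncard :=
        Set.ncard_le_ncard (s := {v : Additive S.G | 3 ≤ finrank (ZMod 2) (Aq hS v)})
          (t := {a : S.G | 4 < (VG hS a).index}) (fun v hv => index_gt hS hv) (Set.toFinite _)
      have hcard : Nat.card (Additive S.G) = Nat.card S.G := rfl
      -- an element of index at least eight
      obtain ⟨v, hv⟩ : ∃ v : Additive S.G, 3 ≤ finrank (ZMod 2) (Aq hS v) := by
        obtain ⟨a, e, c, hn'⟩ := fail u hu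
        have h1 := count Pool.Agent.K3h25.ET2.stmFano (lk hS) (vq hS)
          (fun W hne hW => cod_two hS hne hW) (os hS) hn'
        by_contra hcon
        have h2 : {v : Additive S.G | 3 ≤ finrank (ZMod 2) (Aq hS v)} = ∅ := by
          ext v
          exact ⟨fun hv => hcon ⟨v, hv⟩, fun hv => hv.elim⟩
        rw [h2, Set.ncard_empty] at h1
        have h3 : 0 < Nat.card (Additive S.G) := Nat.card_pos
        omega
      obtain ⟨a, e, c, hn'⟩ := fail v.toMul (by
        by_contra hcon
        push Not at hcon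
        have h0 : Aq hS v = ⊥ := by
          rw [eq_bot_iff]
          intro f hf
          rw [mem_bot]
          exact LinearMap.ext fun x => (mem_Aq hS).1 hf x (hcon x.toMul)
        rw [h0, finrank_bot] at hv
        omega)
      have h1 := count2 Pool.Agent.K3h25.ET2.stmFano (lk hS) (vq hS)
        (fun W hne hW => cod_two hS hne hW) (os hS) hv hn'
      omega

/-- **fewer than nine sixteenths of the value groups have index larger than four** -/
theorem elem_of_dense2 (S : QData) (hS : IsQuat S) (hfin : Finite S.G)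
    (h : 16 * {a : S.G | 4 < (VG hS a).index}.ncard < 9 * Nat.card S.G) : Elem S :=
  elem_of_dn2 _ S ⟨hS, hfin, h⟩ le_rfl

end Pool.Agent.Helper94.DN
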