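import Pool.Agent.Helper94.ETC.DN.E5
import Pool.Agent.Helper94.ETC.DN.Main2

set_option autoImplicit false

/-! # Structures whose value groups have index at most eight -/

namespace Pool.Agent.Helper94.DN

open Module Submodule Pool.Agent.H315R3.ETC Pool.Agent.Helper94.ETC
open Pool.Agent.Helper94.I2 (Sy Sy_anti Lk Ex VS Aq mem_VS mem_Aq lk cod_two vadd aez zne z01)
open Pool.Agent.K3h25.ET2 (par par_mem exists_par tv dot tv_line tv_kill Line StmFano)

section
variable {V : Type} [AddCommGroup V] [Module (ZMod 2) V]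
variable {A : V → Submodule (ZMod 2) (Dual (ZMod 2) V)}

/-- the number of vectors with at least four functionals -/
theorem count_four [Finite V] (hFano : StmFano) (hL : Lk A) (hV : Vq A) (hC : Cd A) (hO : Os A)
    {x y u z : V} {F₀ : V →ₗ[ZMod 2] Dual (ZMod 2) V}
    (hF₀ : F₀ ∈ Sy A (span (ZMod 2) {x, y, u})) (hP3 : 3 ≤ finrank (ZMod 2) (span (ZMod 2) {x, y, u}))
    (hn : ¬ ∃ k ∈ Sy A (span (ZMod 2) {x, y, u} ⊔ span (ZMod 2) {z}),
      ∀ p ∈ span (ZMod 2) {x, y, u}, k p = F₀ p)
    (hE : ∀ p ∈ span (ZMod 2) {x, y, u}, ∀ q ∈ span (ZMod 2) {x, y, u},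
      ∀ F ∈ Sy A (span (ZMod 2) {p, q}),
        ∃ k ∈ Sy A (span (ZMod 2) {x, y, u} ⊔ span (ZMod 2) {z}),
          ∀ w ∈ span (ZMod 2) {p, q}, k w = F w) :
    3 * Nat.card V ≤ 8 * {v : V | 4 ≤ finrank (ZMod 2) (A v)}.ncard := by
  classical
  set P := span (ZMod 2) {x, y, u} with hP
  choose f b hb hfb using exists_tensor hF₀ hE
  obtain ⟨W, F, hPW, hFP, hM⟩ := exists_max hF₀ hn
  have hn' : ∀ k ∈ Sy A (P ⊔ span (ZMod 2) {z}), ∃ p ∈ P, k p ≠ F₀ p := by
    intro k hk
    by_contra hcon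
    push Not at hcon
    exact hn ⟨k, hk, hcon⟩
  have h1 : ∀ i, f i ≠ 0 := by
    intro i hi
    obtain ⟨p, hp, h⟩ := hn' (b i) (hb i)
    obtain ⟨a, rfl⟩ := exists_par hp
    have := hfb i a
    rw [hi, smul_zero] at this
    exact h (aez.1 this).symm
  have h2 : ∀ i j l : Fin 7, Line i j l → ¬ (f i = f j ∧ f j = f l) := by
    rintro i j l hijl ⟨e1, e2⟩
    obtain ⟨p, hp, h⟩ := hn' (b i + b j + b l) (add_mem (add_mem (hb i) (hb j)) (hb l))
    obtain ⟨a, rfl⟩ := exists_par hp
    apply h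
    have k1 := hfb i a
    have k2 := hfb j a
    have k3 := hfb l a
    rw [e1, e2] at k1
    rw [e2] at k2
    have k4 : (F₀ (par x y u a) + b i (par x y u a)) + (F₀ (par x y u a) + b j (par x y u a)) +
        (F₀ (par x y u a) + b l (par x y u a)) = 0 := by
      rw [k1, k2, k3, ← add_smul, ← add_smul, tv_line i j l hijl a, zero_smul]
    have k5 : (F₀ (par x y u a) + b i (par x y u a)) + (F₀ (par x y u a) + b j (par x y u a)) +
        (F₀ (par x y u a) + b l (par x y u a)) =
        ((b i + b j + b l) (par x y u a) + F₀ (par x y u a)) +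
          (F₀ (par x y u a) + F₀ (par x y u a)) := by
      rw [LinearMap.add_apply, LinearMap.add_apply]
      abel
    rw [k5, vadd, add_zero] at k4
    exact aez.1 k4
  obtain ⟨c1, -⟩ := hFano V f h1 h2
  have hWc : 8 * Nat.card W ≤ Nat.card V := card_mul (n := 3) (hM.codim hC)
  have od : ∀ (i : Fin 7) (v : V), f i v ≠ 0 → ∀ a, par x y u a ∈ Z A v → dot (tv i) a = 0 := by
    intro i v hv a ha
    have hva : v ∈ Z A (par x y u a) := (Z_comm hO).1 ha
    have k2 : F₀ (par x y u a) v = 0 := mem_Z.1 hva _ (hF₀ _ (par_mem x y u a))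
    have k3 : b i (par x y u a) v = 0 :=
      mem_Z.1 hva _ (hb i _ (mem_sup_left (par_mem x y u a)))
    have k4 := LinearMap.congr_fun (hfb i a) v
    rw [LinearMap.add_apply, k2, k3, add_zero, LinearMap.smul_apply, smul_eq_mul, Pool.Agent.Helper94.I2.zne hv,
      mul_one] at k4
    exact k4.symm
  have h3 : (Set.univ : Set V) ⊆ (W : Set V) ∪
      {v | ∃ i j l : Fin 7, Line i j l ∧ ∀ k, f k v ≠ 0 → k = i ∨ k = j ∨ k = l} ∪
      {v : V | 4 ≤ finrank (ZMod 2) (A v)} := by
    intro v _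
    by_cases hv : v ∈ W
    · exact Or.inl (Or.inl hv)
    by_cases hv' : v ∈ {v | ∃ i j l : Fin 7, Line i j l ∧ ∀ k, f k v ≠ 0 → k = i ∨ k = j ∨ k = l}
    · exact Or.inl (Or.inr hv')
    right
    have h4 := hM.finrank_le hL hV hPW hv
    have h5 : P ⊓ (A v).dualCoannihilator = ⊥ := by
      rw [Submodule.eq_bot_iff]
      rintro w ⟨hw1, hw2⟩
      obtain ⟨a, rfl⟩ := exists_par hw1
      by_cases ha0 : a = 0
      · rw [ha0, map_zero]
      exfalso
      obtain ⟨i, j, l, hijl, h6⟩ := tv_kill a ha0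
      exact hv' ⟨i, j, l, hijl, fun k hk => h6 k (od k v hk a hw2)⟩
    rw [h5, finrank_bot, zero_add] at h4
    show 4 ≤ finrank (ZMod 2) (A v)
    omega
  have h4 := Set.ncard_le_ncard h3 (Set.toFinite _)
  rw [Set.ncard_univ] at h4
  have h5 := Set.ncard_union_le ((W : Set V) ∪
    {v | ∃ i j l : Fin 7, Line i j l ∧ ∀ k, f k v ≠ 0 → k = i ∨ k = j ∨ k = l})
    {v : V | 4 ≤ finrank (ZMod 2) (A v)}
  have h6 := Set.ncard_union_le (W : Set V)
    {v | ∃ i j l : Fin 7, Line i j l ∧ ∀ k, f k v ≠ 0 → k = i ∨ k = j ∨ k = l}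
  have h7 : (W : Set V).ncard = Nat.card W := rfl
  have h8 : {v | ∃ i j l : Fin 7, Line i j l ∧ ∀ k, f k v ≠ 0 → k = i ∨ k = j ∨ k = l}.ncard =
      Nat.card {v : V // ∃ i j l : Fin 7, Line i j l ∧
        ∀ k, f k v ≠ 0 → k = i ∨ k = j ∨ k = l} := rfl
  omega

/-- symbols on subspaces of dimension at most two extend to subspaces of dimension at most four -/
theorem ext_line [Finite V] (hL : Lk A) (hV : Vq A) (hC : Cd A) (hO : Os A)
    (h3 : ∀ v, finrank (ZMod 2) (A v) ≤ 3) {P : Submodule (ZMod 2) V}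
    (hP : finrank (ZMod 2) P ≤ 4) : ∀ (n : ℕ) (U : Submodule (ZMod 2) V), U ≤ P →
      finrank (ZMod 2) U + n = 2 → ∀ F ∈ Sy A U, ∃ k ∈ Sy A P, ∀ x ∈ U, k x = F x := by
  intro n
  induction n with
  | zero =>
    intro U hU hn F hF
    by_contra hcon
    by_cases hP3 : finrank (ZMod 2) P ≤ 3
    · exact hcon (ext_three hL hP3 3 U hU (by omega) F hF)
    · exact Loc.false (A := A) (P := P) (L₀ := U) (F := F)
        ⟨hL, hV, hC, hO, h3, by omega, hU, by omega, hF, hcon⟩
  | succ n ih =>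
    intro U hU hn F hF
    by_cases hUP : U = P
    · exact ⟨F, by rw [← hUP]; exact hF, fun _ _ => rfl⟩
    obtain ⟨g, hgP, hg⟩ := SetLike.exists_of_lt (lt_of_le_of_ne hU hUP)
    obtain ⟨F1, hF1, e1⟩ := ex_small hL (U := U) (by omega) g F hF
    obtain ⟨F2, hF2, e2⟩ := ih (U ⊔ span (ZMod 2) {g}) (sup_le hU (span_le_of_mem hgP))
      (by rw [finrank_sup_one hg]; omega) F1 hF1
    exact ⟨F2, hF2, fun w hw => by rw [e2 w (mem_sup_left hw), e1 w hw]⟩

/-- **all symbols on planes extend by one vector** -/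
theorem no_fail [Finite V] (hFano : StmFano) (hL : Lk A) (hV : Vq A) (hC : Cd A) (hO : Os A)
    (h3 : ∀ v, finrank (ZMod 2) (A v) ≤ 3) (x y u z : V) : Ex A (span (ZMod 2) {x, y, u}) z := by
  classical
  by_contra hn
  set P := span (ZMod 2) {x, y, u} with hP
  have hP3 : 3 ≤ finrank (ZMod 2) P := by
    by_contra hlt
    exact hn (ex_small hL (by omega) z)
  have hP3' : finrank (ZMod 2) P ≤ 3 := by
    refine (finrank_span_le_card _).trans ?_
    calc (({x, y, u} : Set V)).toFinset.card ≤ ({x, y, u} : Finset V).card := by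
          apply Finset.card_le_card
          intro w hw
          simpa using hw
      _ ≤ 3 := Finset.card_le_three
  have hP4 : finrank (ZMod 2) (P ⊔ span (ZMod 2) {z} : Submodule (ZMod 2) V) ≤ 4 := by
    have h1 := Submodule.finrank_add_le_finrank_add_finrank P (span (ZMod 2) {z})
    have h2 : finrank (ZMod 2) (span (ZMod 2) {z}) ≤ 1 := (finrank_span_le_card _).trans (by simp)
    omega
  unfold Ex at hn
  push Not at hn
  obtain ⟨F₀, hF₀, hn⟩ := hn
  have h1 := count_four hFano hL hV hC hO hF₀ hP3 (z := z) (by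
      rintro ⟨k, hk, h⟩
      obtain ⟨w, hw, h'⟩ := hn k hk
      exact h' (h w hw)) (by
      intro p hp q hq F hF
      have hle : span (ZMod 2) {p, q} ≤ P := by
        rw [span_le]
        rintro w (rfl | hw)
        · exact hp
        · rw [Set.mem_singleton_iff.1 hw]; exact hq
      have h2 : finrank (ZMod 2) (span (ZMod 2) {p, q}) ≤ 2 := by
        refine (finrank_span_le_card _).trans ?_
        calc (({p, q} : Set V)).toFinset.card ≤ ({p, q} : Finset V).card := by
              apply Finset.card_le_card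
              intro w hw
              simpa using hw
          _ ≤ 2 := Finset.card_le_two
      exact ext_line hL hV hC hO h3 hP4 (2 - finrank (ZMod 2) (span (ZMod 2) {p, q})) _
        (hle.trans le_sup_left) (by omega) F hF)
  have h2 : {v : V | 4 ≤ finrank (ZMod 2) (A v)} = ∅ := by
    ext v
    refine ⟨fun hv => ?_, fun hv => hv.elim⟩
    have h4 : 4 ≤ finrank (ZMod 2) (A v) := hv
    have h5 := h3 v
    omega
  rw [h2, Set.ncard_empty] at h1
  have h4 : 0 < Nat.card V := Nat.card_pos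
  omega

end

theorem finrank_of_index {S : QData} (hS : IsQuat S) [Module (ZMod 2) (Additive S.G)] [Finite S.G]
    {a : Additive S.G} (h : (VG hS a.toMul).index ≤ 8) : finrank (ZMod 2) (Aq hS a) ≤ 3 := by
  have hfin' : Finite (Additive S.G) := ‹Finite S.G›
  by_contra hlt
  have e1 : (VS hS a).toAddSubgroup = Subgroup.toAddSubgroup (VG hS a.toMul) := rfl
  have e2 : Nat.card (Additive S.G ⧸ VS hS a) = (VS hS a).toAddSubgroup.index := rfl
  rw [e1, Subgroup.index_toAddSubgroup] at e2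
  rw [← e2, Module.natCard_eq_pow_finrank (K := ZMod 2) (V := Additive S.G ⧸ VS hS a),
    Nat.card_zmod] at h
  have h1 := Submodule.finrank_quotient_add_finrank (VS hS a)
  have h2 := Subspace.finrank_add_finrank_dualAnnihilator_eq (VS hS a)
  have h3 : finrank (ZMod 2) (Aq hS a) = finrank (ZMod 2) (VS hS a).dualAnnihilator := rfl
  have h4 : 4 ≤ finrank (ZMod 2) (Additive S.G ⧸ VS hS a) := by omega
  have h5 : 2 ^ 4 ≤ 2 ^ finrank (ZMod 2) (Additive S.G ⧸ VS hS a) :=
    Nat.pow_le_pow_right (by norm_num) h4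
  omega

/-- all value groups have index at most eight -/
def I8 (S : QData) : Prop :=
  ∃ hS : IsQuat S, Finite S.G ∧ ∀ a : S.G, (VG hS a).index ≤ 8

/-- the quotients -/
theorem i8_quo {S : QData} (h : I8 S) (u : S.G) : I8 (quo S u) := by
  obtain ⟨hS, hfin, hlt⟩ := h
  let _ : Module (ZMod 2) (Additive S.G) := AddCommGroup.zmodModule (n := 2) (by
    intro x
    rw [two_smul]
    exact hS.exp2 x.toMul)
  have hfin' : Finite (Additive S.G) := hfin
  have hQ : IsQuat (quo S u) := quo_isQuat hS fun a e c =>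
    no_fail Pool.Agent.K3h25.ET2.stmFano (lk hS) (vq hS)
      (fun W hne hW => cod_two hS hne hW) (os hS) (fun v => finrank_of_index hS (hlt v.toMul)) _ _ _ _
  refine ⟨hQ, hfin, fun (a : S.G) => ?_⟩
  have hle : VG hS a ≤ @VG (quo S u) hQ a := fun x hx =>
    (quo_null hS).2 (nu_of_zero hS hx)
  have h1 := Subgroup.index_dvd_of_le hle
  have h0 : (VG hS a).index ≠ 0 := Subgroup.index_ne_zero_of_finite
  have h2 := Nat.le_of_dvd (Nat.pos_of_ne_zero h0) h1
  exact h2.trans (hlt a)

/-- **structures whose value groups have index at most eight are of elementary type** -/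
theorem elem_of_i8 (S : QData) (hS : IsQuat S) (hfin : Finite S.G)
    (h : ∀ a : S.G, (VG hS a).index ≤ 8) : Elem S := by
  have key : ∀ T, Iter S T → I8 T := by
    intro T hT
    induction hT with
    | refl => exact ⟨hS, hfin, h⟩
    | step T u _ ih => exact i8_quo ih u
  exact elem_of_iter _ S hfin (fun T hT => (key T hT).1) le_rfl

end Pool.Agent.Helper94.DN
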