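import Pool.Agent.Helper94.ETC.DN.E6

set_option autoImplicit false

/-! # Planes which contain an element of index at least sixteen -/

namespace Pool.Agent.Helper94.DN

open Module Submodule Pool.Agent.Helper94.I2
open Pool.Agent.K3h25.ET2 (par par_mem exists_par StmFano)

variable {V : Type} [AddCommGroup V] [Module (ZMod 2) V]
variable {A : V → Submodule (ZMod 2) (Dual (ZMod 2) V)}

theorem le_span_pair' [Finite V] {U : Submodule (ZMod 2) V} (hU : finrank (ZMod 2) U ≤ 2) {p q : V}
    (hp : p ∈ U) (hq : q ∈ U) (hp0 : p ≠ 0) (hq0 : q ≠ 0) (hpq : q ≠ p) :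
    U ≤ span (ZMod 2) {p, q} := by
  have hle : span (ZMod 2) {p, q} ≤ U := by
    rw [span_le]
    rintro y (rfl | hy)
    · exact hp
    · rw [Set.mem_singleton_iff.1 hy]; exact hq
  refine (Submodule.eq_of_le_of_finrank_le hle ?_).ge
  have h3 : span (ZMod 2) {p} < span (ZMod 2) {p, q} := by
    refine lt_of_le_of_ne (span_mono (by simp)) fun h => ?_
    have h4 : q ∈ span (ZMod 2) {p} := by
      rw [h]
      exact subset_span (by simp)
    obtain ⟨c, hc⟩ := mem_span_singleton.1 h4
    rcases z01 c with rfl | rfl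
    · exact hq0 (by rw [← hc, zero_smul])
    · exact hpq (by rw [← hc, one_smul])
  have h4 := Submodule.finrank_lt_finrank_of_lt h3
  have h5 : finrank (ZMod 2) (span (ZMod 2) {p}) = 1 := finrank_span_singleton hp0
  omega

/-- two elements one of which is not on the line -/
theorem sup_aux [Finite V] (hL : Lk A) {P L₀ : Submodule (ZMod 2) V} (hP : finrank (ZMod 2) P ≤ 4)
    (hLP : L₀ ≤ P) (hL2 : finrank (ZMod 2) L₀ ≤ 2) {F : V →ₗ[ZMod 2] Dual (ZMod 2) V}
    (hF : F ∈ Sy A L₀) (hn : ¬ ∃ k ∈ Sy A P, ∀ x ∈ L₀, k x = F x) {a b : V} (ha : a ∈ P)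
    (ha0 : a ≠ 0) (hb : b ∈ P) (hb' : b ∉ L₀) : Z A a ⊔ Z A b ≠ ⊤ := by
  apply sup_ne_top
  intro h0
  have e : a + (a + b) = b := by rw [← add_assoc, vadd, zero_add]
  apply hn
  by_cases haL : a ∈ L₀
  · obtain ⟨l, hl1, -⟩ := Submodule.exists_le_ker_of_notMem (p := (⊥ : Submodule (ZMod 2) V))
      (v := a) (by rw [mem_bot]; exact ha0)
    have l1 : l a = 1 := zne hl1
    refine ext_disj hL hP hLP hL2 (a := a) (w := a + b) (U := L₀ ⊓ LinearMap.ker l) ha
      (add_mem ha hb) inf_le_left ?_ (fun x hx => ?_) (by rw [e]; exact h0) hF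
    · intro hm
      have h1 := add_mem_of_notMem hm (fun h2 => hl1 h2.2)
      rw [e] at h1
      exact hb' h1.1
    · rcases z01 (l x) with h2 | h2
      · exact Or.inl ⟨hx, h2⟩
      · exact Or.inr ⟨haL, add_mem hx haL, by show l (x + a) = 0; rw [map_add, h2, l1, vadd]⟩
  · refine ext_disj hL hP hLP hL2 (a := a) (w := a + b) (U := L₀) ha (add_mem ha hb)
      le_rfl ?_ (fun x hx => Or.inl hx) (by rw [e]; exact h0) hF
    intro hm
    have h1 := add_mem_of_notMem hm haL
    rw [e] at h1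
    exact hb' h1

/-- **two elements of `P`** -/
theorem sup_all [Finite V] (hL : Lk A) {P L₀ : Submodule (ZMod 2) V} (hP : finrank (ZMod 2) P ≤ 4)
    (hLP : L₀ ≤ P) (hL2 : finrank (ZMod 2) L₀ ≤ 2) {F : V →ₗ[ZMod 2] Dual (ZMod 2) V}
    (hF : F ∈ Sy A L₀) (hn : ¬ ∃ k ∈ Sy A P, ∀ x ∈ L₀, k x = F x) {a b : V} (ha : a ∈ P)
    (ha0 : a ≠ 0) (hb : b ∈ P) (hb0 : b ≠ 0) (hab : b ≠ a) : Z A a ⊔ Z A b ≠ ⊤ := by
  by_cases hbL : b ∈ L₀
  swap
  · exact sup_aux hL hP hLP hL2 hF hn ha ha0 hb hbL
  by_cases haL : a ∈ L₀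
  swap
  · rw [sup_comm]
    exact sup_aux hL hP hLP hL2 hF hn hb hb0 ha haL
  apply sup_ne_top
  intro h0
  have e : a + (a + b) = b := by rw [← add_assoc, vadd, zero_add]
  apply hn
  have hw : a + b ∈ L₀ := add_mem haL hbL
  have hwm : a + b ∈ span (ZMod 2) {a + b} := mem_span_singleton_self _
  refine ext_disj hL hP hLP hL2 (a := a) (w := a + b) (U := span (ZMod 2) {a + b}) ha
    (add_mem ha hb) (span_le_of_mem hw) ?_ (fun x hx => ?_) (by rw [e]; exact h0) hF
  · rw [sup_idem]
    intro hm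
    obtain ⟨c, hc⟩ := mem_span_singleton.1 hm
    rcases z01 c with rfl | rfl
    · exact ha0 (by rw [← hc, zero_smul])
    · rw [one_smul] at hc
      exact hb0 (by simpa using hc)
  · obtain ⟨α, β, rfl⟩ := mem_span_pair.1 (le_span_pair' hL2 haL hbL ha0 hb0 hab hx)
    rcases z01 α with rfl | rfl <;> rcases z01 β with rfl | rfl
    · left
      simp
    · right
      refine ⟨haL, ?_⟩
      have : (0 : ZMod 2) • a + (1 : ZMod 2) • b + a = a + b := by
        rw [zero_smul, one_smul, zero_add, add_comm]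
      rw [this]
      exact hwm
    · right
      refine ⟨haL, ?_⟩
      have : (1 : ZMod 2) • a + (0 : ZMod 2) • b + a = 0 := by
        rw [zero_smul, one_smul, add_zero, vadd]
      rw [this]
      exact zero_mem _
    · left
      rw [one_smul, one_smul]
      exact hwm

theorem finrank_sup_lt [Finite V] {X Y : Submodule (ZMod 2) V} (h : X ⊔ Y ≠ ⊤) :
    finrank (ZMod 2) X + finrank (ZMod 2) Y + 1 ≤
      finrank (ZMod 2) V + finrank (ZMod 2) (X ⊓ Y : Submodule (ZMod 2) V) := by
  have h1 := Submodule.finrank_sup_add_finrank_inf_eq X Y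
  have h2 := Submodule.finrank_lt h
  omega

theorem three_pow {a b c : ℕ} (h1 : a + b ≤ 2) (h2 : a + c ≤ 2) (h3 : b + c ≤ 2) :
    2 ^ a + 2 ^ b + 2 ^ c ≤ 6 := by
  have ha : a ≤ 2 := by omega
  have hb : b ≤ 2 := by omega
  have hc : c ≤ 2 := by omega
  interval_cases a <;> interval_cases b <;> interval_cases c <;> omega

theorem three_pow' {a b c : ℕ} (h1 : a + b ≤ 1) (h2 : a + c ≤ 1) (h3 : b + c ≤ 1) :
    2 ^ a + 2 ^ b + 2 ^ c ≤ 4 := by
  have ha : a ≤ 1 := by omega
  have hb : b ≤ 1 := by omega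
  have hc : c ≤ 1 := by omega
  interval_cases a <;> interval_cases b <;> interval_cases c <;> omega

theorem four_pow {a b c d : ℕ} (ha : a ≤ 2) (hb : b ≤ 2) (hc : c ≤ 2) (hd : d ≤ 2)
    (h1 : a + b ≤ 3) (h2 : a + c ≤ 3) (h3 : a + d ≤ 3) (h4 : b + c ≤ 3) (h5 : b + d ≤ 3)
    (h6 : c + d ≤ 3) : 2 ^ a + 2 ^ b + 2 ^ c + 2 ^ d ≤ 10 := by
  interval_cases a <;> interval_cases b <;> interval_cases c <;> interval_cases d <;> omega

/-- the sizes of the seven subspaces -/
theorem num3 (s : Fin 7 → ℕ) (D : ℕ) (h1 : ∀ i, s i + 2 ≤ D)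
    (h2 : ∀ i j, i ≠ j → s i + s j + 2 ≤ D)
    (h3 : s 1 + s 3 + 4 ≤ D ∧ s 1 + s 5 + 4 ≤ D ∧ s 3 + s 5 + 4 ≤ D)
    (h4 : D = 4 → ¬ (s 0 = 1 ∧ s 2 = 1 ∧ s 4 = 1 ∧ s 6 = 1)) :
    4 * ∑ i, 2 ^ s i ≤ 2 ^ D + 24 := by
  obtain ⟨i, -, hi⟩ := Finset.exists_max_image (Finset.univ : Finset (Fin 7)) s ⟨0, by simp⟩
  have hmax : ∀ j, s j ≤ s i := fun j => hi j (Finset.mem_univ j)
  have hoth : ∀ j, j ≠ i → s i + s j + 2 ≤ D := fun j hj => h2 i j (Ne.symm hj)
  obtain ⟨e, he'⟩ := Nat.exists_eq_add_of_le (h1 i)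
  obtain ⟨a1, a2, a3⟩ := h3
  have hD : 4 ≤ D := by omega
  have hsum1 : (∀ j, s j ≤ 1) → ∑ j, 2 ^ s j = 7 + (s 0 + s 1 + s 2 + s 3 + s 4 + s 5 + s 6) := by
    intro hle
    rw [Fin.sum_univ_seven, pow_one' (hle 0), pow_one' (hle 1), pow_one' (hle 2),
      pow_one' (hle 3), pow_one' (hle 4), pow_one' (hle 5), pow_one' (hle 6)]
    ring
  have hsum2 : (∀ j, s j ≤ 2) →
      2 * ∑ j, 2 ^ s j ≤ 14 + 3 * (s 0 + s 1 + s 2 + s 3 + s 4 + s 5 + s 6) := by
    intro hle
    rw [Fin.sum_univ_seven]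
    have c0 := pow_two' (hle 0)
    have c1 := pow_two' (hle 1)
    have c2 := pow_two' (hle 2)
    have c3 := pow_two' (hle 3)
    have c4 := pow_two' (hle 4)
    have c5 := pow_two' (hle 5)
    have c6 := pow_two' (hle 6)
    omega
  rcases Nat.lt_or_ge e 3 with he | he
  · interval_cases e
    · have := sum_one s i 0 (fun j hj => by have := hoth j hj; omega)
      have e1 : 2 ^ D = 4 * 2 ^ s i := by rw [he', pow_add, pow_add]; ring
      omega
    · -- `e = 1`
      have e1 : 2 ^ D = 8 * 2 ^ s i := by rw [he', pow_add, pow_add]; ring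
      rcases Nat.lt_or_ge (s i) 2 with hs | hs
      · have hle : ∀ j, s j ≤ 1 := fun j => (hmax j).trans (by omega)
        have hsi : s i = 1 := by omega
        have hD4 : D = 4 := by omega
        rw [hsi] at e1
        rw [hsum1 hle, e1]
        have b0 := hle 0
        have b2 := hle 2
        have b4 := hle 4
        have b6 := hle 6
        have := h4 hD4
        omega
      · rcases Nat.lt_or_ge (s i) 3 with hs' | hs'
        · have hsi : s i = 2 := by omega
          have hle : ∀ j, s j ≤ 2 := fun j => (hmax j).trans (by omega)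
          have hD5 : D = 5 := by omega
          rw [hsi] at e1
          have p1 := three_pow' (a := s 1) (b := s 3) (c := s 5) (by omega) (by omega) (by omega)
          have p2 := four_pow (hle 0) (hle 2) (hle 4) (hle 6)
            (by have := h2 0 2 (by decide); omega) (by have := h2 0 4 (by decide); omega)
            (by have := h2 0 6 (by decide); omega) (by have := h2 2 4 (by decide); omega)
            (by have := h2 2 6 (by decide); omega) (by have := h2 4 6 (by decide); omega)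
          rw [Fin.sum_univ_seven, e1]
          omega
        · have := sum_one s i 1 (fun j hj => by have := hoth j hj; omega)
          have e2 : 8 ≤ 2 ^ s i := by
            calc 8 = 2 ^ 3 := by norm_num
              _ ≤ _ := Nat.pow_le_pow_right (by norm_num) hs'
          omega
    · -- `e = 2`
      have e1 : 2 ^ D = 16 * 2 ^ s i := by rw [he', pow_add, pow_add]; ring
      rcases Nat.lt_or_ge (s i) 3 with hs | hs
      · have hle : ∀ j, s j ≤ 2 := fun j => (hmax j).trans (by omega)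
        have hs2 := hsum2 hle
        have b0 := hmax 0
        have b2 := hmax 2
        have b4 := hmax 4
        have b6 := hmax 6
        interval_cases hsi : s i
        · omega
        · omega
        · have p1 := three_pow (a := s 1) (b := s 3) (c := s 5) (by omega) (by omega) (by omega)
          have q : ∀ j, s j ≤ 2 → 2 ^ s j ≤ 4 := fun j hj => by
            calc 2 ^ s j ≤ 2 ^ 2 := Nat.pow_le_pow_right (by norm_num) hj
              _ = 4 := by norm_num
          have q0 := q 0 b0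
          have q2 := q 2 b2
          have q4 := q 4 b4
          have q6 := q 6 b6
          rw [Fin.sum_univ_seven, e1]
          omega
      · have := sum_one s i 2 (fun j hj => by have := hoth j hj; omega)
        have e2 : 8 ≤ 2 ^ s i := by
          calc 8 = 2 ^ 3 := by norm_num
            _ ≤ _ := Nat.pow_le_pow_right (by norm_num) hs
        omega
  · have := sum_all s (s i) hmax
    have e1 : 2 ^ (s i + 2 + 3) ≤ 2 ^ D :=
      Nat.pow_le_pow_right (by norm_num) (by omega)
    have e2 : 2 ^ (s i + 2 + 3) = 32 * 2 ^ s i := by rw [pow_add, pow_add]; ring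
    omega

end Pool.Agent.Helper94.DN
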