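import Pool.Agent.Helper94.ETC.DN.E7

set_option autoImplicit false

/-! # Counting for planes which contain an element of index at least sixteen -/

namespace Pool.Agent.Helper94.DN

open Module Submodule Pool.Agent.Helper94.I2
open Pool.Agent.K3h25.ET2 (par par_mem exists_par StmFano)

variable {V : Type} [AddCommGroup V] [Module (ZMod 2) V]
variable {A : V → Submodule (ZMod 2) (Dual (ZMod 2) V)}

/-- the number of vectors orthogonal to a line of `P` -/
theorem half3 [Finite V] (hO : Os A) {x y z : V}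
    (hP : ∀ a : Fin 3 → ZMod 2, a ≠ 0 → par x y z a ∉ Ix A)
    (hT : ∀ a b : Fin 3 → ZMod 2, a ≠ 0 → b ≠ 0 → b ≠ a →
      Z A (par x y z a) ⊔ Z A (par x y z b) ≠ ⊤)
    (hx : finrank (ZMod 2) (Z A x) + 4 ≤ finrank (ZMod 2) V) :
    4 * {v : V | 2 ≤ finrank (ZMod 2)
      (span (ZMod 2) {x, y, z} ⊓ Z A v : Submodule (ZMod 2) V)}.ncard ≤ Nat.card V := by
  classical
  set R := {v : V | 2 ≤ finrank (ZMod 2)
      (span (ZMod 2) {x, y, z} ⊓ Z A v : Submodule (ZMod 2) V)} with hR
  set n := finrank (ZMod 2) V with hn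
  set m := finrank (ZMod 2) (V0 A x y z) with hm
  have hP' : ∀ a : Fin 3 → ZMod 2, a ≠ 0 → finrank (ZMod 2) (Z A (par x y z a)) + 2 ≤ n :=
    fun a ha => finrank_Z (hP a ha)
  have ex : par x y z ![1, 0, 0] = x := by simp [par]
  have hmi : ∀ i, m ≤ finrank (ZMod 2) (Vl A x y z i) := fun i => Submodule.finrank_mono (V0_le hO i)
  choose s hs using fun i => Nat.exists_eq_add_of_le (hmi i)
  -- the dimensions
  have hle : ∀ i, finrank (ZMod 2) (Vl A x y z i) + 2 ≤ n := by
    intro i
    have h1 : Vl A x y z i ≤ Z A (par x y z (pl i)) := inf_le_left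
    have h2 := Submodule.finrank_mono h1
    have h3 := hP' (pl i) (pq_ne i).1
    omega
  have hmn : m ≤ n := (hmi 0).trans (by have := hle 0; omega)
  obtain ⟨D, hD⟩ := Nat.exists_eq_add_of_le hmn
  have hpair : ∀ i j, i ≠ j → s i + s j + 2 ≤ D := by
    intro i j hij
    obtain ⟨a, ha0, hai, haj⟩ := pq_common i j
    have h1 := two_lines hO (x := x) (y := y) (z := z) hij hai haj
    have h2 := hP' a ha0
    have h3 := hs i
    have h4 := hs j
    omega
  have hpair' : ∀ i j, i ≠ j → On ![1, 0, 0] i → On ![1, 0, 0] j → s i + s j + 4 ≤ D := by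
    intro i j hij hai haj
    have h1 := two_lines hO (x := x) (y := y) (z := z) hij hai haj
    rw [ex] at h1
    have h3 := hs i
    have h4 := hs j
    omega
  have hnum := num3 s D (fun i => by have := hle i; have := hs i; omega) hpair
    ⟨hpair' 1 3 (by decide) (by decide) (by decide), hpair' 1 5 (by decide) (by decide) (by decide),
      hpair' 3 5 (by decide) (by decide) (by decide)⟩ (by
      rintro hD4 ⟨c0, c2, c4, c6⟩
      have k0 := hs 0
      have k2 := hs 2
      have k4 := hs 4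
      have k6 := hs 6
      obtain ⟨-, d1⟩ := point_eq hO (x := x) (y := y) (z := z) (n := n) (i := 0) (j := 2)
        (a := ![0, 0, 1]) (by decide) (by decide) (by decide) (by omega) (by omega) (by omega)
        (hP' _ (by decide))
      obtain ⟨-, d2⟩ := point_eq hO (x := x) (y := y) (z := z) (n := n) (i := 4) (j := 6)
        (a := ![1, 0, 1]) (by decide) (by decide) (by decide) (by omega) (by omega) (by omega)
        (hP' _ (by decide))
      have h1 := finrank_sup_lt (hT ![0, 0, 1] ![1, 0, 1] (by decide) (by decide) (by decide))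
      have h2 : Z A (par x y z ![0, 0, 1]) ⊓ Z A (par x y z ![1, 0, 1]) ≤ Z A x := by
        intro v hv
        have h3 := Z_add hO hv.1 hv.2
        rw [← map_add] at h3
        have e : (![0, 0, 1] + ![1, 0, 1] : Fin 3 → ZMod 2) = ![1, 0, 0] := by decide
        rw [e, ex] at h3
        exact h3
      have h3 := Submodule.finrank_mono h2
      omega)
  -- the sizes
  have cV : Nat.card V = 2 ^ m * 2 ^ D := by
    rw [Module.natCard_eq_pow_finrank (K := ZMod 2) (V := V), Nat.card_zmod, ← hn, hD, pow_add]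
  have c0 : Nat.card (V0 A x y z) = 2 ^ m := by
    rw [Module.natCard_eq_pow_finrank (K := ZMod 2) (V := V0 A x y z), Nat.card_zmod]
  have ci : ∀ i, Nat.card (Vl A x y z i) = 2 ^ m * 2 ^ s i := by
    intro i
    rw [Module.natCard_eq_pow_finrank (K := ZMod 2) (V := Vl A x y z i), Nat.card_zmod, hs i,
      pow_add]
  -- the covering
  have hcov : R ⊆ (V0 A x y z : Set V) ∪ ⋃ i : Fin 7, ((Vl A x y z i : Set V) \ V0 A x y z) := by
    intro v hv
    by_cases hv0 : v ∈ (V0 A x y z : Set V)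
    · exact Or.inl hv0
    · right
      obtain ⟨a, b, m1, m2, m3, m4, m5⟩ := exists_two (inf_le_left) hv
      obtain ⟨i, h1, h2⟩ := pq_cover a b m1 m2 m3
      have inK : ∀ c, Mt c a b → v ∈ Z A (par x y z c) := by
        rintro c (rfl | rfl | rfl)
        · exact (Z_comm hO).2 m4.2
        · exact (Z_comm hO).2 m5.2
        · rw [map_add]
          exact (Z_comm hO).2 (add_mem m4.2 m5.2)
      exact Set.mem_iUnion.2 ⟨i, ⟨inK _ h1, inK _ h2⟩, hv0⟩
  have h1 := Set.ncard_le_ncard hcov (Set.toFinite _)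
  have h2 := Set.ncard_union_le (V0 A x y z : Set V)
    (⋃ i : Fin 7, ((Vl A x y z i : Set V) \ V0 A x y z))
  have h3 := Set.ncard_iUnion_le_of_fintype
    (fun i : Fin 7 => ((Vl A x y z i : Set V) \ V0 A x y z))
  have h4 : ∀ i : Fin 7, ((Vl A x y z i : Set V) \ V0 A x y z).ncard + 2 ^ m = 2 ^ m * 2 ^ s i := by
    intro i
    have h5 := Set.ncard_sdiff_add_ncard_of_subset (s := (V0 A x y z : Set V))
      (t := (Vl A x y z i : Set V)) (V0_le hO i) (Set.toFinite _)
    have d0 : (V0 A x y z : Set V).ncard = Nat.card (V0 A x y z) := rfl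
    have d1 : (Vl A x y z i : Set V).ncard = Nat.card (Vl A x y z i) := rfl
    rw [d0, d1, c0, ci i] at h5
    exact h5
  have h5 : ∑ i : Fin 7, ((Vl A x y z i : Set V) \ V0 A x y z).ncard + 7 * 2 ^ m =
      2 ^ m * ∑ i : Fin 7, 2 ^ s i := by
    rw [Finset.mul_sum, ← Finset.sum_congr rfl (fun i _ => h4 i), Finset.sum_add_distrib]
    simp
  have d0 : (V0 A x y z : Set V).ncard = 2 ^ m := c0
  have h6 : R.ncard + 6 * 2 ^ m ≤ 2 ^ m * ∑ i : Fin 7, 2 ^ s i := by omega
  have h7 : 2 ^ m * (4 * ∑ i : Fin 7, 2 ^ s i) ≤ 2 ^ m * (2 ^ D + 24) :=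
    Nat.mul_le_mul_left _ hnum
  rw [cV]
  have h8 : 2 ^ m * (4 * ∑ i : Fin 7, 2 ^ s i) = 4 * (2 ^ m * ∑ i : Fin 7, 2 ^ s i) := by ring
  have h9 : 2 ^ m * (2 ^ D + 24) = 2 ^ m * 2 ^ D + 24 * 2 ^ m := by ring
  rw [h8, h9] at h7
  omega

/-- sizes of intersections -/
theorem card_two [Finite V] {a b : V} (h : Z A a ⊔ Z A b ≠ ⊤)
    (hl : 4 * Nat.card (Z A a) = Nat.card V) :
    Nat.card (Z A b) ≤ 2 * Nat.card (Z A a ⊓ Z A b : Submodule (ZMod 2) V) := by
  have key := card_sup' h
  rw [← hl] at key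
  have h0 : 0 < Nat.card (Z A a) := Nat.card_pos
  have h2 : Nat.card (Z A a) * (2 * Nat.card (Z A b)) ≤
      Nat.card (Z A a) * (4 * Nat.card (Z A a ⊓ Z A b : Submodule (ZMod 2) V)) := by
    calc _ = 2 * (Nat.card (Z A a) * Nat.card (Z A b)) := by ring
      _ ≤ _ := key
      _ = _ := by ring
  have h3 := Nat.le_of_mul_le_mul_left h2 h0
  omega

theorem card_two' [Finite V] {a b : V} (h : Z A a ⊔ Z A b ≠ ⊤)
    (hl : 8 * Nat.card (Z A a) = Nat.card V) :
    Nat.card (Z A b) ≤ 4 * Nat.card (Z A a ⊓ Z A b : Submodule (ZMod 2) V) := by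
  have key := card_sup' h
  rw [← hl] at key
  have h0 : 0 < Nat.card (Z A a) := Nat.card_pos
  have h2 : Nat.card (Z A a) * (2 * Nat.card (Z A b)) ≤
      Nat.card (Z A a) * (8 * Nat.card (Z A a ⊓ Z A b : Submodule (ZMod 2) V)) := by
    calc _ = 2 * (Nat.card (Z A a) * Nat.card (Z A b)) := by ring
      _ ≤ _ := key
      _ = _ := by ring
  have h3 := Nat.le_of_mul_le_mul_left h2 h0
  omega

theorem size_Z [Finite V] {a : V} (ha : a ∉ Ix A) : 4 * Nat.card (Z A a) = Nat.card V ∨
    8 * Nat.card (Z A a) = Nat.card V ∨ 16 * Nat.card (Z A a) ≤ Nat.card V := by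
  have h1 := finrank_Z ha
  rcases Nat.lt_or_ge (finrank (ZMod 2) V) (finrank (ZMod 2) (Z A a) + 3) with h2 | h2
  · left
    exact le_antisymm (card_mul (n := 2) (by omega)) (card_mul' (n := 2) (by omega))
  · rcases Nat.lt_or_ge (finrank (ZMod 2) V) (finrank (ZMod 2) (Z A a) + 4) with h3 | h3
    · right; left
      exact le_antisymm (card_mul (n := 3) (by omega)) (card_mul' (n := 3) (by omega))
    · right; right
      exact card_mul (n := 4) (by omega)

theorem finrank_pair [Finite V] {p q : V} (hp0 : p ≠ 0) (hq0 : q ≠ 0) (hpq : q ≠ p) :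
    finrank (ZMod 2) (span (ZMod 2) {p, q}) = 2 := by
  have h3 : span (ZMod 2) {p} < span (ZMod 2) {p, q} := by
    refine lt_of_le_of_ne (span_mono (by simp)) fun h => ?_
    have h4 : q ∈ span (ZMod 2) {p} := by
      rw [h]
      exact subset_span (by simp)
    obtain ⟨c, hc⟩ := mem_span_singleton.1 h4
    rcases z01 c with rfl | rfl
    · exact hq0 (by rw [← hc, zero_smul])
    · exact hpq (by rw [← hc, one_smul])
  have h4 := Submodule.finrank_lt_finrank_of_lt h3
  have h5 : finrank (ZMod 2) (span (ZMod 2) {p}) = 1 := finrank_span_singleton hp0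
  have h6 : finrank (ZMod 2) (span (ZMod 2) {p, q}) ≤ 2 := by
    classical
    refine (finrank_span_le_card _).trans ?_
    calc (({p, q} : Set V)).toFinset.card ≤ ({p, q} : Finset V).card := by
          apply Finset.card_le_card
          intro w hw
          simpa using hw
      _ ≤ 2 := Finset.card_le_two
  omega

/-- a third basis vector -/
theorem third [Finite V] {P : Submodule (ZMod 2) V} (hP3 : finrank (ZMod 2) P = 3) {a b : V}
    (ha : a ∈ P) (hb : b ∈ P) (ha0 : a ≠ 0) (hb0 : b ≠ 0) (hab : b ≠ a) :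
    ∃ x ∈ P, x ∉ span (ZMod 2) {a, b} ∧ P ≤ span (ZMod 2) {a, b, x} := by
  have hU : span (ZMod 2) {a, b} ≤ P := by
    rw [span_le]
    rintro w (rfl | hw)
    · exact ha
    · rw [Set.mem_singleton_iff.1 hw]; exact hb
  have h2 := finrank_pair ha0 hb0 hab
  have hlt : span (ZMod 2) {a, b} < P := lt_of_le_of_ne hU fun e => by
    rw [e] at h2
    omega
  obtain ⟨x, hx, hx'⟩ := SetLike.exists_of_lt hlt
  refine ⟨x, hx, hx', ?_⟩
  have h3 : span (ZMod 2) {a, b} ⊔ span (ZMod 2) {x} = P :=
    Submodule.eq_of_le_of_finrank_le (sup_le hU (span_le_of_mem hx))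
      (by rw [finrank_sup_one hx', h2, hP3])
  rw [← h3]
  exact le_span le_rfl in1 in2 in3

/-- the data of a plane: all indices are at least four, two elements have value groups which do not
span, `u` has index at least sixteen -/
theorem cov_u [Finite V] (hO : Os A) {P : Submodule (ZMod 2) V} (hP3 : finrank (ZMod 2) P = 3)
    (hI : ∀ a ∈ P, a ≠ 0 → a ∉ Ix A)
    (hT : ∀ a ∈ P, a ≠ 0 → ∀ b ∈ P, b ≠ 0 → b ≠ a → Z A a ⊔ Z A b ≠ ⊤)
    {u : V} (hu : u ∈ P) (hu0 : u ≠ 0) (hz : 16 * Nat.card (Z A u) ≤ Nat.card V) :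
    16 * (Cov A P).ncard ≤ 11 * Nat.card V ∧ ((∃ a ∈ P, a ≠ 0 ∧ 4 * Nat.card (Z A a) = Nat.card V) ∨
      16 * (Cov A P).ncard ≤ 10 * Nat.card V) := by
  have hpos : 0 < Nat.card (Z A u) := Nat.card_pos
  by_cases hlt : ∃ a ∈ P, a ≠ 0 ∧ 4 * Nat.card (Z A a) = Nat.card V
  · refine ⟨?_, Or.inl hlt⟩
    obtain ⟨a, ha, ha0, hl⟩ := hlt
    have hua : u ≠ a := by
      rintro rfl
      omega
    obtain ⟨x, hx, hx', hsp⟩ := third hP3 ha hu ha0 hu0 hua
    have maU : a ∈ span (ZMod 2) {a, u} := subset_span (by simp)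
    have muU : u ∈ span (ZMod 2) {a, u} := subset_span (by simp)
    have h1 := cov_le hO a u x hsp
    have n1 := nadd muU hx'
    have n2 := nadd maU hx'
    have n3 := nadd maU n1
    have hau : a + u ≠ 0 := fun h0 => hua (aez.1 h0).symm
    have i1 := card_two (hT a ha ha0 (a + u) (add_mem ha hu) hau (add_ne' hu0)) hl
    rw [Z_inf_add hO] at i1
    have i2 := card_two (hT a ha ha0 (a + x) (add_mem ha hx) (ne0 n2) (add_ne' (ne0 hx'))) hl
    rw [Z_inf_add hO] at i2
    have i3 := card_two (hT a ha ha0 (a + (u + x)) (add_mem ha (add_mem hu hx)) (ne0 n3)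
      (add_ne' (ne0 n1))) hl
    rw [Z_inf_add hO] at i3
    have hx4 : 8 * Nat.card (Z A x) ≤ Nat.card V ∨ 8 * Nat.card (Z A (u + x)) ≤ Nat.card V := by
      rcases size_Z (hI x hx (ne0 hx')) with h2 | h2 | h2
      · right
        have i4 := card_two (hT x hx (ne0 hx') (u + x) (add_mem hu hx) (ne0 n1) (add_ne hu0)) h2
        have h3 : Z A x ⊓ Z A (u + x) ≤ Z A u := by
          rw [add_comm u x, Z_inf_add hO]
          exact inf_le_right
        have h4 : Nat.card (Z A x ⊓ Z A (u + x) : Submodule (ZMod 2) V) ≤ Nat.card (Z A u) :=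
          Set.ncard_le_ncard (s := ((Z A x ⊓ Z A (u + x) : Submodule (ZMod 2) V) : Set V))
            (t := (Z A u : Set V)) h3 (Set.toFinite _)
        omega
      · left; omega
      · left; omega
    have s1 := size_Z (hI x hx (ne0 hx'))
    have s2 := size_Z (hI (u + x) (add_mem hu hx) (ne0 n1))
    omega
  · push Not at hlt
    have h8 : ∀ a ∈ P, a ≠ 0 → 8 * Nat.card (Z A a) ≤ Nat.card V := by
      intro a ha ha0
      rcases size_Z (hI a ha ha0) with h2 | h2 | h2
      · exact absurd h2 (hlt a ha ha0)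
      · omega
      · omega
    have key : 16 * (Cov A P).ncard ≤ 10 * Nat.card V := by
      obtain ⟨x, hx, hx0, hxu⟩ := exists_pair_ne (U := P) (by omega) hu0
      obtain ⟨y, hy, hy', hsp⟩ := third hP3 hu hx hu0 hx0 hxu
      have muU : u ∈ span (ZMod 2) {u, x} := subset_span (by simp)
      have mxU : x ∈ span (ZMod 2) {u, x} := subset_span (by simp)
      have h1 := cov_le hO u x y hsp
      have n1 := nadd mxU hy'
      have n2 := nadd muU hy'
      have n3 := nadd muU n1
      have hux : u + x ≠ 0 := fun h0 => hxu (aez.1 h0).symm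
      have D : ∀ t ∈ P, t ≠ 0 → u + t ≠ 0 → 16 * (Nat.card (Z A t) + Nat.card (Z A (u + t))) ≤
          3 * Nat.card V + 32 * Nat.card (Z A u ⊓ Z A t : Submodule (ZMod 2) V) := by
        intro t ht ht0 hut0
        have k1 := h8 t ht ht0
        have k2 := h8 (u + t) (add_mem hu ht) hut0
        rcases size_Z (hI t ht ht0) with h2 | h2 | h2
        · omega
        · have i4 := card_two' (hT t ht ht0 (u + t) (add_mem hu ht) hut0 (add_ne hu0)) h2
          rw [add_comm u t, Z_inf_add hO, inf_comm] at i4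
          rw [add_comm u t] at k2
          rw [add_comm u t]
          rcases size_Z (hI (t + u) (add_mem ht hu) (by rw [add_comm]; exact hut0)) with h3 | h3 | h3
          · omega
          · omega
          · omega
        · omega
      have D1 := D x hx hx0 hux
      have D2 := D y hy (ne0 hy') (ne0 n2)
      have D3 := D (x + y) (add_mem hx hy) (ne0 n1) (ne0 n3)
      omega
    exact ⟨by omega, Or.inr key⟩

end Pool.Agent.Helper94.DN
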