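import Pool.Agent.Helper94.ETC.DN.E8

set_option autoImplicit false

/-! # Few value groups of large index -/

namespace Pool.Agent.Helper94.DN

open Module Submodule Pool.Agent.H315R3.ETC Pool.Agent.Helper94.ETC
open Pool.Agent.Helper94.I2 (Sy Sy_anti Lk Ex Ix VS Aq mem_VS mem_Aq lk cod_two)
open Pool.Agent.K3h25.ET2 (par par_mem exists_par StmFano)

section
variable {V : Type} [AddCommGroup V] [Module (ZMod 2) V]
variable {A : V → Submodule (ZMod 2) (Dual (ZMod 2) V)}

/-- **counting** -/
theorem count3 [Finite V] (hFano : StmFano) (hL : Lk A) (hV : Vq A) (hC : Cd A) (hO : Os A)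
    {x y u z : V} (hx : 4 ≤ finrank (ZMod 2) (A x)) (hn : ¬ Ex A (span (ZMod 2) {x, y, u}) z) :
    5 * Nat.card V ≤ 8 * {v : V | 3 ≤ finrank (ZMod 2) (A v)}.ncard ∧
      7 * Nat.card V ≤ 32 * {v : V | 4 ≤ finrank (ZMod 2) (A v)}.ncard := by
  classical
  set P := span (ZMod 2) {x, y, u} with hP
  have hP3 : 3 ≤ finrank (ZMod 2) P := by
    by_contra hlt
    exact hn (ex_small hL (by omega) z)
  have hP3' : finrank (ZMod 2) P ≤ 3 := by
    refine (finrank_span_le_card _).trans ?_
    calc (({x, y, u} : Set V)).toFinset.card ≤ ({x, y, u} : Finset V).card := by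
          apply Finset.card_le_card
          intro w hw
          simpa using hw
      _ ≤ 3 := Finset.card_le_three
  have hinj : ∀ a, a ≠ 0 → par x y u a ≠ 0 := by
    intro a ha h0
    have hr : LinearMap.range (par x y u) = P := by
      ext w
      constructor
      · rintro ⟨a, rfl⟩
        exact par_mem x y u a
      · intro hw
        exact exists_par hw
    have h1 := LinearMap.finrank_range_add_finrank_ker (par x y u)
    rw [hr, Module.finrank_fin_fun] at h1
    have h2 : LinearMap.ker (par x y u) = ⊥ := by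
      rw [← Submodule.finrank_eq_zero (R := ZMod 2)]
      omega
    exact ha ((LinearMap.ker_eq_bot'.1 h2) a h0)
  have hP4 : finrank (ZMod 2) (P ⊔ span (ZMod 2) {z} : Submodule (ZMod 2) V) ≤ 4 := by
    have h1 := Submodule.finrank_add_le_finrank_add_finrank P (span (ZMod 2) {z})
    have h2 : finrank (ZMod 2) (span (ZMod 2) {z}) ≤ 1 := (finrank_span_le_card _).trans (by simp)
    omega
  unfold Ex at hn
  push Not at hn
  obtain ⟨F₀, hF₀, hn⟩ := hn
  have hn₀ : ¬ ∃ k ∈ Sy A (P ⊔ span (ZMod 2) {z}), ∀ p ∈ P, k p = F₀ p := by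
    rintro ⟨k, hk, h⟩
    obtain ⟨w, hw, h'⟩ := hn k hk
    exact h' (h w hw)
  by_cases hE : ∀ p ∈ P, ∀ q ∈ P, ∀ F ∈ Sy A (span (ZMod 2) {p, q}),
        ∃ k ∈ Sy A (P ⊔ span (ZMod 2) {z}), ∀ w ∈ span (ZMod 2) {p, q}, k w = F w
  · have h1 := count_one hFano hL hV hC hO hF₀ hP3 hn₀ hE
    have h2 := count_four hFano hL hV hC hO hF₀ hP3 hn₀ hE
    omega
  · push Not at hE
    obtain ⟨p, hp, q, hq, F, hF, hnF⟩ := hE
    have hle : span (ZMod 2) {p, q} ≤ P := by
      rw [span_le]
      rintro w (rfl | hw)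
      · exact hp
      · rw [Set.mem_singleton_iff.1 hw]; exact hq
    have h2 : finrank (ZMod 2) (span (ZMod 2) {p, q}) ≤ 2 := by
      refine (finrank_span_le_card _).trans ?_
      calc (({p, q} : Set V)).toFinset.card ≤ ({p, q} : Finset V).card := by
            apply Finset.card_le_card
            intro w hw
            simpa using hw
        _ ≤ 2 := Finset.card_le_two
    have hnF' : ¬ ∃ k ∈ Sy A (P ⊔ span (ZMod 2) {z}), ∀ w ∈ span (ZMod 2) {p, q}, k w = F w := by
      rintro ⟨k, hk, h⟩
      obtain ⟨w, hw, h'⟩ := hnF k hk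
      exact h' (h w hw)
    -- no element of index at most two
    have hI : ∀ a ∈ P, a ≠ 0 → a ∉ Ix A := fun a ha ha0 hIx =>
      hnF' (ext_four hL hP4 (hle.trans le_sup_left) h2 (mem_sup_left ha) ha0 hIx hF)
    have hT : ∀ a ∈ P, a ≠ 0 → ∀ b ∈ P, b ≠ 0 → b ≠ a → Z A a ⊔ Z A b ≠ ⊤ :=
      fun a ha ha0 b hb hb0 hab => sup_all hL hP4 (hle.trans le_sup_left) h2 hF hnF'
        (mem_sup_left ha) ha0 (mem_sup_left hb) hb0 hab
    have hpinj : ∀ a b : Fin 3 → ZMod 2, b ≠ a → par x y u b ≠ par x y u a := by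
      intro a b hab h
      apply hinj (b + a) (fun h0 => hab ?_)
      · rw [map_add, h, Pool.Agent.Helper94.I2.vadd]
      · have h1 : b = -a := eq_neg_of_add_eq_zero_left h0
        rw [h1]
        ext i
        exact ZMod.neg_eq_self_mod_two _
    obtain ⟨W, h, hPW, hhP, hM⟩ := exists_max hF₀ (z := z) hn₀
    have hWc : 8 * Nat.card W ≤ Nat.card V := card_mul (n := 3) (hM.codim hC)
    have hxZ : finrank (ZMod 2) (Z A x) + 4 ≤ finrank (ZMod 2) V := by
      have h2 := Subspace.finrank_add_finrank_dualCoannihilator_eq (A x)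
      have h3 : finrank (ZMod 2) (Z A x) = finrank (ZMod 2) (A x).dualCoannihilator := rfl
      omega
    constructor
    · have hR := half3 hO (x := x) (y := y) (z := u)
        (fun a ha => hI _ (par_mem x y u a) (hinj a ha))
        (fun a b ha hb hab => hT _ (par_mem x y u a) (hinj a ha) _ (par_mem x y u b) (hinj b hb)
          (hpinj a b hab)) hxZ
      set R := {v : V | 2 ≤ finrank (ZMod 2)
        (span (ZMod 2) {x, y, u} ⊓ Z A v : Submodule (ZMod 2) V)} with hRdef
      have h3 : (Set.univ : Set V) ⊆ (W : Set V) ∪ R ∪ {v : V | 3 ≤ finrank (ZMod 2) (A v)} := by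
        intro v _
        by_cases hv : v ∈ W
        · exact Or.inl (Or.inl hv)
        by_cases hv' : v ∈ R
        · exact Or.inl (Or.inr hv')
        right
        have h4 := hM.finrank_le hL hV hPW hv
        have h5 : ¬ 2 ≤ finrank (ZMod 2) (P ⊓ (A v).dualCoannihilator : Submodule (ZMod 2) V) := hv'
        show 3 ≤ finrank (ZMod 2) (A v)
        omega
      have h4 := Set.ncard_le_ncard h3 (Set.toFinite _)
      rw [Set.ncard_univ] at h4
      have h5 := Set.ncard_union_le ((W : Set V) ∪ R) {v : V | 3 ≤ finrank (ZMod 2) (A v)}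
      have h6 := Set.ncard_union_le (W : Set V) R
      have h7 : (W : Set V).ncard = Nat.card W := rfl
      omega
    · have hxm : x ∈ P := in1
      have hx0 : x ≠ 0 := by
        have e1 : par x y u ![1, 0, 0] = x := by simp [par]
        have := hinj ![1, 0, 0] (by decide)
        rwa [e1] at this
      obtain ⟨c1, c2⟩ := cov_u hO (P := P) (by omega) hI hT hxm hx0 (card_mul (n := 4) hxZ)
      have h3 : (Set.univ : Set V) ⊆ ((W : Set V) ∪ Cov A P) ∪
          {v : V | 4 ≤ finrank (ZMod 2) (A v)} := by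
        intro v _
        by_cases hv : v ∈ W
        · exact Or.inl (Or.inl hv)
        by_cases hv' : v ∈ Cov A P
        · exact Or.inl (Or.inr hv')
        right
        have h4 := hM.finrank_le hL hV hPW hv
        have h5 : P ⊓ (A v).dualCoannihilator = ⊥ := by
          rw [Submodule.eq_bot_iff]
          rintro w ⟨hw1, hw2⟩
          by_contra hw0
          exact hv' ⟨w, hw1, hw0, (Z_comm hO).1 hw2⟩
        rw [h5, finrank_bot, zero_add] at h4
        show 4 ≤ finrank (ZMod 2) (A v)
        omega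
      have h4 := Set.ncard_le_ncard h3 (Set.toFinite _)
      rw [Set.ncard_univ] at h4
      have h5 := Set.ncard_union_le ((W : Set V) ∪ Cov A P) {v : V | 4 ≤ finrank (ZMod 2) (A v)}
      have h6 := Set.ncard_union_add_ncard_inter (W : Set V) (Cov A P) (Set.toFinite _)
        (Set.toFinite _)
      have h7 : (W : Set V).ncard = Nat.card W := rfl
      rcases c2 with ⟨a, ha, ha0, hl⟩ | c2
      · have h8 : Nat.card (Z A a ⊓ W : Submodule (ZMod 2) V) ≤
            ((W : Set V) ∩ Cov A P).ncard :=
          Set.ncard_le_ncard (s := ((Z A a ⊓ W : Submodule (ZMod 2) V) : Set V))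
            (t := (W : Set V) ∩ Cov A P) (fun v hv => ⟨hv.2, a, ha, ha0, hv.1⟩) (Set.toFinite _)
        have h9 : Nat.card W ≤ 4 * Nat.card (Z A a ⊓ W : Submodule (ZMod 2) V) := by
          have key := card_sup (Z A a) W
          rw [← hl] at key
          have h0 : 0 < Nat.card (Z A a) := Nat.card_pos
          have h2 : Nat.card (Z A a) * (Nat.card W) ≤
              Nat.card (Z A a) * (4 * Nat.card (Z A a ⊓ W : Submodule (ZMod 2) V)) := by
            calc _ ≤ _ := key
              _ = _ := by ring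
          exact Nat.le_of_mul_le_mul_left h2 h0
        omega
      · omega

end

/-- few value groups have index larger than four, or larger than eight -/
def Dn3 (S : QData) : Prop :=
  ∃ hS : IsQuat S, Finite S.G ∧ (8 * {a : S.G | 4 < (VG hS a).index}.ncard < 5 * Nat.card S.G ∨
    32 * {a : S.G | 8 < (VG hS a).index}.ncard < 7 * Nat.card S.G)

theorem index_gt' {S : QData} (hS : IsQuat S) [Module (ZMod 2) (Additive S.G)] [Finite S.G]
    {a : Additive S.G} (h : 4 ≤ finrank (ZMod 2) (Aq hS a)) : 8 < (VG hS a.toMul).index := by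
  by_contra hlt
  have := finrank_of_index hS (a := a) (by omega)
  omega

theorem ncard_quo {S : QData} (hS : IsQuat S) (hfin : Finite S.G) {u : S.G}
    (hQ : IsQuat (quo S u)) (n : ℕ) :
    {a : (quo S u).G | n < (VG hQ a).index}.ncard ≤ {a : S.G | n < (VG hS a).index}.ncard := by
  refine Set.ncard_le_ncard (α := S.G) (s := {a : (quo S u).G | n < (VG hQ a).index})
    (t := {a : S.G | n < (VG hS a).index}) (fun (a : S.G) ha => ?_) (Set.toFinite _)
  have hle : VG hS a ≤ @VG (quo S u) hQ a := fun x hx =>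
    (quo_null hS).2 (nu_of_zero hS hx)
  have h1 := Subgroup.index_dvd_of_le hle
  have h0 : (VG hS a).index ≠ 0 := Subgroup.index_ne_zero_of_finite
  have h2 := Nat.le_of_dvd (Nat.pos_of_ne_zero h0) h1
  exact lt_of_lt_of_le ha h2

theorem dn3_quo {S : QData} (h : Dn3 S) {u : S.G} (hQ : IsQuat (quo S u)) : Dn3 (quo S u) := by
  obtain ⟨hS, hfin, hlt⟩ := h
  refine ⟨hQ, hfin, ?_⟩
  have h4 := ncard_quo hS hfin hQ 4
  have h8 := ncard_quo hS hfin hQ 8
  have hc : Nat.card (quo S u).G = Nat.card S.G := rfl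
  rcases hlt with h | h
  · left; omega
  · right; omega

theorem elem_of_dn3 : ∀ (n : ℕ) (S : QData), Dn3 S →
    {a : S.G | ∃ y, S.q a y ≠ S.zero}.ncard ≤ n → Elem S := by
  intro n
  induction n using Nat.strong_induction_on with
  | _ n ih =>
    intro S hD hn
    obtain ⟨hS, hfin, hlt⟩ := id hD
    by_cases hg : ∃ u : S.G, (∃ y, S.q u y ≠ S.zero) ∧ IsQuat (quo S u)
    · obtain ⟨u, hu, hQ⟩ := hg
      have hlt' : {a : (quo S u).G | ∃ y, (quo S u).q a y ≠ (quo S u).zero}.ncard <
          {a : S.G | ∃ y, S.q a y ≠ S.zero}.ncard := by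
        refine Set.ncard_lt_ncard (t := {a : S.G | ∃ y, S.q a y ≠ S.zero})
          ⟨fun a ha => ?_, fun hle => ?_⟩ (Set.toFinite _)
        · obtain ⟨y, hy⟩ := ha
          exact ⟨y, fun h0 => hy ((quo_null hS).2 (nu_of_zero hS h0))⟩
        · obtain ⟨y, hy⟩ := hle hu
          exact hy ((quo_null hS).2 ⟨y, rfl⟩)
      have hE := ih _ (lt_of_lt_of_le hlt' hn) (quo S u) (dn3_quo hD hQ) le_rfl
      obtain ⟨B, _, β, hB, hm, hq⟩ := add_of_quo hS u hQ hE
      refine Pool.Agent.Results.MP_d26ff6_al.LargeIndicesDense.result.{0, 0}.1 S hS hfin B β hB hm hq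
        ?_
      have e : ∀ n, (Pool.Agent.Results.MP_d26ff6_al.LargeIndicesDense.E S hS n).ncard =
          {a : S.G | n < (VG hS a).index}.ncard := fun _ => rfl
      rw [e, e]
      rcases hlt with h | h
      · left; exact h
      · right; omega
    · push Not at hg
      by_contra hne
      let _ : Module (ZMod 2) (Additive S.G) := AddCommGroup.zmodModule (n := 2) (by
        intro x
        rw [two_smul]
        exact hS.exp2 x.toMul)
      have hfin' : Finite (Additive S.G) := hfin
      -- an element of index at least sixteen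
      obtain ⟨v, hv⟩ : ∃ v : Additive S.G, 4 ≤ finrank (ZMod 2) (Aq hS v) := by
        by_contra hcon
        push Not at hcon
        apply hne
        refine elem_of_quo hS hfin fun u hu => absurd ?_ (hg u hu)
        exact quo_isQuat hS fun a e c =>
          no_fail Pool.Agent.K3h25.ET2.stmFano (lk hS) (vq hS)
            (fun W hne hW => cod_two hS hne hW) (os hS)
            (fun v => by have := hcon v; omega) _ _ _ _
      -- its quotient gives a symbol which does not extend
      obtain ⟨a, e, c, hn'⟩ : ∃ a e c, ¬ Ex (Aq hS) (span (ZMod 2) {v, a, e}) c := by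
        by_contra hcon
        push Not at hcon
        refine hg v.toMul ?_ (quo_isQuat hS hcon)
        by_contra hcon'
        push Not at hcon'
        have h0 : Aq hS v = ⊥ := by
          rw [eq_bot_iff]
          intro f hf
          rw [mem_bot]
          exact LinearMap.ext fun x => (mem_Aq hS).1 hf x (hcon' x.toMul)
        rw [h0, finrank_bot] at hv
        omega
      obtain ⟨h1, h2⟩ := count3 Pool.Agent.K3h25.ET2.stmFano (lk hS) (vq hS)
        (fun W hne hW => cod_two hS hne hW) (os hS) hv hn'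
      have hsub : {v : Additive S.G | 3 ≤ finrank (ZMod 2) (Aq hS v)}.ncard ≤
          {a : S.G | 4 < (VG hS a).index}.ncard :=
        Set.ncard_le_ncard (s := {v : Additive S.G | 3 ≤ finrank (ZMod 2) (Aq hS v)})
          (t := {a : S.G | 4 < (VG hS a).index}) (fun v hv => index_gt hS hv) (Set.toFinite _)
      have hsub' : {v : Additive S.G | 4 ≤ finrank (ZMod 2) (Aq hS v)}.ncard ≤
          {a : S.G | 8 < (VG hS a).index}.ncard :=
        Set.ncard_le_ncard (s := {v : Additive S.G | 4 ≤ finrank (ZMod 2) (Aq hS v)})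
          (t := {a : S.G | 8 < (VG hS a).index}) (fun v hv => index_gt' hS hv) (Set.toFinite _)
      have hcard : Nat.card (Additive S.G) = Nat.card S.G := rfl
      rcases hlt with h | h <;> omega

/-- **few value groups of large index** -/
theorem elem_of_dense3 (S : QData) (hS : IsQuat S) (hfin : Finite S.G)
    (h : 8 * {a : S.G | 4 < (VG hS a).index}.ncard < 5 * Nat.card S.G ∨
      32 * {a : S.G | 8 < (VG hS a).index}.ncard < 7 * Nat.card S.G) : Elem S :=
  elem_of_dn3 _ S ⟨hS, hfin, h⟩ le_rfl

end Pool.Agent.Helper94.DN
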