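import Pool.Agent.Helper94.ETC.I2.Lin

set_option autoImplicit false

/-! # Extension of symbols to subspaces of dimension four -/

namespace Pool.Agent.Helper94.DN

open Module Submodule Pool.Agent.Helper94.I2

variable {V : Type} [AddCommGroup V] [Module (ZMod 2) V]
variable {A : V → Submodule (ZMod 2) (Dual (ZMod 2) V)}

theorem span_le_of_mem {U : Submodule (ZMod 2) V} {z : V} (hz : z ∈ U) :
    span (ZMod 2) {z} ≤ U := by
  rw [span_le, Set.singleton_subset_iff]; exact hz

/-- a subspace of dimension at most two is spanned by two elements -/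
theorem exists_pair [Finite V] {U : Submodule (ZMod 2) V} (hU : finrank (ZMod 2) U ≤ 2) :
    ∃ u v, U = span (ZMod 2) {u, v} := by
  by_cases h0 : U = ⊥
  · exact ⟨0, 0, by rw [h0]; simp⟩
  obtain ⟨u, huU, hu⟩ := Submodule.exists_mem_ne_zero_of_ne_bot h0
  have h1 : span (ZMod 2) {u} ≤ U := span_le_of_mem huU
  by_cases h2 : span (ZMod 2) {u} = U
  · exact ⟨u, u, by rw [← h2]; simp⟩
  obtain ⟨v, hvU, hv⟩ := SetLike.exists_of_lt (lt_of_le_of_ne h1 h2)
  refine ⟨u, v, (Submodule.eq_of_le_of_finrank_le ?_ ?_).symm⟩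
  · rw [span_le]
    rintro y (rfl | hy)
    · exact huU
    · rw [Set.mem_singleton_iff.1 hy]; exact hvU
  · have h3 : span (ZMod 2) {u} < span (ZMod 2) {u, v} := by
      refine lt_of_le_of_ne (span_mono (by simp)) fun h => hv ?_
      rw [h]
      exact subset_span (by simp)
    have h4 := Submodule.finrank_lt_finrank_of_lt h3
    have h5 : finrank (ZMod 2) (span (ZMod 2) {u}) = 1 := finrank_span_singleton hu
    omega

/-- symbols on subspaces of dimension at most two extend to one more element -/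
theorem ex_small [Finite V] (hL : Lk A) {U : Submodule (ZMod 2) V}
    (hU : finrank (ZMod 2) U ≤ 2) (z : V) : Ex A U z := by
  obtain ⟨u, v, rfl⟩ := exists_pair hU
  exact ex_pair hL u v z

/-- symbols extend to subspaces of dimension at most three -/
theorem ext_three [Finite V] (hL : Lk A) {P : Submodule (ZMod 2) V}
    (hP : finrank (ZMod 2) P ≤ 3) : ∀ (n : ℕ) (U : Submodule (ZMod 2) V), U ≤ P →
      finrank (ZMod 2) P ≤ finrank (ZMod 2) U + n → ∀ F ∈ Sy A U,
        ∃ F' ∈ Sy A P, ∀ w ∈ U, F' w = F w := by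
  intro n
  induction n with
  | zero =>
    intro U hU hn F hF
    have : U = P := Submodule.eq_of_le_of_finrank_le hU (by omega)
    exact ⟨F, by rw [← this]; exact hF, fun _ _ => rfl⟩
  | succ n ih =>
    intro U hU hn F hF
    by_cases hUP : U = P
    · exact ⟨F, by rw [← hUP]; exact hF, fun _ _ => rfl⟩
    have hlt := lt_of_le_of_ne hU hUP
    obtain ⟨g, hgP, hg⟩ := SetLike.exists_of_lt hlt
    have h1 := Submodule.finrank_lt_finrank_of_lt hlt
    obtain ⟨F1, hF1, e1⟩ := ex_small hL (U := U) (by omega) g F hF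
    have h2 : U < U ⊔ span (ZMod 2) {g} := by
      refine lt_of_le_of_ne le_sup_left fun h => hg ?_
      rw [h]
      exact mem_sup_right (mem_span_singleton_self g)
    have h3 := Submodule.finrank_lt_finrank_of_lt h2
    obtain ⟨F2, hF2, e2⟩ := ih (U ⊔ span (ZMod 2) {g}) (sup_le hU (span_le_of_mem hgP)) (by omega)
      F1 hF1
    exact ⟨F2, hF2, fun w hw => by rw [e2 w (mem_sup_left hw), e1 w hw]⟩

/-- extension from `U` to a subspace of dimension four which contains an element of index at most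
two outside `U` -/
theorem ext_four_aux [Finite V] (hL : Lk A) {P U : Submodule (ZMod 2) V}
    (hP : finrank (ZMod 2) P ≤ 4) (hU : U ≤ P) {a : V} (haP : a ∈ P) (haU : a ∉ U)
    (ha : a ∈ Ix A) {F : V →ₗ[ZMod 2] Dual (ZMod 2) V} (hF : F ∈ Sy A U) :
    ∃ k ∈ Sy A P, ∀ w ∈ U, k w = F w := by
  obtain ⟨l, hl1, hl2⟩ := Submodule.exists_le_ker_of_notMem haU
  have l1 : l a = 1 := zne hl1
  set H := P ⊓ LinearMap.ker l with hH
  have hHP : H < P := by
    refine lt_of_le_of_ne inf_le_left fun h => ?_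
    have h1 : a ∈ H := h ▸ haP
    exact hl1 h1.2
  have h1 := Submodule.finrank_lt_finrank_of_lt hHP
  have hUH : U ≤ H := le_inf hU hl2
  obtain ⟨F1, hF1, e1⟩ := ext_three hL (P := H) (by omega) (finrank (ZMod 2) H) U hUH (by omega)
    F hF
  obtain ⟨F2, hF2, e2⟩ := ex_ix hL ha H F1 hF1
  have h2 : P ≤ H ⊔ span (ZMod 2) {a} := by
    intro x hx
    rcases z01 (l x) with h | h
    · exact mem_sup_left ⟨hx, h⟩
    · have h3 : x + a ∈ H := ⟨add_mem hx haP, by show l (x + a) = 0; rw [map_add, h, l1, vadd]⟩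
      have h4 : x = x + a + a := by rw [add_assoc, vadd, add_zero]
      rw [h4]
      exact add_mem (mem_sup_left h3) (mem_sup_right (mem_span_singleton_self a))
  exact ⟨F2, Sy_anti h2 hF2, fun w hw => by rw [e2 w (hUH hw), e1 w hw]⟩

/-- **symbols on subspaces of dimension at most two extend to the subspaces of dimension four which
contain an element of index at most two** -/
theorem ext_four [Finite V] (hL : Lk A) {P U : Submodule (ZMod 2) V}
    (hP : finrank (ZMod 2) P ≤ 4) (hU : U ≤ P) (hU2 : finrank (ZMod 2) U ≤ 2) {a : V} (haP : a ∈ P)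
    (ha0 : a ≠ 0) (ha : a ∈ Ix A) {F : V →ₗ[ZMod 2] Dual (ZMod 2) V} (hF : F ∈ Sy A U) :
    ∃ k ∈ Sy A P, ∀ w ∈ U, k w = F w := by
  by_cases haU : a ∈ U
  swap
  · exact ext_four_aux hL hP hU haP haU ha hF
  obtain ⟨l, hl1, -⟩ := Submodule.exists_le_ker_of_notMem (p := (⊥ : Submodule (ZMod 2) V))
    (v := a) (by rw [mem_bot]; exact ha0)
  have l1 : l a = 1 := zne hl1
  set U' := U ⊓ LinearMap.ker l with hU'
  have haU' : a ∉ U' := fun h => hl1 h.2
  obtain ⟨k, hk, ek⟩ := ext_four_aux hL hP (inf_le_left.trans hU : U' ≤ P) haP haU' ha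
    (Sy_anti (inf_le_left : U' ≤ U) hF)
  -- the difference
  set D := F + k with hD
  have hDS : D ∈ Sy A U := (Sy A U).add_mem hF (Sy_anti hU hk)
  have hD0 : ∀ w ∈ U', D w = 0 := by
    intro w hw
    rw [hD, LinearMap.add_apply, ek w hw, vadd]
  have split : ∀ w ∈ U, w ∈ U' ∨ w + a ∈ U' := by
    intro w hw
    rcases z01 (l w) with h | h
    · exact Or.inl ⟨hw, h⟩
    · exact Or.inr ⟨add_mem hw haU, by show l (w + a) = 0; rw [map_add, h, l1, vadd]⟩
  have fin : ∀ κ ∈ Sy A P, (∀ w ∈ U', κ w = 0) → κ a = D a →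
      ∃ k ∈ Sy A P, ∀ w ∈ U, k w = F w := by
    intro κ hκ h0 hκa
    refine ⟨k + κ, (Sy A P).add_mem hk hκ, fun w hw => ?_⟩
    have h1 : κ w = D w := by
      rcases split w hw with h | h
      · rw [h0 w h, hD0 w h]
      · have h2 := h0 _ h
        have h3 := hD0 _ h
        rw [map_add] at h2 h3
        rw [aez.1 h2, aez.1 h3, hκa]
    rw [LinearMap.add_apply, h1, hD, LinearMap.add_apply, add_comm (F w), ← add_assoc, vadd,
      zero_add]
  by_cases hDa : D a = 0
  · exact fin 0 (Sy A P).zero_mem (fun _ _ => rfl) hDa.symm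
  by_contra hcon
  -- the functional at `a`
  obtain ⟨Λ, -, hΛ⟩ := ha
  have hDΛ : D a = Λ := (hΛ _ (hDS a haU)).resolve_left hDa
  have star : ∀ κ ∈ Sy A P, (∀ w ∈ U', κ w = 0) → κ a = 0 := by
    intro κ hκ h0
    rcases hΛ _ (hκ a haP) with h | h
    · exact h
    · exact absurd (fin κ hκ h0 (h.trans hDΛ.symm)) hcon
  have key : ∀ z ∈ P, l z = 0 → D a ∈ A (z + a) := by
    intro z hzP hlz
    by_cases hzU : z ∈ U
    · have h1 := hDS _ (add_mem hzU haU)
      rw [map_add, hD0 z ⟨hzU, hlz⟩, zero_add] at h1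
      exact h1
    · obtain ⟨D', hD', e'⟩ := ex_small hL hU2 z D hDS
      have hzm : z ∈ U ⊔ span (ZMod 2) {z} := mem_sup_right (mem_span_singleton_self z)
      have hle : U' ⊔ span (ZMod 2) {z} ≤ U ⊔ span (ZMod 2) {z} :=
        sup_le_sup_right inf_le_left _
      have hna : a ∉ U' ⊔ span (ZMod 2) {z} := by
        intro h
        obtain ⟨w, hw, y, hy, h1⟩ := mem_sup.1 h
        obtain ⟨c, rfl⟩ := mem_span_singleton.1 hy
        rcases z01 c with rfl | rfl
        · rw [zero_smul, add_zero] at h1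
          exact haU' (h1 ▸ hw)
        · rw [one_smul] at h1
          apply hzU
          have h2 : z = w + a := by rw [← h1, ← add_assoc, vadd, zero_add]
          rw [h2]
          exact add_mem hw.1 haU
      obtain ⟨k', hk', ek'⟩ := ext_four_aux hL hP
        (sup_le (inf_le_left.trans hU) (span_le_of_mem hzP) : U' ⊔ span (ZMod 2) {z} ≤ P)
        haP hna ⟨Λ, by rw [← hDΛ]; exact hDS a haU, hΛ⟩ (Sy_anti hle hD')
      have h1 : k' a = 0 := star k' hk' fun w hw => by
        rw [ek' w (mem_sup_left hw), e' w hw.1, hD0 w hw]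
      have h2 := hk' _ (add_mem hzP haP)
      rw [map_add, h1, add_zero, ek' z (mem_sup_right (mem_span_singleton_self z))] at h2
      have h3 := hD' _ (add_mem hzm (mem_sup_left haU))
      rw [map_add, e' a haU] at h3
      have h4 := (A (z + a)).add_mem h2 h3
      rwa [← add_assoc, vadd, zero_add] at h4
  apply hDa
  have hκ : l.smulRight (D a) ∈ Sy A P := by
    intro x hx
    rw [LinearMap.smulRight_apply]
    rcases z01 (l x) with h | h
    · rw [h, zero_smul]; exact zero_mem _
    · rw [h, one_smul]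
      have h1 := key (x + a) (add_mem hx haP) (by rw [map_add, h, l1, vadd])
      rwa [add_assoc, vadd, add_zero] at h1
  have h1 := star _ hκ fun w hw => by
    rw [LinearMap.smulRight_apply, show l w = 0 from hw.2, zero_smul]
  rw [LinearMap.smulRight_apply, l1, one_smul] at h1
  exact h1

end Pool.Agent.Helper94.DN
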