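import Mathlib

set_option autoImplicit false

/-! # A numerical lemma -/

namespace Pool.Agent.Helper94.DN

theorem sum_one (s : Fin 7 → ℕ) (i : Fin 7) (t : ℕ) (h : ∀ j, j ≠ i → s j ≤ t) :
    ∑ j, 2 ^ s j ≤ 2 ^ s i + 6 * 2 ^ t := by
  rw [← Finset.add_sum_erase Finset.univ (fun j => 2 ^ s j) (Finset.mem_univ i)]
  refine Nat.add_le_add_left ?_ _
  calc ∑ j ∈ Finset.univ.erase i, 2 ^ s j ≤ ∑ j ∈ Finset.univ.erase i, 2 ^ t :=
        Finset.sum_le_sum fun j hj =>
          Nat.pow_le_pow_right (by norm_num) (h j (Finset.ne_of_mem_erase hj))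
    _ = 6 * 2 ^ t := by
        rw [Finset.sum_const, Finset.card_erase_of_mem (Finset.mem_univ i)]
        simp

theorem sum_all (s : Fin 7 → ℕ) (t : ℕ) (h : ∀ j, s j ≤ t) : ∑ j, 2 ^ s j ≤ 7 * 2 ^ t := by
  calc ∑ j, 2 ^ s j ≤ ∑ j : Fin 7, 2 ^ t :=
        Finset.sum_le_sum fun j _ => Nat.pow_le_pow_right (by norm_num) (h j)
    _ = 7 * 2 ^ t := by simp

theorem pow_one' {n : ℕ} (h : n ≤ 1) : 2 ^ n = 1 + n := by
  interval_cases n <;> norm_num

theorem pow_two' {n : ℕ} (h : n ≤ 2) : 2 * 2 ^ n ≤ 2 + 3 * n := by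
  interval_cases n <;> norm_num

/-- the sizes of the seven subspaces -/
theorem num (s : Fin 7 → ℕ) (D : ℕ) (h1 : ∀ i, s i + 2 ≤ D)
    (h2 : ∀ i j, i ≠ j → s i + s j + 2 ≤ D)
    (h3 : s 1 + s 3 + 3 ≤ D ∧ s 1 + s 5 + 3 ≤ D ∧ s 3 + s 5 + 3 ≤ D)
    (h4 : D = 4 → s 0 = 1 → s 2 = 1 → s 4 = 1 → s 6 = 1 → s 1 = s 3 ∧ s 1 = s 5) :
    16 * ∑ i, 2 ^ s i ≤ 5 * 2 ^ D + 96 := by
  obtain ⟨i, -, hi⟩ := Finset.exists_max_image (Finset.univ : Finset (Fin 7)) s ⟨0, by simp⟩
  have hmax : ∀ j, s j ≤ s i := fun j => hi j (Finset.mem_univ j)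
  have hD : 2 ≤ D := by have := h1 i; omega
  have hoth : ∀ j, j ≠ i → s i + s j + 2 ≤ D := fun j hj => h2 i j (Ne.symm hj)
  obtain ⟨e, he'⟩ := Nat.exists_eq_add_of_le (h1 i)
  obtain ⟨a1, a2, a3⟩ := h3
  -- `D = s i + 2 + e`
  rcases Nat.lt_or_ge e 3 with he | he
  · interval_cases e
    · have := sum_one s i 0 (fun j hj => by have := hoth j hj; omega)
      have e1 : 2 ^ D = 4 * 2 ^ s i := by rw [he', pow_add, pow_add]; ring
      omega
    · -- `e = 1`
      have e1 : 2 ^ D = 8 * 2 ^ s i := by rw [he', pow_add, pow_add]; ring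
      rcases Nat.lt_or_ge (s i) 2 with hs | hs
      · have hle : ∀ j, s j ≤ 1 := fun j => (hmax j).trans (by omega)
        have hsum : ∑ j, 2 ^ s j = 7 + (s 0 + s 1 + s 2 + s 3 + s 4 + s 5 + s 6) := by
          rw [Fin.sum_univ_seven, pow_one' (hle 0), pow_one' (hle 1), pow_one' (hle 2),
            pow_one' (hle 3), pow_one' (hle 4), pow_one' (hle 5), pow_one' (hle 6)]
          ring
        have b0 := hle 0
        have b1 := hle 1
        have b2 := hle 2
        have b3 := hle 3
        have b4 := hle 4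
        have b5 := hle 5
        have b6 := hle 6
        rcases Nat.eq_zero_or_pos (s i) with h0 | h0
        · have := sum_all s 0 (fun j => by have := hmax j; omega)
          rw [h0] at e1
          omega
        · have hsi : s i = 1 := by omega
          have hD4 : D = 4 := by omega
          rw [hsi] at e1
          rw [hsum, e1]
          by_cases hall : s 0 = 1 ∧ s 2 = 1 ∧ s 4 = 1 ∧ s 6 = 1
          · obtain ⟨c0, c2, c4, c6⟩ := hall
            obtain ⟨d1, d2⟩ := h4 hD4 c0 c2 c4 c6
            omega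
          · omega
      · have := sum_one s i 1 (fun j hj => by have := hoth j hj; omega)
        have e2 : 4 ≤ 2 ^ s i := by
          calc 4 = 2 ^ 2 := by norm_num
            _ ≤ _ := Nat.pow_le_pow_right (by norm_num) hs
        omega
    · -- `e = 2`
      have e1 : 2 ^ D = 16 * 2 ^ s i := by rw [he', pow_add, pow_add]; ring
      rcases Nat.lt_or_ge (s i) 3 with hs | hs
      · interval_cases hsi : s i
        · have := sum_all s 0 hmax
          omega
        · have := sum_all s 1 hmax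
          omega
        · have hsum : 2 * ∑ j, 2 ^ s j ≤ 14 + 3 * (s 0 + s 1 + s 2 + s 3 + s 4 + s 5 + s 6) := by
            rw [Fin.sum_univ_seven]
            have c0 := pow_two' (hmax 0)
            have c1 := pow_two' (hmax 1)
            have c2 := pow_two' (hmax 2)
            have c3 := pow_two' (hmax 3)
            have c4 := pow_two' (hmax 4)
            have c5 := pow_two' (hmax 5)
            have c6 := pow_two' (hmax 6)
            omega
          have b0 := hmax 0
          have b2 := hmax 2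
          have b4 := hmax 4
          have b6 := hmax 6
          omega
      · have := sum_one s i 2 (fun j hj => by have := hoth j hj; omega)
        have e2 : 8 ≤ 2 ^ s i := by
          calc 8 = 2 ^ 3 := by norm_num
            _ ≤ _ := Nat.pow_le_pow_right (by norm_num) hs
        omega
  · have := sum_all s (s i) hmax
    have e1 : 2 ^ (s i + 2 + 3) ≤ 2 ^ D :=
      Nat.pow_le_pow_right (by norm_num) (by omega)
    have e2 : 2 ^ (s i + 2 + 3) = 32 * 2 ^ s i := by rw [pow_add, pow_add]; ring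
    omega

end Pool.Agent.Helper94.DN
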