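import Pool.Agent.Helper94.ETC.DN.Count
import Pool.Agent.Helper94.ETC.DN.Num

set_option autoImplicit false

/-! # The vectors orthogonal to a line of a plane -/

namespace Pool.Agent.Helper94.DN

open Module Submodule Pool.Agent.Helper94.I2
open Pool.Agent.K3h25.ET2 (par par_mem exists_par StmFano)

variable {V : Type} [AddCommGroup V] [Module (ZMod 2) V]
variable {A : V → Submodule (ZMod 2) (Dual (ZMod 2) V)}

theorem pq_span : ∀ i j, i ≠ j → ∀ a : Fin 3 → ZMod 2, ∃ c1 c2 c3 c4 : ZMod 2,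
    a = c1 • pl i + c2 • ql i + c3 • pl j + c4 • ql j := by
  decide +kernel

/-- `a` is on the line `i` -/
def On (a : Fin 3 → ZMod 2) (i : Fin 7) : Prop := a = pl i ∨ a = ql i ∨ a = pl i + ql i

instance (a : Fin 3 → ZMod 2) (i : Fin 7) : Decidable (On a i) := by unfold On; infer_instance

theorem on_line : ∀ (i : Fin 7) (a b : Fin 3 → ZMod 2), On a i → On b i → a ≠ b →
    Mt (pl i) a b ∧ Mt (ql i) a b := by
  decide +kernel

theorem pq_common : ∀ i j, ∃ a : Fin 3 → ZMod 2, a ≠ 0 ∧ On a i ∧ On a j := by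
  decide +kernel

/-- the vectors orthogonal to the line `i` -/
def Vl (A : V → Submodule (ZMod 2) (Dual (ZMod 2) V)) (x y z : V) (i : Fin 7) :
    Submodule (ZMod 2) V := Z A (par x y z (pl i)) ⊓ Z A (par x y z (ql i))

/-- the vectors orthogonal to the plane -/
def V0 (A : V → Submodule (ZMod 2) (Dual (ZMod 2) V)) (x y z : V) : Submodule (ZMod 2) V :=
  Z A x ⊓ Z A y ⊓ Z A z

theorem mem_V0 (hO : Os A) {x y z v : V} :
    v ∈ V0 A x y z ↔ ∀ a, par x y z a ∈ Z A v := by
  constructor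
  · rintro ⟨⟨h1, h2⟩, h3⟩ a
    exact add_mem (add_mem (smul_mem _ _ ((Z_comm hO).1 h1)) (smul_mem _ _ ((Z_comm hO).1 h2)))
      (smul_mem _ _ ((Z_comm hO).1 h3))
  · intro h
    have e1 : par x y z ![1, 0, 0] = x := by simp [par]
    have e2 : par x y z ![0, 1, 0] = y := by simp [par]
    have e3 : par x y z ![0, 0, 1] = z := by simp [par]
    have h1 := h ![1, 0, 0]
    have h2 := h ![0, 1, 0]
    have h3 := h ![0, 0, 1]
    rw [e1] at h1
    rw [e2] at h2
    rw [e3] at h3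
    exact ⟨⟨(Z_comm hO).1 h1, (Z_comm hO).1 h2⟩, (Z_comm hO).1 h3⟩

theorem V0_le (hO : Os A) {x y z : V} (i : Fin 7) : V0 A x y z ≤ Vl A x y z i := by
  intro v hv
  rw [mem_V0 hO] at hv
  exact ⟨(Z_comm hO).2 (hv _), (Z_comm hO).2 (hv _)⟩

theorem Vl_inf (hO : Os A) {x y z : V} {i j : Fin 7} (hij : i ≠ j) :
    Vl A x y z i ⊓ Vl A x y z j = V0 A x y z := by
  apply le_antisymm _ (le_inf (V0_le hO i) (V0_le hO j))
  rintro v ⟨⟨h1, h2⟩, ⟨h3, h4⟩⟩
  rw [mem_V0 hO]
  intro a
  obtain ⟨c1, c2, c3, c4, rfl⟩ := pq_span i j hij a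
  simp only [map_add, map_smul]
  exact add_mem (add_mem (add_mem (smul_mem _ _ ((Z_comm hO).1 h1))
    (smul_mem _ _ ((Z_comm hO).1 h2))) (smul_mem _ _ ((Z_comm hO).1 h3)))
    (smul_mem _ _ ((Z_comm hO).1 h4))

theorem Vl_le (hO : Os A) {x y z : V} {i : Fin 7} {a : Fin 3 → ZMod 2} (ha : On a i) :
    Vl A x y z i ≤ Z A (par x y z a) := by
  rintro v ⟨h1, h2⟩
  rcases ha with rfl | rfl | rfl
  · exact h1
  · exact h2
  · rw [map_add]
    exact (Z_comm hO).2 (add_mem ((Z_comm hO).1 h1) ((Z_comm hO).1 h2))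

theorem finrank_Z [Finite V] {a : V} (ha : a ∉ Ix A) :
    finrank (ZMod 2) (Z A a) + 2 ≤ finrank (ZMod 2) V := by
  have h1 : 2 ≤ finrank (ZMod 2) (A a) := by
    by_contra hlt
    apply ha
    have h2 : finrank (ZMod 2) (A a) ≤ 1 := by omega
    rw [finrank_le_one_iff] at h2
    obtain ⟨l, hl⟩ := h2
    refine ⟨l, l.2, fun f hf => ?_⟩
    obtain ⟨c, hc⟩ := hl ⟨f, hf⟩
    have h3 : f = c • (l : Dual (ZMod 2) V) := by
      have := congrArg Subtype.val hc
      exact this.symm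
    rcases z01 c with rfl | rfl
    · left; rw [h3, zero_smul]
    · right; rw [h3, one_smul]
  have h2 := Subspace.finrank_add_finrank_dualCoannihilator_eq (A a)
  have h3 : finrank (ZMod 2) (Z A a) = finrank (ZMod 2) (A a).dualCoannihilator := rfl
  omega

/-- two lines -/
theorem two_lines [Finite V] (hO : Os A) {x y z : V} {i j : Fin 7} (hij : i ≠ j)
    {a : Fin 3 → ZMod 2} (hi : On a i) (hj : On a j) :
    finrank (ZMod 2) (Vl A x y z i) + finrank (ZMod 2) (Vl A x y z j) ≤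
      finrank (ZMod 2) (Z A (par x y z a)) + finrank (ZMod 2) (V0 A x y z) := by
  have h1 := Submodule.finrank_sup_add_finrank_inf_eq (Vl A x y z i) (Vl A x y z j)
  rw [Vl_inf hO hij] at h1
  have h2 := Submodule.finrank_mono (sup_le (Vl_le hO hi) (Vl_le hO hj) :
    Vl A x y z i ⊔ Vl A x y z j ≤ Z A (par x y z a))
  omega

/-- a point whose two lines have orthogonal spaces of codimension three is spanned by these if the
plane has codimension four -/
theorem point_eq [Finite V] (hO : Os A) {x y z : V} {n : ℕ} {i j : Fin 7} (hij : i ≠ j)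
    {a : Fin 3 → ZMod 2} (hi : On a i) (hj : On a j)
    (h1 : n ≤ finrank (ZMod 2) (Vl A x y z i) + 3) (h2 : n ≤ finrank (ZMod 2) (Vl A x y z j) + 3)
    (h3 : finrank (ZMod 2) (V0 A x y z) + 4 ≤ n)
    (h4 : finrank (ZMod 2) (Z A (par x y z a)) + 2 ≤ n) :
    Vl A x y z i ⊔ Vl A x y z j = Z A (par x y z a) ∧
      finrank (ZMod 2) (Z A (par x y z a)) + 2 = n := by
  have k1 := Submodule.finrank_sup_add_finrank_inf_eq (Vl A x y z i) (Vl A x y z j)
  rw [Vl_inf hO hij] at k1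
  have k2 : Vl A x y z i ⊔ Vl A x y z j ≤ Z A (par x y z a) := sup_le (Vl_le hO hi) (Vl_le hO hj)
  have k3 := Submodule.finrank_mono k2
  exact ⟨Submodule.eq_of_le_of_finrank_le k2 (by omega), by omega⟩

/-- the lines through the first point have equally many orthogonal vectors if the four other lines
have orthogonal spaces of codimension three -/
theorem same [Finite V] (hO : Os A) {x y z : V} {n : ℕ} (hn : n = finrank (ZMod 2) V)
    (hP : ∀ a : Fin 3 → ZMod 2, a ≠ 0 → finrank (ZMod 2) (Z A (par x y z a)) + 2 ≤ n)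
    (h0 : n ≤ finrank (ZMod 2) (Vl A x y z 0) + 3) (h2 : n ≤ finrank (ZMod 2) (Vl A x y z 2) + 3)
    (h4 : n ≤ finrank (ZMod 2) (Vl A x y z 4) + 3) (h6 : n ≤ finrank (ZMod 2) (Vl A x y z 6) + 3)
    (h3 : finrank (ZMod 2) (V0 A x y z) + 4 ≤ n) :
    finrank (ZMod 2) (Vl A x y z 1) = finrank (ZMod 2) (Vl A x y z 3) ∧
      finrank (ZMod 2) (Vl A x y z 1) = finrank (ZMod 2) (Vl A x y z 5) := by
  obtain ⟨e1, d1⟩ := point_eq hO (x := x) (y := y) (z := z) (n := n) (i := 0) (j := 2)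
    (a := ![0, 0, 1]) (by decide) (by decide) (by decide) h0 h2 h3 (hP _ (by decide))
  obtain ⟨e2, d2⟩ := point_eq hO (x := x) (y := y) (z := z) (n := n) (i := 4) (j := 6)
    (a := ![1, 0, 1]) (by decide) (by decide) (by decide) h4 h6 h3 (hP _ (by decide))
  obtain ⟨e3, d3⟩ := point_eq hO (x := x) (y := y) (z := z) (n := n) (i := 0) (j := 4)
    (a := ![0, 1, 0]) (by decide) (by decide) (by decide) h0 h4 h3 (hP _ (by decide))
  obtain ⟨e4, d4⟩ := point_eq hO (x := x) (y := y) (z := z) (n := n) (i := 2) (j := 6)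
    (a := ![1, 1, 0]) (by decide) (by decide) (by decide) h2 h6 h3 (hP _ (by decide))
  obtain ⟨e5, d5⟩ := point_eq hO (x := x) (y := y) (z := z) (n := n) (i := 0) (j := 6)
    (a := ![0, 1, 1]) (by decide) (by decide) (by decide) h0 h6 h3 (hP _ (by decide))
  obtain ⟨e6, d6⟩ := point_eq hO (x := x) (y := y) (z := z) (n := n) (i := 2) (j := 4)
    (a := ![1, 1, 1]) (by decide) (by decide) (by decide) h2 h4 h3 (hP _ (by decide))
  have line : ∀ (i : Fin 7) (a b : Fin 3 → ZMod 2), On a i → On b i → a ≠ b →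
      (Vl A x y z i) = Z A (par x y z a) ⊓ Z A (par x y z b) := by
    intro i a b ha hb hab
    apply le_antisymm (le_inf (Vl_le hO ha) (Vl_le hO hb))
    rintro v ⟨h1, h2⟩
    have k1 := (Z_comm hO).1 h1
    have k2 := (Z_comm hO).1 h2
    have k3 := add_mem k1 k2
    rw [← map_add] at k3
    obtain ⟨m1, m2⟩ := on_line i a b ha hb hab
    constructor
    · rcases m1 with h | h | h <;> rw [h]
      · exact h1
      · exact h2
      · exact (Z_comm hO).2 k3
    · rcases m2 with h | h | h <;> rw [h]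
      · exact h1
      · exact h2
      · exact (Z_comm hO).2 k3
  have s1 := Submodule.finrank_sup_add_finrank_inf_eq (Z A (par x y z ![0, 0, 1]))
    (Z A (par x y z ![1, 0, 1]))
  have s3 := Submodule.finrank_sup_add_finrank_inf_eq (Z A (par x y z ![0, 1, 0]))
    (Z A (par x y z ![1, 1, 0]))
  have s5 := Submodule.finrank_sup_add_finrank_inf_eq (Z A (par x y z ![0, 1, 1]))
    (Z A (par x y z ![1, 1, 1]))
  rw [← line 1 _ _ (by decide) (by decide) (by decide), ← e1, ← e2] at s1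
  rw [← line 3 _ _ (by decide) (by decide) (by decide), ← e3, ← e4] at s3
  rw [← line 5 _ _ (by decide) (by decide) (by decide), ← e5, ← e6] at s5
  rw [e1, e2] at s1
  rw [e3, e4] at s3
  rw [e5, e6] at s5
  have t1 : Z A (par x y z ![0, 0, 1]) ⊔ Z A (par x y z ![1, 0, 1]) =
      Z A (par x y z ![0, 1, 0]) ⊔ Z A (par x y z ![1, 1, 0]) := by
    rw [← e1, ← e2, ← e3, ← e4]
    exact sup_sup_sup_comm _ _ _ _
  have t2 : Z A (par x y z ![0, 0, 1]) ⊔ Z A (par x y z ![1, 0, 1]) =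
      Z A (par x y z ![0, 1, 1]) ⊔ Z A (par x y z ![1, 1, 1]) := by
    rw [← e1, ← e2, ← e5, ← e6]
    ac_rfl
  rw [← t1] at s3
  rw [← t2] at s5
  constructor <;> omega

end Pool.Agent.Helper94.DN
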