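import Pool.Agent.Helper94.ETC.DN.QQ

set_option autoImplicit false

/-! # Structures in which many value groups have index at most four -/

namespace Pool.Agent.Helper94.DN

open Module Submodule Pool.Agent.H315R3.ETC Pool.Agent.Helper94.ETC
open Pool.Agent.Helper94.I2 (Sy Sy_anti Lk Ex VS Aq mem_VS mem_Aq lk cod_two)

theorem index_gt {S : QData} (hS : IsQuat S) [Module (ZMod 2) (Additive S.G)] [Finite S.G]
    {a : Additive S.G} (h : 3 ≤ finrank (ZMod 2) (Aq hS a)) : 4 < (VG hS a.toMul).index := by
  have hfin' : Finite (Additive S.G) := ‹Finite S.G›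
  have e1 : (VS hS a).toAddSubgroup = Subgroup.toAddSubgroup (VG hS a.toMul) := rfl
  have e2 : Nat.card (Additive S.G ⧸ VS hS a) = (VS hS a).toAddSubgroup.index := rfl
  rw [e1, Subgroup.index_toAddSubgroup] at e2
  rw [← e2, Module.natCard_eq_pow_finrank (K := ZMod 2) (V := Additive S.G ⧸ VS hS a),
    Nat.card_zmod]
  have h1 := Submodule.finrank_quotient_add_finrank (VS hS a)
  have h2 := Subspace.finrank_add_finrank_dualAnnihilator_eq (VS hS a)
  have h3 : finrank (ZMod 2) (Aq hS a) = finrank (ZMod 2) (VS hS a).dualAnnihilator := rfl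
  have h4 : 3 ≤ finrank (ZMod 2) (Additive S.G ⧸ VS hS a) := by omega
  calc 4 < 2 ^ 3 := by norm_num
    _ ≤ _ := Nat.pow_le_pow_right (by norm_num) h4

/-- fewer than three eighths of the value groups have index larger than four -/
def Dn (S : QData) : Prop :=
  ∃ hS : IsQuat S, Finite S.G ∧ 8 * {a : S.G | 4 < (VG hS a).index}.ncard < 3 * Nat.card S.G

/-- the quotients -/
theorem dn_quo {S : QData} (h : Dn S) (u : S.G) : Dn (quo S u) := by
  obtain ⟨hS, hfin, hlt⟩ := h
  let _ : Module (ZMod 2) (Additive S.G) := AddCommGroup.zmodModule (n := 2) (by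
    intro x
    rw [two_smul]
    exact hS.exp2 x.toMul)
  have hfin' : Finite (Additive S.G) := hfin
  have hQ : IsQuat (quo S u) := by
    refine quo_isQuat hS fun a e c => ?_
    by_contra hn
    have h1 := count Pool.Agent.K3h25.ET2.stmFano (lk hS) (vq hS)
      (fun W hne hW => cod_two hS hne hW) (os hS) hn
    have h2 : {v : Additive S.G | 3 ≤ finrank (ZMod 2) (Aq hS v)}.ncard ≤
        {a : S.G | 4 < (VG hS a).index}.ncard :=
      Set.ncard_le_ncard (s := {v : Additive S.G | 3 ≤ finrank (ZMod 2) (Aq hS v)})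
        (t := {a : S.G | 4 < (VG hS a).index}) (fun v hv => index_gt hS hv) (Set.toFinite _)
    have h3 : Nat.card (Additive S.G) = Nat.card S.G := rfl
    omega
  refine ⟨hQ, hfin, lt_of_le_of_lt (Nat.mul_le_mul_left 8 ?_) hlt⟩
  refine Set.ncard_le_ncard (α := S.G) (s := {a : (quo S u).G | 4 < (VG hQ a).index})
    (t := {a : S.G | 4 < (VG hS a).index}) (fun (a : S.G) ha => ?_) (Set.toFinite _)
  have hle : VG hS a ≤ @VG (quo S u) hQ a := fun x hx =>
    (quo_null hS).2 (nu_of_zero hS hx)
  have h1 := Subgroup.index_dvd_of_le hle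
  have h0 : (VG hS a).index ≠ 0 := Subgroup.index_ne_zero_of_finite
  have h2 := Nat.le_of_dvd (Nat.pos_of_ne_zero h0) h1
  exact lt_of_lt_of_le ha h2

/-- **fewer than three eighths of the value groups have index larger than four** -/
theorem elem_of_dense (S : QData) (hS : IsQuat S) (hfin : Finite S.G)
    (h : 8 * {a : S.G | 4 < (VG hS a).index}.ncard < 3 * Nat.card S.G) : Elem S := by
  have key : ∀ T, Iter S T → Dn T := by
    intro T hT
    induction hT with
    | refl => exact ⟨hS, hfin, h⟩
    | step T u _ ih => exact dn_quo ih u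
  exact elem_of_iter _ S hfin (fun T hT => (key T hT).1) le_rfl

end Pool.Agent.Helper94.DN
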