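import Pool.Agent.Helper94.ETC.I2.Main
import Pool.Agent.Helper94.ETC.Quo
import Pool.Agent.Helper94.ETC.DN.Count

set_option autoImplicit false

/-! # The quotient by an element is quaternionic if symbols on subgroups of order eight extend -/

namespace Pool.Agent.Helper94.DN

open Module Submodule Pool.Agent.H315R3.ETC Pool.Agent.Helper94.ETC
open Pool.Agent.Helper94.I2 (Sy Sy_anti Lk Ex VS Aq mem_VS mem_Aq)
open Pool.Agent.K3h25.ET2 (par par_mem exists_par)

theorem exists_factor' {K M N : Type} [AddCommGroup K] [AddCommGroup M] [AddCommGroup N]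
    [Module (ZMod 2) K] [Module (ZMod 2) M] [Module (ZMod 2) N] (T : K →ₗ[ZMod 2] M)
    (T' : K →ₗ[ZMod 2] N) (h : ∀ k, T k = 0 → T' k = 0) :
    ∃ φ : M →ₗ[ZMod 2] N, ∀ k, φ (T k) = T' k := by
  have hle : LinearMap.ker T ≤ LinearMap.ker T' := fun k hk => h k hk
  obtain ⟨φ, hφ⟩ := LinearMap.exists_extend
    (((LinearMap.ker T).liftQ T' hle).comp (LinearMap.quotKerEquivRange T).symm.toLinearMap)
  refine ⟨φ, fun k => ?_⟩
  have h1 := LinearMap.congr_fun hφ ⟨T k, ⟨k, rfl⟩⟩
  have h2 : (LinearMap.quotKerEquivRange T).symm ⟨T k, ⟨k, rfl⟩⟩ = (LinearMap.ker T).mkQ k := by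
    rw [LinearEquiv.symm_apply_eq]
    rfl
  have h3 : φ (T k) = ((LinearMap.ker T).liftQ T' hle)
      ((LinearMap.quotKerEquivRange T).symm ⟨T k, ⟨k, rfl⟩⟩) := h1
  rw [h3, h2]
  rfl

variable {S : QData} (hS : IsQuat S) [Module (ZMod 2) (Additive S.G)]

theorem vq : Vq (Aq hS) := by
  intro g w τ hτ f hf h
  obtain ⟨x, h1, h2, h3⟩ := link hS (hS.qs2 g.toMul w.toMul)
  have e1 : τ (w + Additive.ofMul x) = 0 := (mem_Aq hS).1 hτ _ (of_eq_r hS h1)
  have e2 : f (g + Additive.ofMul x) = 0 := (mem_Aq hS).1 hf _ (of_eq_r hS h2)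
  have e3 : (τ + f) (Additive.ofMul x) = 0 := (mem_Aq hS).1 h _ h3
  rw [map_add] at e1 e2
  rw [LinearMap.add_apply] at e3
  rw [I2.aez.1 e1, I2.aez.1 e2, I2.aez.1 e3]

theorem mem_VS_iff {a x : Additive S.G} : x ∈ VS hS a ↔ ∀ f ∈ Aq hS a, f x = 0 := by
  constructor
  · intro h f hf
    exact (mem_Aq hS).1 hf x h
  · intro h
    by_contra hx
    obtain ⟨l, hl1, hl2⟩ := Submodule.exists_le_ker_of_notMem hx
    exact hl1 (h l ((mem_Aq hS).2 hl2))

theorem os : Os (Aq hS) := by
  intro v w h f hf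
  have h1 : w ∈ VS hS v := (mem_VS_iff hS).2 h
  exact (mem_Aq hS).1 hf v (by rw [mem_VS, hS.qs2]; exact h1)

theorem Aq_zero {f : Dual (ZMod 2) (Additive S.G)} (hf : f ∈ Aq hS 0) : f = 0 := by
  refine LinearMap.ext fun x => ?_
  exact (mem_Aq hS).1 hf x (Pool.Agent.Helper94.ETC.one_q hS x.toMul)

/-- the functionals of the quotient -/
def Bq (u a : Additive S.G) : Submodule (ZMod 2) (Dual (ZMod 2) (Additive S.G)) :=
  Aq hS a ⊓ Aq hS (a + u)

omit [Module (ZMod 2) (Additive S.G)] in
include hS in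
theorem nu_of_mul {u a y : S.G} (h : S.q (a * u) y = S.zero) : NU S u a y :=
  ⟨y, eq_l hS h⟩

theorem mem_Bq {u a : Additive S.G} {f : Dual (ZMod 2) (Additive S.G)} :
    f ∈ Bq hS u a ↔ ∀ b : Additive S.G, NU S u.toMul a.toMul b.toMul → f b = 0 := by
  constructor
  · rintro ⟨h1, h2⟩ b ⟨y, hy⟩
    obtain ⟨x, k1, k2, k3⟩ := link hS hy
    have e1 : f (b + Additive.ofMul x) = 0 := (mem_Aq hS).1 h1 _ (of_eq_r hS k1)
    have e2 : f (Additive.ofMul x) = 0 := (mem_Aq hS).1 h2 _ k3
    rwa [map_add, e2, add_zero] at e1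
  · intro h
    refine ⟨(mem_Aq hS).2 fun x hx => h x (nu_of_zero hS hx), (mem_Aq hS).2 fun x hx => ?_⟩
    exact h x (nu_of_mul hS hx)

theorem rel_iff {u a b c d : Additive S.G} :
    Rel S u.toMul a.toMul b.toMul c.toMul d.toMul ↔
      ∀ f ∈ Bq hS u a, ∀ g ∈ Bq hS u c, f + g ∈ Bq hS u (a + c) → f b = g d := by
  constructor
  · rintro ⟨x, h1, h2, h3⟩ f hf g hg hfg
    have e1 : f (b + Additive.ofMul x) = 0 := (mem_Bq hS).1 hf _ h1
    have e2 : g (d + Additive.ofMul x) = 0 := (mem_Bq hS).1 hg _ h2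
    have e3 : (f + g) (Additive.ofMul x) = 0 := (mem_Bq hS).1 hfg _ h3
    rw [map_add] at e1 e2
    rw [LinearMap.add_apply] at e3
    rw [I2.aez.1 e1, I2.aez.1 e2, I2.aez.1 e3]
  · intro h
    let K : Submodule (ZMod 2) (Additive S.G × Additive S.G) :=
      { carrier := {p | Rel S u.toMul a.toMul p.1.toMul c.toMul p.2.toMul}
        add_mem' := by
          rintro p p' ⟨x, h1, h2, h3⟩ ⟨x', h1', h2', h3'⟩
          refine ⟨x * x', ?_, ?_, nu_mul hS h3 h3'⟩
          · have := nu_mul hS h1 h1'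
            rwa [mul_mul_mul_comm] at this
          · have := nu_mul hS h2 h2'
            rwa [mul_mul_mul_comm] at this
        zero_mem' := ⟨1, nu_of_zero hS (by
            show S.q a.toMul (1 * 1) = S.zero
            rw [one_mul]; exact Pool.Agent.Helper94.ETC.q_one hS _), nu_of_zero hS (by
            show S.q c.toMul (1 * 1) = S.zero
            rw [one_mul]; exact Pool.Agent.Helper94.ETC.q_one hS _), nu_one hS _ _⟩
        smul_mem' := by
          intro t p hp
          rcases I2.z01 t with rfl | rfl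
          · rw [zero_smul]
            exact ⟨1, nu_of_zero hS (by
              show S.q a.toMul (1 * 1) = S.zero
              rw [one_mul]; exact Pool.Agent.Helper94.ETC.q_one hS _), nu_of_zero hS (by
              show S.q c.toMul (1 * 1) = S.zero
              rw [one_mul]; exact Pool.Agent.Helper94.ETC.q_one hS _), nu_one hS _ _⟩
          · rw [one_smul]; exact hp }
    by_contra hne
    have hK : (b, d) ∉ K := hne
    obtain ⟨l, hl1, hl2⟩ := Submodule.exists_le_ker_of_notMem hK
    have hl : ∀ p q : Additive S.G, l (p, q) = l (p, 0) + l (0, q) := by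
      intro p q
      rw [← map_add, Prod.mk_add_mk, add_zero, zero_add]
    apply hl1
    rw [hl]
    let f : Dual (ZMod 2) (Additive S.G) := l ∘ₗ LinearMap.inl (ZMod 2) _ _
    let g : Dual (ZMod 2) (Additive S.G) := l ∘ₗ LinearMap.inr (ZMod 2) _ _
    have hf : f ∈ Bq hS u a := by
      rw [mem_Bq]
      intro v hv
      have h1 : (v, (0 : Additive S.G)) ∈ K := ⟨1, by
        show NU S u.toMul a.toMul (v.toMul * 1)
        rwa [mul_one], by
        show NU S u.toMul c.toMul (1 * 1)
        rw [one_mul]; exact nu_one hS _ _, nu_one hS _ _⟩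
      exact hl2 h1
    have hg : g ∈ Bq hS u c := by
      rw [mem_Bq]
      intro v hv
      have h1 : ((0 : Additive S.G), v) ∈ K := ⟨1, by
        show NU S u.toMul a.toMul (1 * 1)
        rw [one_mul]; exact nu_one hS _ _, by
        show NU S u.toMul c.toMul (v.toMul * 1)
        rwa [mul_one], nu_one hS _ _⟩
      exact hl2 h1
    have hfg : f + g ∈ Bq hS u (a + c) := by
      rw [mem_Bq]
      intro v hv
      have h1 : (v, v) ∈ K := ⟨v.toMul, by
        show NU S u.toMul a.toMul (v.toMul * v.toMul)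
        rw [hS.exp2]; exact nu_one hS _ _, by
        show NU S u.toMul c.toMul (v.toMul * v.toMul)
        rw [hS.exp2]; exact nu_one hS _ _, hv⟩
      have h2 : l (v, v) = 0 := hl2 h1
      rw [hl] at h2
      exact h2
    have h1 : f b = g d := h f hf g hg hfg
    exact I2.aez.2 h1

theorem lkB {u : Additive S.G} (hE : ∀ a e c, Ex (Aq hS) (span (ZMod 2) {u, a, e}) c) :
    Lk (Bq hS u) := by
  intro a e c f hf g hg hfg
  have hmem : ∀ t1 t2 : ZMod 2, t1 • f + t2 • g ∈ Bq hS u (t1 • a + t2 • e) := by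
    intro t1 t2
    rcases I2.z01 t1 with rfl | rfl <;> rcases I2.z01 t2 with rfl | rfl
    · simp
    · simpa using hg
    · simpa using hf
    · simpa using hfg
  obtain ⟨h, hh⟩ := exists_factor' (par u a e) (par (0 : Dual (ZMod 2) (Additive S.G)) f g) (by
    intro t ht
    have h1 := hmem (t 1) (t 2)
    have h2 : t 0 • u + t 1 • a + t 2 • e = 0 := ht
    have h3 : t 1 • a + t 2 • e = t 0 • u := by
      rw [add_assoc] at h2
      exact (I2.aez.1 h2).symm
    show t 0 • (0 : Dual (ZMod 2) (Additive S.G)) + t 1 • f + t 2 • g = 0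
    rw [smul_zero, zero_add]
    rw [h3] at h1
    rcases I2.z01 (t 0) with h0 | h0
    · rw [h0, zero_smul] at h1
      exact Aq_zero hS h1.1
    · rw [h0, one_smul] at h1
      have h4 := h1.2
      rw [I2.vadd] at h4
      exact Aq_zero hS h4)
  have hpar : ∀ t : Fin 3 → ZMod 2, h (t 0 • u + t 1 • a + t 2 • e) = t 1 • f + t 2 • g := by
    intro t
    have h1 := hh t
    have h2 : par (0 : Dual (ZMod 2) (Additive S.G)) f g t = t 1 • f + t 2 • g := by
      show t 0 • (0 : Dual (ZMod 2) (Additive S.G)) + t 1 • f + t 2 • g = _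
      rw [smul_zero, zero_add]
    rw [h2] at h1
    exact h1
  have hhS : h ∈ Sy (Aq hS) (span (ZMod 2) {u, a, e}) := by
    intro w hw
    obtain ⟨t, rfl⟩ := exists_par hw
    show h (t 0 • u + t 1 • a + t 2 • e) ∈ Aq hS (t 0 • u + t 1 • a + t 2 • e)
    rw [hpar]
    have h1 := hmem (t 1) (t 2)
    rcases I2.z01 (t 0) with h0 | h0
    · rw [h0, zero_smul, zero_add]
      exact h1.1
    · rw [h0, one_smul, add_assoc, add_comm u]
      exact h1.2
  have hu : h u = 0 := by
    have := hpar ![1, 0, 0]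
    simpa using this
  have ha : h a = f := by
    have := hpar ![0, 1, 0]
    simpa using this
  have he : h e = g := by
    have := hpar ![0, 0, 1]
    simpa using this
  obtain ⟨h', hh', e'⟩ := hE a e c h hhS
  have hc : c ∈ span (ZMod 2) {u, a, e} ⊔ span (ZMod 2) {c} :=
    mem_sup_right (mem_span_singleton_self c)
  have mu : u ∈ span (ZMod 2) {u, a, e} := subset_span (by simp)
  have ma : a ∈ span (ZMod 2) {u, a, e} := subset_span (by simp)
  have me : e ∈ span (ZMod 2) {u, a, e} := subset_span (by simp)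
  have key : ∀ w ∈ span (ZMod 2) {u, a, e}, h' c + h w ∈ Bq hS u (c + w) := by
    intro w hw
    refine ⟨?_, ?_⟩
    · have h1 := hh' _ (add_mem hc (mem_sup_left hw))
      rwa [map_add, e' w hw] at h1
    · have h1 := hh' _ (add_mem (add_mem hc (mem_sup_left hw)) (mem_sup_left mu))
      rwa [map_add, map_add, e' w hw, e' u mu, hu, add_zero] at h1
  refine ⟨h' c, ?_, ?_, ?_, ?_⟩
  · have := key 0 (zero_mem _)
    rwa [map_zero, add_zero, add_zero] at this
  · have := key a ma
    rwa [ha] at this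
  · have := key e me
    rwa [he] at this
  · have := key (a + e) (add_mem ma me)
    rwa [map_add, ha, he] at this

/-- **the quotient is quaternionic** -/
theorem quo_isQuat {u : S.G}
    (hE : ∀ a e c, Ex (Aq hS) (span (ZMod 2) {Additive.ofMul u, a, e}) c) : IsQuat (quo S u) := by
  have hLB := lkB hS hE
  have symm : ∀ a b c d : S.G, Rel S u a b c d → Rel S u c d a b := by
    rintro a b c d ⟨x, h1, h2, h3⟩
    exact ⟨x, h2, h1, by rw [mul_comm]; exact h3⟩
  have trans : ∀ a b c d e f : S.G, Rel S u a b c d → Rel S u c d e f → Rel S u a b e f := by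
    intro a b c d e k h1 h2
    have h1' := (rel_iff hS (u := Additive.ofMul u) (a := Additive.ofMul a)
      (b := Additive.ofMul b) (c := Additive.ofMul c) (d := Additive.ofMul d)).1 h1
    have h2' := (rel_iff hS (u := Additive.ofMul u) (a := Additive.ofMul c)
      (b := Additive.ofMul d) (c := Additive.ofMul e) (d := Additive.ofMul k)).1 h2
    refine (rel_iff hS (u := Additive.ofMul u) (a := Additive.ofMul a)
      (b := Additive.ofMul b) (c := Additive.ofMul e) (d := Additive.ofMul k)).2 ?_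
    intro f hf g hg hfg
    obtain ⟨m, m0, m1, m2, -⟩ := hLB (Additive.ofMul a) (Additive.ofMul e) (Additive.ofMul c)
      f hf g hg hfg
    have m1' : f + m ∈ Bq hS (Additive.ofMul u) (Additive.ofMul a + Additive.ofMul c) := by
      rw [add_comm f, add_comm (Additive.ofMul a)]
      exact m1
    rw [h1' f hf m m0 m1', h2' m m0 g hg m2]
  have heq : ∀ a b c d : S.G, (quo S u).q a b = (quo S u).q c d ↔ Rel S u a b c d := by
    intro a b c d
    constructor
    · exact rel_of_quo hS
    · intro h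
      show ({p | Rel S u a b p.1 p.2} : Set (S.G × S.G)) = {p | Rel S u c d p.1 p.2}
      ext p
      exact ⟨fun h' => trans _ _ _ _ _ _ (symm _ _ _ _ h) h', fun h' => trans _ _ _ _ _ _ h h'⟩
  have h3 : ∀ a b c : S.G, Rel S u a b a c ↔ NU S u a (b * c) := by
    intro a b c
    constructor
    · rintro ⟨x, k1, k2, -⟩
      have := nu_mul hS k1 k2
      have e : b * x * (c * x) = b * c := by
        rw [mul_mul_mul_comm, hS.exp2, mul_one]
      rwa [e] at this
    · intro h
      exact ⟨c, h, by rw [hS.exp2]; exact nu_one hS _ _, by rw [hS.exp2]; exact one_nu hS _ _⟩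
  refine ⟨hS.exp2, fun a => (quo_null hS).2 (nu_of_zero hS (hS.qs1 a)), fun a b => ?_,
    fun a b c => ?_, fun a b c d h => ?_⟩
  · refine (heq _ _ _ _).2 ?_
    obtain ⟨x, k1, k2, k3⟩ := link hS (hS.qs2 a b)
    exact ⟨x, nu_of_zero hS (of_eq_r hS k1), nu_of_zero hS (of_eq_r hS k2), nu_of_zero hS k3⟩
  · exact (heq _ _ _ _).trans ((h3 a b c).trans (quo_null hS).symm)
  · obtain ⟨x, k1, k2, k3⟩ := (heq a b c d).1 h
    exact ⟨x, (heq _ _ _ _).2 ((h3 a b x).2 k1), (heq _ _ _ _).2 ((h3 c d x).2 k2)⟩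

end Pool.Agent.Helper94.DN
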