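import Pool.Agent.Helper94.ETC.DN.Ext4

set_option autoImplicit false

/-! # Maximal symbols -/

namespace Pool.Agent.Helper94.DN

open Module Submodule Pool.Agent.Helper94.I2

variable {V : Type} [AddCommGroup V] [Module (ZMod 2) V]
variable {A : V → Submodule (ZMod 2) (Dual (ZMod 2) V)}

/-- the values of a symbol on two elements -/
def Vq (A : V → Submodule (ZMod 2) (Dual (ZMod 2) V)) : Prop :=
  ∀ g w : V, ∀ τ ∈ A g, ∀ f ∈ A w, τ + f ∈ A (g + w) → τ w = f g

/-- symbols on proper subspaces of codimension at most two extend to some element outside -/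
def Cd (A : V → Submodule (ZMod 2) (Dual (ZMod 2) V)) : Prop :=
  ∀ W : Submodule (ZMod 2) V, W ≠ ⊤ → finrank (ZMod 2) V ≤ finrank (ZMod 2) W + 2 →
    ∃ z, z ∉ W ∧ Ex A W z

/-- a functional agrees on `W` with a member of `E` if it vanishes where it has to -/
theorem exists_agree [Finite V] (E : Submodule (ZMod 2) (Dual (ZMod 2) V))
    (W : Submodule (ZMod 2) V) (φ : Dual (ZMod 2) V)
    (h : ∀ w ∈ W, (∀ f ∈ E, f w = 0) → φ w = 0) : ∃ f ∈ E, ∀ w ∈ W, f w = φ w := by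
  have h1 : φ ∈ E ⊔ W.dualAnnihilator := by
    have h0 : (E ⊔ W.dualAnnihilator).dualCoannihilator.dualAnnihilator = E ⊔ W.dualAnnihilator :=
      Subspace.dualCoannihilator_dualAnnihilator_eq
    rw [← h0, Submodule.mem_dualAnnihilator]
    intro b hb
    rw [Submodule.mem_dualCoannihilator] at hb
    have hbW : b ∈ W := by
      have h2 : W.dualAnnihilator.dualCoannihilator = W :=
        Subspace.dualAnnihilator_dualCoannihilator_eq
      rw [← h2, Submodule.mem_dualCoannihilator]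
      intro ψ hψ
      exact hb ψ (Submodule.mem_sup_right hψ)
    exact h b hbW fun f hf => hb f (Submodule.mem_sup_left hf)
  obtain ⟨f, hf, ψ, hψ, rfl⟩ := Submodule.mem_sup.1 h1
  refine ⟨f, hf, fun w hw => ?_⟩
  rw [LinearMap.add_apply, (Submodule.mem_dualAnnihilator ψ).1 hψ w hw, add_zero]

theorem triple (hL : Lk A) {W : Submodule (ZMod 2) V} {F : V →ₗ[ZMod 2] Dual (ZMod 2) V}
    (hF : F ∈ Sy A W) (g : V) {w w' : V} (hw : w ∈ W) (hw' : w' ∈ W) :
    ∃ τ ∈ A g, τ + F w ∈ A (g + w) ∧ τ + F w' ∈ A (g + w') := by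
  obtain ⟨k, k0, k1, k2, -⟩ := hL w w' g (F w) (hF w hw) (F w') (hF w' hw') (by
    rw [← map_add]; exact hF _ (W.add_mem hw hw'))
  exact ⟨k, k0, k1, k2⟩

/-- two of the sets of possible values at `g` meet, also if the values on `W` are prescribed -/
theorem pair [Finite V] (hL : Lk A) (hV : Vq A) {W : Submodule (ZMod 2) V}
    {F : V →ₗ[ZMod 2] Dual (ZMod 2) V} (hF : F ∈ Sy A W) (g : V) {w : V} (hw : w ∈ W) :
    ∃ τ ∈ A g, τ + F w ∈ A (g + w) ∧ ∀ w' ∈ W, τ w' = F w' g := by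
  obtain ⟨τ₀, h1, h2, -⟩ := triple hL hF g hw W.zero_mem
  let φ : Dual (ZMod 2) V := F.flip g + τ₀
  have hφ : ∀ v, φ v = F v g + τ₀ v := fun _ => rfl
  obtain ⟨κ, hκ, hκW⟩ := exists_agree (A g ⊓ A (g + w)) W φ (by
    intro w' hw' hk
    obtain ⟨τ', k1, k2, k3⟩ := triple hL hF g hw hw'
    have m1 : τ' + τ₀ ∈ A g := (A g).add_mem k1 h1
    have m2 : τ' + τ₀ ∈ A (g + w) := by
      have := (A (g + w)).add_mem k2 h2
      have e1 : τ' + F w + (τ₀ + F w) = τ' + τ₀ := by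
        have : τ' + F w + (τ₀ + F w) = τ' + τ₀ + (F w + F w) := by abel
        rw [this, vadd, add_zero]
      rwa [e1] at this
    have m3 := hk _ (Submodule.mem_inf.2 ⟨m1, m2⟩)
    rw [LinearMap.add_apply] at m3
    have m4 : τ' w' = F w' g := hV g w' τ' k1 _ (hF w' hw') k3
    rw [hφ, ← m4]
    exact m3)
  refine ⟨τ₀ + κ, (A g).add_mem h1 hκ.1, ?_, fun w' hw' => ?_⟩
  · have := (A (g + w)).add_mem h2 hκ.2
    have e1 : τ₀ + F w + κ = τ₀ + κ + F w := by abel
    rwa [e1] at this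
  · rw [LinearMap.add_apply, hκW w' hw', hφ, add_comm, add_assoc, vadd, add_zero]

/-- a symbol on `W` which does not extend to any further element -/
structure MaxSec (A : V → Submodule (ZMod 2) (Dual (ZMod 2) V)) (W : Submodule (ZMod 2) V)
    (F : V →ₗ[ZMod 2] Dual (ZMod 2) V) : Prop where
  sec : F ∈ Sy A W
  ne : W ≠ ⊤
  max : ∀ g, g ∉ W → ∀ τ : Dual (ZMod 2) V, ¬ ∀ w ∈ W, τ + F w ∈ A (g + w)

/-- a symbol on `P` which does not extend to `z` has a maximal extension -/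
theorem exists_max [Finite V] {P : Submodule (ZMod 2) V} {z : V}
    {F₀ : V →ₗ[ZMod 2] Dual (ZMod 2) V} (hF : F₀ ∈ Sy A P)
    (hn : ¬ ∃ k ∈ Sy A (P ⊔ span (ZMod 2) {z}), ∀ p ∈ P, k p = F₀ p) :
    ∃ (W : Submodule (ZMod 2) V) (F : V →ₗ[ZMod 2] Dual (ZMod 2) V), P ≤ W ∧
      (∀ p ∈ P, F p = F₀ p) ∧ MaxSec A W F := by
  classical
  let 𝓦 : Set (Submodule (ZMod 2) V) := {W | P ≤ W ∧ ∃ F ∈ Sy A W, ∀ p ∈ P, F p = F₀ p}
  have hne : 𝓦.Nonempty := ⟨P, le_rfl, F₀, hF, fun _ _ => rfl⟩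
  have hfin : 𝓦.Finite := Set.toFinite _
  obtain ⟨W, hW, hmax⟩ := hfin.exists_maximal hne
  obtain ⟨hPW, F, hFW, hFP⟩ := hW
  refine ⟨W, F, hPW, hFP, hFW, ?_, ?_⟩
  · intro hT
    exact hn ⟨F, Sy_anti (by rw [hT]; exact le_top) hFW, hFP⟩
  · intro g hg τ h
    obtain ⟨F', h1, h2⟩ := ex_of_val hFW τ h
    have h3 : W ⊔ span (ZMod 2) {g} ∈ 𝓦 :=
      ⟨hPW.trans le_sup_left, F', h1, fun p hp => (h2 p (hPW hp)).trans (hFP p hp)⟩
    have h4 := hmax h3 le_sup_left
    exact hg (h4 (mem_sup_right (mem_span_singleton_self g)))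

/-- each vector outside `W` has a nonzero value which vanishes on `W` -/
theorem MaxSec.exists_val [Finite V] (hL : Lk A) (hV : Vq A) {W : Submodule (ZMod 2) V}
    {F : V →ₗ[ZMod 2] Dual (ZMod 2) V} (hM : MaxSec A W F) {g : V} (hg : g ∉ W) :
    ∃ f : Dual (ZMod 2) V, f ≠ 0 ∧ f ∈ A g ∧ ∀ w ∈ W, f w = 0 := by
  by_contra hcon
  push Not at hcon
  obtain ⟨τ, h1, -, h2⟩ := pair hL hV hM.sec g W.zero_mem
  refine hM.max g hg τ fun w hw => ?_
  obtain ⟨τ', k1, k2, k3⟩ := pair hL hV hM.sec g hw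
  have h3 : τ + τ' = 0 := by
    by_contra hne
    obtain ⟨w', hw', h4⟩ := hcon _ hne ((A g).add_mem h1 k1)
    apply h4
    rw [LinearMap.add_apply, h2 w' hw', k3 w' hw', vadd]
  rw [aez.1 h3]
  exact k2

/-- `W` has codimension at least three -/
theorem MaxSec.codim (hC : Cd A) {W : Submodule (ZMod 2) V}
    {F : V →ₗ[ZMod 2] Dual (ZMod 2) V} (hM : MaxSec A W F) :
    finrank (ZMod 2) W + 3 ≤ finrank (ZMod 2) V := by
  by_contra hlt
  obtain ⟨z, hz, hex⟩ := hC W hM.ne (by omega)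
  obtain ⟨h', hh', e⟩ := hex F hM.sec
  refine hM.max z hz (h' z) fun w hw => ?_
  rw [← e w hw, ← map_add]
  exact hh' _ (add_mem (mem_sup_right (mem_span_singleton_self z)) (mem_sup_left hw))

/-- the number of functionals at a vector outside `W` -/
theorem MaxSec.finrank_le [Finite V] (hL : Lk A) (hV : Vq A)
    {W : Submodule (ZMod 2) V} {F : V →ₗ[ZMod 2] Dual (ZMod 2) V} (hM : MaxSec A W F)
    {P : Submodule (ZMod 2) V} (hW : P ≤ W) {v : V} (hv : v ∉ W) :
    finrank (ZMod 2) P + 1 ≤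
      finrank (ZMod 2) (P ⊓ (A v).dualCoannihilator : Submodule (ZMod 2) V) +
        finrank (ZMod 2) (A v) := by
  obtain ⟨f₀, hf0, hf1, hf2⟩ := hM.exists_val hL hV hv
  let L : P →ₗ[ZMod 2] (A v →ₗ[ZMod 2] ZMod 2) :=
    { toFun := fun a => (LinearMap.applyₗ (a : V)).comp (A v).subtype
      map_add' := fun a b => by ext f; simp
      map_smul' := fun c b => by ext f; simp }
  have hLa : ∀ a f, L a f = f.1 (a : V) := fun _ _ => rfl
  have hker : finrank (ZMod 2) (LinearMap.ker L) =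
      finrank (ZMod 2) (P ⊓ (A v).dualCoannihilator : Submodule (ZMod 2) V) := by
    have e1 : (LinearMap.ker L).map P.subtype = P ⊓ (A v).dualCoannihilator := by
      ext a
      constructor
      · rintro ⟨b, hb, rfl⟩
        refine ⟨b.2, ?_⟩
        show (b : V) ∈ (A v).dualCoannihilator
        rw [Submodule.mem_dualCoannihilator]
        intro φ hφ
        exact LinearMap.congr_fun (LinearMap.mem_ker.1 hb) ⟨φ, hφ⟩
      · rintro ⟨h1, h2⟩
        refine ⟨⟨a, h1⟩, ?_, rfl⟩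
        show (⟨a, h1⟩ : P) ∈ LinearMap.ker L
        rw [LinearMap.mem_ker]
        refine LinearMap.ext fun f => ?_
        have h3 : a ∈ (A v).dualCoannihilator := h2
        rw [Submodule.mem_dualCoannihilator] at h3
        exact h3 f.1 f.2
    rw [← e1]
    exact (LinearEquiv.finrank_eq (Submodule.equivMapOfInjective P.subtype
      P.injective_subtype (LinearMap.ker L)))
  have h1 := LinearMap.finrank_range_add_finrank_ker L
  rw [hker] at h1
  have h2 : finrank (ZMod 2) (LinearMap.range L) <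
      finrank (ZMod 2) (A v →ₗ[ZMod 2] ZMod 2) := by
    apply Submodule.finrank_lt
    intro hT
    obtain ⟨u, hu⟩ : ∃ u, f₀ u ≠ 0 := by
      by_contra hcon
      push Not at hcon
      exact hf0 (LinearMap.ext hcon)
    have h3 : (LinearMap.applyₗ u).comp (A v).subtype ∈ LinearMap.range L := by
      rw [hT]; exact Submodule.mem_top
    obtain ⟨a, ha⟩ := h3
    have h4 := LinearMap.congr_fun ha ⟨f₀, hf1⟩
    rw [hLa] at h4
    have h5 : f₀ (a : V) = f₀ u := h4
    rw [hf2 _ (hW a.2)] at h5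
    exact hu h5.symm
  rw [Subspace.dual_finrank_eq] at h2
  omega

end Pool.Agent.Helper94.DN
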